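import Pool.Agent.H65.Flat.Field

/-! # The surface `Γ \ ℍ` with metric `e^{2u} g_hyp` (interface) -/

namespace H65.Flat

open MeasureTheory Set Filter
open scoped UpperHalfPlane MatrixGroups ENNReal Topology

/-- `x + i e^s` -/
noncomputable def zz (p : ℝ × ℝ) : ℍ := ⟨⟨p.1, Real.exp p.2⟩, Real.exp_pos _⟩

/-- A cocompact torsion free Fuchsian group and a smooth invariant conformal factor with
nonpositive curvature. -/
structure Srf where
  Γ : Subgroup SL(2, ℝ)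
  discr : DiscreteTopology Γ
  free : ∀ g ∈ Γ, ∀ z : ℍ, g • z = z → ∀ w : ℍ, g • w = w
  cocompact : ∃ C : Set ℍ, IsCompact C ∧ ∀ z : ℍ, ∃ g ∈ Γ, g • z ∈ C
  u : ℍ → ℝ
  smooth : ContDiff ℝ (⊤ : ℕ∞) fun p => u (zz p)
  inv : ∀ g ∈ Γ, ∀ z, u (g • z) = u z
  nonpos : ∀ p, curv (fun p => u (zz p)) p ≤ 0

end H65.Flat
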