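import Pool.Agent.H65.Flat.Field
import Pool.Agent.H66.Liou.Quot

/-! # Liouville measure and the quotient functional (helper66) -/

namespace H65.Flat

open MeasureTheory Set Filter
open scoped ENNReal Topology

section general

variable {E : Type*} [NormedAddCommGroup E] [NormedSpace ℝ E] [FiniteDimensional ℝ E]
  [MeasurableSpace E] [BorelSpace E]

/-- a differentiable bijection with the right Jacobian preserves the measure with density `w` -/
theorem measurePreserving_of_jac (μ : Measure E) [μ.IsAddHaarMeasure] {f : E → E}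
    {f' : E → E →L[ℝ] E} (hf : ∀ v, HasFDerivAt f (f' v) v) (hbij : Function.Bijective f)
    {w : E → ℝ} (hjac : ∀ v, |(f' v).det| * w (f v) = w v) :
    MeasurePreserving f (μ.withDensity fun v => ENNReal.ofReal (w v))
      (μ.withDensity fun v => ENNReal.ofReal (w v)) := by
  have hfc : Continuous f := continuous_iff_continuousAt.2 fun v => (hf v).continuousAt
  refine ⟨hfc.measurable, ?_⟩
  ext s hs
  rw [Measure.map_apply hfc.measurable hs, withDensity_apply _ (hfc.measurable hs),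
    withDensity_apply _ hs]
  have h1 := lintegral_image_eq_lintegral_abs_det_fderiv_mul μ (hfc.measurable hs)
    (f := f) (f' := f') (fun x _ => (hf x).hasFDerivWithinAt) hbij.1.injOn
    (fun x => ENNReal.ofReal (w x))
  rw [image_preimage_eq s hbij.2] at h1
  rw [h1]
  apply setLIntegral_congr_fun (hfc.measurable hs)
  intro x _
  simp only
  rw [← ENNReal.ofReal_mul (abs_nonneg _), hjac]

end general

instance haar2 : (volume : Measure (ℝ × ℝ)).IsAddHaarMeasure :=
  Measure.prod.instIsAddHaarMeasure _ _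

instance haar3 : (volume : Measure T).IsAddHaarMeasure := Measure.prod.instIsAddHaarMeasure _ _

/-- coordinates -/
def coordEquiv : T ≃ₗ[ℝ] (Fin 3 → ℝ) where
  toFun v := ![v.1, v.2.1, v.2.2]
  invFun f := (f 0, f 1, f 2)
  left_inv v := by simp
  right_inv f := by
    funext i; fin_cases i <;> simp
  map_add' v w := by
    funext i; fin_cases i <;> simp
  map_smul' r v := by
    funext i; fin_cases i <;> simp

noncomputable def bT : Module.Basis (Fin 3) ℝ T := Module.Basis.ofEquivFun coordEquiv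

theorem bT_0 : bT 0 = (1, 0, 0) := by
  simp [bT, coordEquiv, Module.Basis.coe_ofEquivFun]

theorem bT_1 : bT 1 = (0, 1, 0) := by
  simp [bT, coordEquiv, Module.Basis.coe_ofEquivFun]

theorem bT_2 : bT 2 = (0, 0, 1) := by
  simp [bT, coordEquiv, Module.Basis.coe_ofEquivFun]

theorem bT_repr (v : T) (i : Fin 3) : bT.repr v i = ![v.1, v.2.1, v.2.2] i := rfl

theorem det_eq (B : T →ₗ[ℝ] T) :
    LinearMap.det B =
      (B (1, 0, 0)).1 * ((B (0, 1, 0)).2.1 * (B (0, 0, 1)).2.2
        - (B (0, 0, 1)).2.1 * (B (0, 1, 0)).2.2)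
      - (B (0, 1, 0)).1 * ((B (1, 0, 0)).2.1 * (B (0, 0, 1)).2.2
        - (B (0, 0, 1)).2.1 * (B (1, 0, 0)).2.2)
      + (B (0, 0, 1)).1 * ((B (1, 0, 0)).2.1 * (B (0, 1, 0)).2.2
        - (B (0, 1, 0)).2.1 * (B (1, 0, 0)).2.2) := by
  rw [← LinearMap.det_toMatrix bT, Matrix.det_fin_three]
  simp only [LinearMap.toMatrix_apply, bT_0, bT_1, bT_2, bT_repr]
  simp
  ring

/-- linear map with given columns -/
def col (a b c : T) : T →ₗ[ℝ] T where
  toFun p := p.1 • a + p.2.1 • b + p.2.2 • c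
  map_add' p q := by
    simp only [Prod.fst_add, Prod.snd_add, add_smul]
    abel
  map_smul' r p := by
    simp only [Prod.smul_fst, Prod.smul_snd, smul_eq_mul, mul_smul, RingHom.id_apply, smul_add]

theorem col_apply (a b c p : T) : col a b c p = p.1 • a + p.2.1 • b + p.2.2 • c := rfl

theorem det_frame (U : ℝ × ℝ → ℝ) (v : T) :
    LinearMap.det (col (fieldX U v) (fieldH U v) fieldV) = Real.exp (v.2.1 - 2 * U (bp v)) := by
  rw [det_eq]
  simp only [col_apply, fieldX, fieldH, fieldV]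
  simp
  have e : Real.exp (v.2.1 - 2 * U (bp v)) = Real.exp (v.2.1 - U (bp v)) * Real.exp (-U (bp v)) := by
    rw [← Real.exp_add]; ring_nf
  rw [e]
  have h := Real.sin_sq_add_cos_sq v.2.2
  linear_combination (Real.exp (v.2.1 - U (bp v)) * Real.exp (-U (bp v))) * h

/-- the Jacobian of a map whose derivative is unimodular in the frame `X, H, V` -/
theorem jac_of_frame (U : ℝ × ℝ → ℝ) (f : T → T) (B : T →L[ℝ] T) (v : T) {j j1 j2 j3 : ℝ}
    (hX : B (fieldX U v) = fieldX U (f v))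
    (hH : B (fieldH U v) = j • fieldH U (f v) + j1 • fieldV)
    (hV : B fieldV = j2 • fieldH U (f v) + j3 • fieldV) (hdet : j * j3 - j1 * j2 = 1) :
    |B.det| * dens U (f v) = dens U v := by
  have h1 : (B : T →ₗ[ℝ] T) ∘ₗ col (fieldX U v) (fieldH U v) fieldV =
      col (fieldX U (f v)) (fieldH U (f v)) fieldV ∘ₗ col (1, 0, 0) (0, j, j1) (0, j2, j3) := by
    apply LinearMap.ext
    intro p
    simp only [LinearMap.comp_apply, col_apply, map_add, map_smul, ContinuousLinearMap.coe_coe,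
      hX, hH, hV]
    simp [smul_add, smul_smul]
  have h2 := congrArg LinearMap.det h1
  rw [LinearMap.det_comp, LinearMap.det_comp, det_frame, det_frame] at h2
  have h3 : LinearMap.det (col (1, 0, 0) (0, j, j1) (0, j2, j3)) = 1 := by
    rw [det_eq]
    simp only [col_apply]
    simp
    linarith
  rw [h3, mul_one] at h2
  have h4 : B.det = Real.exp ((f v).2.1 - 2 * U (bp (f v))) / Real.exp (v.2.1 - 2 * U (bp v)) := by
    rw [eq_div_iff (Real.exp_pos _).ne']; exact h2
  rw [h4, ← Real.exp_sub, abs_of_pos (Real.exp_pos _)]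
  unfold dens
  rw [← Real.exp_add]
  congr 1
  ring

/-- the Wronskian -/
theorem Pre2.wronski (P : Pre2) (v : T) (y : ℝ) : P.J v y * P.J21 v y - P.J1 v y * P.J2 v y = 1 := by
  have h : ∀ y, HasDerivAt (fun y => P.J v y * P.J21 v y - P.J1 v y * P.J2 v y) 0 y := by
    intro y
    refine (((P.J_deriv v y).mul (P.J21_deriv v y)).sub
      ((P.J1_deriv v y).mul (P.J2_deriv v y))).congr_deriv ?_
    ring
  have h1 := is_const_of_deriv_eq_zero (f := fun y => P.J v y * P.J21 v y - P.J1 v y * P.J2 v y)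
    (fun t => (h t).differentiableAt) (fun t => (h t).deriv) y 0
  rw [h1, P.J_zero, P.J21_zero, P.J2_zero]
  ring

theorem Pre2.flow_cont (P : Pre2) (t : ℝ) : ContDiff ℝ (⊤ : ℕ∞) (P.Φ t) :=
  P.Φ_smooth.comp (contDiff_const.prodMk contDiff_id)

theorem Pre2.flow_bij (P : Pre2) (t : ℝ) : Function.Bijective (P.Φ t) := by
  constructor
  · intro v w h
    have := congrArg (P.Φ (-t)) h
    rwa [← P.Φ_add, ← P.Φ_add, neg_add_cancel, P.Φ_zero, P.Φ_zero] at this
  · intro v
    refine ⟨P.Φ (-t) v, ?_⟩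
    rw [← P.Φ_add, add_neg_cancel, P.Φ_zero]

/-- the flow preserves the Liouville measure -/
theorem Pre2.flow_preserving (P : Pre2) (t : ℝ) :
    MeasurePreserving (P.Φ t) (liou P.U) (liou P.U) := by
  unfold liou
  apply measurePreserving_of_jac (volume : Measure T) (f' := fun v => fderiv ℝ (P.Φ t) v)
  · intro v
    exact ((P.flow_cont t).differentiable (by simp)).differentiableAt.hasFDerivAt
  · exact P.flow_bij t
  · intro v
    exact jac_of_frame P.U (P.Φ t) _ v (P.dX v t) (P.dH v t) (P.dV v t) (P.wronski v t)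

theorem rot_bij (a : ℝ) : Function.Bijective (rot a) := by
  constructor
  · rintro ⟨x, s, p⟩ ⟨x', s', p'⟩ h
    simp only [rot, Prod.mk.injEq, add_left_inj] at h
    simp [h]
  · rintro ⟨x, s, p⟩
    exact ⟨(x, s, p - a), by simp [rot]⟩

theorem rot_hasFDerivAt (a : ℝ) (v : T) : HasFDerivAt (rot a) (ContinuousLinearMap.id ℝ T) v := by
  have e : rot a = fun v : T => v + (0, 0, a) := by
    funext v; simp [rot, Prod.ext_iff]
  rw [e]
  exact (hasFDerivAt_id v).add_const _

theorem rot_preserving (U : ℝ × ℝ → ℝ) (_hU : Continuous U) (a : ℝ) :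
    MeasurePreserving (rot a) (liou U) (liou U) := by
  unfold liou
  apply measurePreserving_of_jac (volume : Measure T) (rot_hasFDerivAt a) (rot_bij a)
  intro v
  have h6 : (ContinuousLinearMap.id ℝ T).det = 1 := LinearMap.det_id
  rw [h6]
  simp [dens, rot, bp]

theorem fieldH_eq (U : ℝ × ℝ → ℝ) (v : T) : fieldH U v = fieldX U (rot (Real.pi / 2) v) := by
  simp only [fieldH, fieldX, rot, bp, Real.cos_add_pi_div_two, Real.sin_add_pi_div_two]
  simp only [Prod.mk.injEq]
  refine ⟨by ring, trivial, by ring⟩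

/-- A differentiable bijection of the phase space which commutes with the flow and with the
rotations preserves the Liouville measure. -/
theorem Pre2.deck_preserving (P : Pre2) {τ : T → T} (hbij : Function.Bijective τ)
    (hd : Differentiable ℝ τ) (hflow : ∀ t v, P.Φ t (τ v) = τ (P.Φ t v))
    (hrot : ∀ a v, rot a (τ v) = τ (rot a v)) :
    MeasurePreserving τ (liou P.U) (liou P.U) := by
  have hX : ∀ v, fderiv ℝ τ v (fieldX P.U v) = fieldX P.U (τ v) := by
    intro v
    have h1 : HasDerivAt (fun t => P.Φ t v) (fieldX P.U v) 0 := by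
      simpa [P.Φ_zero] using P.Φ_deriv v 0
    have h2 : HasFDerivAt τ (fderiv ℝ τ v) (P.Φ 0 v) := by
      rw [P.Φ_zero]; exact (hd v).hasFDerivAt
    have h3 := h2.comp_hasDerivAt 0 h1
    have h4 : HasDerivAt (fun t => P.Φ t (τ v)) (fieldX P.U (τ v)) 0 := by
      simpa [P.Φ_zero] using P.Φ_deriv (τ v) 0
    have h5 : (τ ∘ fun t => P.Φ t v) = fun t => P.Φ t (τ v) := by
      funext t; exact (hflow t v).symm
    rw [h5] at h3
    exact h3.unique h4
  have hV : ∀ v, fderiv ℝ τ v fieldV = fieldV := by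
    intro v
    have h1 : ∀ v : T, HasDerivAt (fun a => rot a v) fieldV 0 := by
      intro v
      have : HasDerivAt (fun a : ℝ => ((v.1, v.2.1, v.2.2 + a) : T)) (0, 0, 1) 0 :=
        (hasDerivAt_const _ _).prodMk ((hasDerivAt_const _ _).prodMk
          ((hasDerivAt_id 0).const_add v.2.2))
      exact this
    have h2 : HasFDerivAt τ (fderiv ℝ τ v) (rot 0 v) := by
      have : rot 0 v = v := by simp [rot]
      rw [this]; exact (hd v).hasFDerivAt
    have h3 := h2.comp_hasDerivAt 0 (h1 v)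
    have h5 : (τ ∘ fun a => rot a v) = fun a => rot a (τ v) := by
      funext a; exact (hrot a v).symm
    rw [h5] at h3
    exact h3.unique (h1 (τ v))
  have hR : ∀ a v, fderiv ℝ τ (rot a v) = fderiv ℝ τ v := by
    intro a v
    have h1 : HasFDerivAt (fun v => τ (rot a v)) ((fderiv ℝ τ (rot a v)).comp
        (ContinuousLinearMap.id ℝ T)) v := (hd (rot a v)).hasFDerivAt.comp v (rot_hasFDerivAt a v)
    have h2 : HasFDerivAt (fun v => rot a (τ v)) ((ContinuousLinearMap.id ℝ T).comp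
        (fderiv ℝ τ v)) v := (rot_hasFDerivAt a (τ v)).comp v (hd v).hasFDerivAt
    have h3 : (fun v => τ (rot a v)) = fun v => rot a (τ v) := by
      funext v; exact (hrot a v).symm
    rw [h3] at h1
    have := h1.unique h2
    simpa using this
  unfold liou
  apply measurePreserving_of_jac (volume : Measure T) (fun v => (hd v).hasFDerivAt) hbij
  intro v
  apply jac_of_frame P.U τ _ v (j := 1) (j1 := 0) (j2 := 0) (j3 := 1) (hX v)
  · rw [fieldH_eq, ← hR (Real.pi / 2) v, hX, ← hrot, fieldH_eq]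
    simp
  · rw [hV]; simp
  · ring

theorem liou_isLocallyFinite (U : ℝ × ℝ → ℝ) (hU : Continuous U) :
    IsLocallyFiniteMeasure (liou U) := by
  unfold liou
  apply IsLocallyFiniteMeasure.withDensity_ofReal
  unfold dens bp
  fun_prop

/-- fundamental domain of a countable, free, properly discontinuous, cocompact, measure preserving
group and the resulting quotient functional -/
theorem exists_domain (μ : Measure T) [IsLocallyFiniteMeasure μ] (Λ : Subgroup (Equiv.Perm T))
    (_hc : Countable Λ)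
    (hcont : ∀ τ ∈ Λ, Continuous τ) (hmp : ∀ τ ∈ Λ, MeasurePreserving τ μ μ)
    (hfree : ∀ v, ∃ O : Set T, IsOpen O ∧ v ∈ O ∧ ∀ τ ∈ Λ, τ ≠ 1 → Disjoint (τ '' O) O)
    (hcpt : ∃ C : Set T, IsCompact C ∧ ∀ v, ∃ τ ∈ Λ, τ v ∈ C) :
    ∃ D : Set T, MeasurableSet D ∧ μ D < ⊤ ∧
      (∀ (Θ : T → T), MeasurePreserving Θ μ μ → Function.Bijective Θ →
        (∀ τ ∈ Λ, ∀ v, Θ (τ v) = τ (Θ v)) → ∀ F : T → ℝ≥0∞, Measurable F →
        (∀ τ ∈ Λ, ∀ v, F (τ v) = F v) → ∫⁻ v in D, F (Θ v) ∂μ = ∫⁻ v in D, F v ∂μ) ∧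
      (∀ (Y : Set T) (F : T → ℝ≥0∞) (c : ℝ≥0∞), MeasurableSet Y →
        (∀ τ ∈ Λ, τ ≠ 1 → Disjoint (τ '' Y) Y) → Measurable F →
        (∀ τ ∈ Λ, ∀ v, F (τ v) = F v) → (∀ v ∈ Y, c ≤ F v) → c * μ Y ≤ ∫⁻ v in D, F v ∂μ) := by
  classical
  set Dk : Set (T → T) := (fun τ : Equiv.Perm T => (τ : T → T)) '' (Λ : Set (Equiv.Perm T)) with hDk
  have hmem : ∀ τ ∈ Λ, (τ : T → T) ∈ Dk := fun τ hτ => ⟨τ, hτ, rfl⟩
  have hdeck : Liou.IsDeck Dk := by
    refine ⟨⟨⟨1, Λ.one_mem, rfl⟩, ?_, ?_⟩, ?_, ?_, ?_⟩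
    · rintro _ ⟨σ, hσ, rfl⟩ _ ⟨τ, hτ, rfl⟩
      exact ⟨σ * τ, Λ.mul_mem hσ hτ, rfl⟩
    · rintro _ ⟨τ, hτ, rfl⟩
      refine ⟨(τ⁻¹ : Equiv.Perm T), hmem _ (Λ.inv_mem hτ), ?_, ?_⟩
      · funext x; simp
      · funext x; simp
    · rintro _ ⟨τ, hτ, rfl⟩
      exact hcont τ hτ
    · intro v
      obtain ⟨O, hO, hv, hd⟩ := hfree v
      refine ⟨O, hO, hv, ?_⟩
      rintro _ ⟨τ, hτ, rfl⟩ hne y hy hy'
      have hne' : τ ≠ 1 := by
        rintro rfl
        exact hne rfl
      exact (Set.disjoint_left.1 (hd τ hτ hne')) (mem_image_of_mem τ hy) hy'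
    · obtain ⟨C, hC, hCv⟩ := hcpt
      refine ⟨C, hC, fun v => ?_⟩
      obtain ⟨τ, hτ, h⟩ := hCv v
      exact ⟨τ, hmem τ hτ, h⟩
  obtain ⟨D, hD, K, hK, hDK⟩ := hdeck.exists_fd
  have hcount : Dk.Countable := hdeck.countable
  have hmp' : ∀ τ ∈ Dk, MeasurePreserving τ μ μ := by
    rintro _ ⟨τ, hτ, rfl⟩
    exact hmp τ hτ
  refine ⟨D, hD.meas, (measure_mono hDK).trans_lt hK.measure_lt_top, ?_, ?_⟩
  · intro Θ hΘ _ hcomm F hF hinv
    apply Liou.lintegral_comp_eq hdeck.toIsGrp hD hcount hmp' hΘ _ hF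
    · rintro _ ⟨τ, hτ, rfl⟩ x
      exact hinv τ hτ x
    · rintro _ ⟨τ, hτ, rfl⟩ x
      exact hcomm τ hτ x
  · intro Y F c hY hdis hF hinv hc
    have h1 : ∫⁻ v in Y, F v ∂μ ≤ ∫⁻ v in D, F v ∂μ := by
      apply Liou.setLIntegral_le hdeck.toIsGrp hD hcount hmp' hY _ hF
      · rintro _ ⟨τ, hτ, rfl⟩ x
        exact hinv τ hτ x
      · rintro _ ⟨τ, hτ, rfl⟩ hne x hx hx'
        have hne' : τ ≠ 1 := by
          rintro rfl
          exact hne rfl
        exact (Set.disjoint_left.1 (hdis τ hτ hne')) (mem_image_of_mem τ hx) hx'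
    refine le_trans ?_ h1
    rw [← setLIntegral_const]
    exact setLIntegral_mono hF hc

end H65.Flat
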