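import Mathlib

/-!
# Flows of tame smooth vector fields (helper89, interface by helper65)
-/

namespace H65.Flat.ODE

open Set Metric Filter Topology NNReal

/-- A-priori bounds for all time-rescaled solutions (rescaling factor in `[0,1]`). -/
def Tame {E : Type*} [NormedAddCommGroup E] [NormedSpace ℝ E] (v : E → E) : Prop :=
  ∀ r T : ℝ, ∃ R : ℝ, ∀ (a : ℝ → ℝ) (γ : ℝ → E), (∀ t, 0 ≤ a t ∧ a t ≤ 1) → ‖γ 0‖ ≤ r →
    (∀ t, |t| ≤ T → HasDerivAt γ (a t • v (γ t)) t) → ∀ t, |t| ≤ T → ‖γ t‖ ≤ R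

section gron

variable {E : Type*} [NormedAddCommGroup E] [NormedSpace ℝ E]

/-- two-sided Gronwall -/
lemma gron_aux {f f' : ℝ → E} {K T δ ε : ℝ} 
    (hd : ∀ t, 0 ≤ t → t ≤ T → HasDerivAt f (f' t) t) (h0 : ‖f 0‖ ≤ δ)
    (hb : ∀ t, 0 ≤ t → t ≤ T → ‖f' t‖ ≤ K * ‖f t‖ + ε) (t : ℝ) (ht0 : 0 ≤ t) (ht : t ≤ T) :
    ‖f t‖ ≤ gronwallBound δ K ε t := by
  have := norm_le_gronwallBound_of_norm_deriv_right_le (f := f) (f' := f') (δ := δ) (K := K)
    (ε := ε) (a := 0) (b := T)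
    (fun s hs => (hd s hs.1 hs.2).continuousAt.continuousWithinAt)
    (fun s hs => (hd s hs.1 hs.2.le).hasDerivWithinAt) h0 (fun s hs => hb s hs.1 hs.2.le)
    t ⟨ht0, ht⟩
  simpa using this

lemma gron {f f' : ℝ → E} {K T δ ε : ℝ} (hK : 0 ≤ K) (hδ : 0 ≤ δ) (hε : 0 ≤ ε)
    (hd : ∀ t, |t| ≤ T → HasDerivAt f (f' t) t) (h0 : ‖f 0‖ ≤ δ)
    (hb : ∀ t, |t| ≤ T → ‖f' t‖ ≤ K * ‖f t‖ + ε) (t : ℝ) (ht : |t| ≤ T) :
    ‖f t‖ ≤ gronwallBound δ K ε T := by
  refine le_trans ?_ (gronwallBound_mono hδ hε hK ht)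
  rcases le_total 0 t with h | h
  · rw [abs_of_nonneg h] at ht ⊢
    exact gron_aux (f := f) (f' := f') (T := T)
      (fun s hs hs' => hd s (by rwa [abs_of_nonneg hs])) h0
      (fun s hs hs' => hb s (by rwa [abs_of_nonneg hs])) t h ht
  · rw [abs_of_nonpos h] at ht ⊢
    have := gron_aux (f := fun s => f (-s)) (f' := fun s => -f' (-s)) (T := T) (K := K) (δ := δ)
      (ε := ε)
      (fun s hs hs' => by
        have h1 := hd (-s) (by rwa [abs_neg, abs_of_nonneg hs])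
        have h2 := h1.scomp s (hasDerivAt_neg s)
        simpa [Function.comp_def] using h2) (by simpa using h0)
      (fun s hs hs' => by
        rw [norm_neg]
        exact hb (-s) (by rwa [abs_neg, abs_of_nonneg hs])) (-t) (by linarith) ht
    simpa using this

lemma gron_mul (a K b x : ℝ) : gronwallBound 0 K (a * b) x = a * gronwallBound 0 K b x := by
  unfold gronwallBound
  split_ifs <;> ring

end gron

variable {E : Type*} [NormedAddCommGroup E] [NormedSpace ℝ E] [FiniteDimensional ℝ E]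
  {F : Type*} [NormedAddCommGroup F] [NormedSpace ℝ F]

lemma lip_ball {v : E → F} (hv : ContDiff ℝ 1 v) (R : ℝ) :
    ∃ K : ℝ≥0, LipschitzOnWith K v (closedBall 0 R) := by
  have : ProperSpace E := FiniteDimensional.proper_real E
  exact hv.contDiffOn.exists_lipschitzOnWith one_ne_zero (convex_closedBall _ _)
    (isCompact_closedBall _ _)

omit [NormedSpace ℝ F] in
lemma bdd_ball {v : E → F} (hv : Continuous v) (R : ℝ) :
    ∃ C : ℝ, 0 ≤ C ∧ ∀ x, ‖x‖ ≤ R → ‖v x‖ ≤ C := by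
  have : ProperSpace E := FiniteDimensional.proper_real E
  obtain ⟨C, hC⟩ := (isCompact_closedBall (0 : E) R).exists_bound_of_continuousOn
    hv.continuousOn
  exact ⟨max C 0, le_max_right _ _, fun x hx => (hC x (by simpa using hx)).trans
    (le_max_left _ _)⟩

/-- uniqueness of solutions -/
theorem sol_unique {v : E → E} (hv : ContDiff ℝ 1 v) {γ₁ γ₂ : ℝ → E} {a b t₀ : ℝ}
    (ht : t₀ ∈ Set.Icc a b) (h₁ : ∀ t ∈ Set.Icc a b, HasDerivAt γ₁ (v (γ₁ t)) t)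
    (h₂ : ∀ t ∈ Set.Icc a b, HasDerivAt γ₂ (v (γ₂ t)) t) (h : γ₁ t₀ = γ₂ t₀) :
    ∀ t ∈ Set.Icc a b, γ₁ t = γ₂ t := by
  have c₁ : ContinuousOn γ₁ (Icc a b) := fun t ht => (h₁ t ht).continuousAt.continuousWithinAt
  have c₂ : ContinuousOn γ₂ (Icc a b) := fun t ht => (h₂ t ht).continuousAt.continuousWithinAt
  obtain ⟨R₁, hR₁⟩ := isCompact_Icc.exists_bound_of_continuousOn c₁
  obtain ⟨R₂, hR₂⟩ := isCompact_Icc.exists_bound_of_continuousOn c₂
  obtain ⟨K, hK⟩ := lip_ball hv (max R₁ R₂)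
  have m₁ : ∀ t ∈ Icc a b, γ₁ t ∈ closedBall (0 : E) (max R₁ R₂) := fun t ht => by
    simpa using Or.inl (hR₁ t ht)
  have m₂ : ∀ t ∈ Icc a b, γ₂ t ∈ closedBall (0 : E) (max R₁ R₂) := fun t ht => by
    simpa using Or.inr (hR₂ t ht)
  intro t htt
  rcases le_total t t₀ with hle | hle
  · have hs : Icc a t₀ ⊆ Icc a b := Icc_subset_Icc_right ht.2
    have hs' : Ioc a t₀ ⊆ Icc a b := Ioc_subset_Icc_self.trans hs
    exact ODE_solution_unique_of_mem_Icc_left (v := fun _ => v)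
      (s := fun _ => closedBall (0 : E) (max R₁ R₂)) (K := K) (fun _ _ => hK)
      (c₁.mono hs) (fun s hss => (h₁ s (hs' hss)).hasDerivWithinAt) (fun s hss => m₁ s (hs' hss))
      (c₂.mono hs) (fun s hss => (h₂ s (hs' hss)).hasDerivWithinAt) (fun s hss => m₂ s (hs' hss))
      h ⟨htt.1, hle⟩
  · have hs : Icc t₀ b ⊆ Icc a b := Icc_subset_Icc_left ht.1
    have hs' : Ico t₀ b ⊆ Icc a b := Ico_subset_Icc_self.trans hs
    exact ODE_solution_unique_of_mem_Icc_right (v := fun _ => v)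
      (s := fun _ => closedBall (0 : E) (max R₁ R₂)) (K := K) (fun _ _ => hK)
      (c₁.mono hs) (fun s hss => (h₁ s (hs' hss)).hasDerivWithinAt) (fun s hss => m₁ s (hs' hss))
      (c₂.mono hs) (fun s hss => (h₂ s (hs' hss)).hasDerivWithinAt) (fun s hss => m₂ s (hs' hss))
      h ⟨hle, htt.2⟩

/-- global existence, on `[-T,T]` -/
theorem exists_sol {v : E → E} (hv : ContDiff ℝ 1 v) (ht : Tame v) (x : E) (T : ℝ) (hT : 0 ≤ T) :
    ∃ γ : ℝ → E, γ 0 = x ∧ ∀ t, |t| ≤ T → HasDerivAt γ (v (γ t)) t := by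
  obtain ⟨R, hR⟩ := ht ‖x‖ T
  have hR0 : 0 < max R 1 := lt_max_of_lt_right one_pos
  let χ : ContDiffBump (0 : E) := ⟨max R 1, max R 1 + 1, hR0, by linarith⟩
  have hχ : ContDiff ℝ 1 (fun x => χ x • v x) := (χ.contDiff (n := 1)).smul hv
  have hcs : HasCompactSupport (fun x => χ x • v x) := χ.hasCompactSupport.smul_right
  obtain ⟨K, hK⟩ := hχ.lipschitzWith_of_hasCompactSupport hcs one_ne_zero
  obtain ⟨C, hC⟩ := hcs.exists_bound_of_continuous hχ.continuous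
  have hC0 : 0 ≤ C := (norm_nonneg _).trans (hC 0)
  have hpl : IsPicardLindelof (fun _ x => χ x • v x) (tmin := -(T + 1)) (tmax := T + 1)
      ⟨0, by constructor <;> linarith⟩ x (Real.toNNReal (C * (T + 1))) 0 (Real.toNNReal C) K :=
    { lipschitzOnWith := fun t _ => hK.lipschitzOnWith
      continuousOn := fun x _ => continuousOn_const
      norm_le := fun t _ x _ => by rw [Real.coe_toNNReal _ hC0]; exact hC x
      mul_max_le := by
        rw [Real.coe_toNNReal _ hC0, Real.coe_toNNReal _ (by positivity)]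
        simp }
  obtain ⟨γ, hγ0, hγ⟩ := hpl.exists_eq_forall_mem_Icc_hasDerivWithinAt₀
  have hγ0' : γ 0 = x := hγ0
  have hd : ∀ t, |t| ≤ T → HasDerivAt γ (χ (γ t) • v (γ t)) t := by
    intro t htt
    obtain ⟨h1, h2⟩ := abs_le.1 htt
    exact (hγ t ⟨by linarith, by linarith⟩).hasDerivAt (Icc_mem_nhds (by linarith) (by linarith))
  have hb := hR (fun t => χ (γ t)) γ (fun t => ⟨χ.nonneg, χ.le_one⟩) (by rw [hγ0']) hd
  refine ⟨γ, hγ0', fun t htt => ?_⟩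
  have h1 := hd t htt
  have h2 : χ (γ t) = 1 := χ.one_of_mem_closedBall (by
    simpa [χ] using Or.inl (hb t htt))
  rwa [h2, one_smul] at h1

/-- global existence -/
theorem exists_flow {v : E → E} (hv : ContDiff ℝ 1 v) (ht : Tame v) :
    ∃ Φ : ℝ → E → E, (∀ x, Φ 0 x = x) ∧ ∀ x t, HasDerivAt (fun t => Φ t x) (v (Φ t x)) t := by
  choose γ hγ0 hγ using fun (x : E) (n : ℕ) => exists_sol hv ht x n (Nat.cast_nonneg n)
  have key : ∀ (x : E) (m n : ℕ), m ≤ n → ∀ t : ℝ, |t| ≤ m → γ x m t = γ x n t := by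
    intro x m n hmn t htt
    have hmn' : (m : ℝ) ≤ n := by exact_mod_cast hmn
    refine sol_unique hv (a := -m) (b := m) (t₀ := 0) (by simp)
      (fun s hs => hγ x m s (abs_le.2 hs))
      (fun s hs => hγ x n s ((abs_le.2 hs).trans hmn')) (by rw [hγ0, hγ0]) t (abs_le.1 htt)
  have key2 : ∀ (x : E) (n : ℕ) (t : ℝ), |t| ≤ n → γ x ⌈|t|⌉₊ t = γ x n t := fun x n t h =>
    key x _ n (Nat.ceil_le.2 h) t (Nat.le_ceil _)
  refine ⟨fun t x => γ x ⌈|t|⌉₊ t, fun x => hγ0 _ _, fun x t => ?_⟩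
  have h1 := hγ x (⌈|t|⌉₊ + 1) t ((Nat.le_ceil _).trans (by push_cast; linarith))
  have h2 : (fun s => γ x ⌈|s|⌉₊ s) =ᶠ[𝓝 t] γ x (⌈|t|⌉₊ + 1) := by
    have h3 : ∀ᶠ s in 𝓝 t, |s| < |t| + 1 :=
      (continuous_abs.tendsto t).eventually (gt_mem_nhds (by linarith))
    filter_upwards [h3] with s hs
    exact key2 x _ s (hs.le.trans (by push_cast; linarith [Nat.le_ceil |t|]))
  have h3 := h1.congr_of_eventuallyEq h2
  have h4 := key2 x (⌈|t|⌉₊ + 1) t ((Nat.le_ceil _).trans (by push_cast; linarith))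
  simpa only [h4] using h3


/-- quadratic error estimate for the linearised equation -/
lemma quad {v : E → E} (hv : ContDiff ℝ 2 v) (R T : ℝ) : ∃ C : ℝ, 0 ≤ C ∧
    ∀ γ₁ γ₂ w : ℝ → E, (∀ t, |t| ≤ T → HasDerivAt γ₁ (v (γ₁ t)) t) →
      (∀ t, |t| ≤ T → HasDerivAt γ₂ (v (γ₂ t)) t) →
      (∀ t, |t| ≤ T → HasDerivAt w (fderiv ℝ v (γ₁ t) (w t)) t) →
      (∀ t, |t| ≤ T → ‖γ₁ t‖ ≤ R) → (∀ t, |t| ≤ T → ‖γ₂ t‖ ≤ R) → w 0 = γ₂ 0 - γ₁ 0 →
      ∀ t, |t| ≤ T → ‖γ₂ t - γ₁ t‖ ≤ C * ‖γ₂ 0 - γ₁ 0‖ ∧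
        ‖γ₂ t - γ₁ t - w t‖ ≤ C * ‖γ₂ 0 - γ₁ 0‖ ^ 2 := by
  have hv1 : ContDiff ℝ 1 v := hv.of_le (by norm_num)
  have hdv : ContDiff ℝ 1 (fderiv ℝ v) := hv.fderiv_right (by norm_num)
  obtain ⟨K, hK⟩ := lip_ball hv1 R
  obtain ⟨L, hL⟩ := lip_ball hdv R
  obtain ⟨M, hM0, hM⟩ := bdd_ball hdv.continuous R
  set A : ℝ := Real.exp (K * T) with hA
  have hA0 : 0 ≤ A := (Real.exp_pos _).le
  refine ⟨max A (gronwallBound 0 M (L * A ^ 2) T), le_max_of_le_left hA0, ?_⟩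
  intro γ₁ γ₂ w h₁ h₂ hw b₁ b₂ hw0
  set δ := ‖γ₂ 0 - γ₁ 0‖ with hδ
  have hδ0 : 0 ≤ δ := norm_nonneg _
  have e1 : ∀ t, |t| ≤ T → ‖γ₂ t - γ₁ t‖ ≤ δ * A := by
    intro t htt
    have := gron (f := fun t => γ₂ t - γ₁ t) (f' := fun t => v (γ₂ t) - v (γ₁ t)) (K := K)
      (T := T) (δ := δ) (ε := 0) K.2 hδ0 le_rfl (fun s hs => (h₂ s hs).sub (h₁ s hs)) le_rfl
      (fun s hs => by
        rw [add_zero]
        have := hK.dist_le_mul _ (by simpa using b₂ s hs) _ (by simpa using b₁ s hs)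
        simpa [dist_eq_norm] using this) t htt
    rwa [gronwallBound_ε0] at this
  have e2 : ∀ t, |t| ≤ T →
      ‖v (γ₂ t) - v (γ₁ t) - fderiv ℝ v (γ₁ t) (γ₂ t - γ₁ t)‖ ≤ δ ^ 2 * (L * A ^ 2) := by
    intro t htt
    have hsub : segment ℝ (γ₁ t) (γ₂ t) ⊆ closedBall 0 R :=
      (convex_closedBall _ _).segment_subset (by simpa using b₁ t htt) (by simpa using b₂ t htt)
    have := (convex_segment (𝕜 := ℝ) (γ₁ t) (γ₂ t)).norm_image_sub_le_of_norm_fderiv_le'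
      (f := v) (𝕜 := ℝ) (φ := fderiv ℝ v (γ₁ t)) (C := L * ‖γ₂ t - γ₁ t‖)
      (fun x _ => (hv1.differentiable one_ne_zero) x)
      (fun x hx => by
        have h3 := hL.dist_le_mul _ (hsub hx) _ (by simpa using b₁ t htt)
        rw [dist_eq_norm, dist_eq_norm] at h3
        refine h3.trans (mul_le_mul_of_nonneg_left ?_ L.2)
        exact norm_sub_le_of_mem_segment hx)
      (left_mem_segment _ _ _) (right_mem_segment _ _ _)
    refine this.trans ?_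
    have h4 := e1 t htt
    calc (L : ℝ) * ‖γ₂ t - γ₁ t‖ * ‖γ₂ t - γ₁ t‖ ≤ L * (δ * A) * (δ * A) := by gcongr
      _ = _ := by ring
  intro t htt
  refine ⟨(e1 t htt).trans ?_, ?_⟩
  · rw [mul_comm]
    exact mul_le_mul_of_nonneg_right (le_max_left _ _) hδ0
  · have := gron (f := fun t => γ₂ t - γ₁ t - w t)
      (f' := fun t => v (γ₂ t) - v (γ₁ t) - fderiv ℝ v (γ₁ t) (w t)) (K := M)
      (T := T) (δ := 0) (ε := δ ^ 2 * (L * A ^ 2)) hM0 le_rfl (by positivity)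
      (fun s hs => ((h₂ s hs).sub (h₁ s hs)).sub (hw s hs)) (by simp [hw0])
      (fun s hs => by
        have h5 : v (γ₂ s) - v (γ₁ s) - fderiv ℝ v (γ₁ s) (w s)
            = fderiv ℝ v (γ₁ s) (γ₂ s - γ₁ s - w s)
              + (v (γ₂ s) - v (γ₁ s) - fderiv ℝ v (γ₁ s) (γ₂ s - γ₁ s)) := by
          rw [map_sub (fderiv ℝ v (γ₁ s)) (γ₂ s - γ₁ s) (w s)]; abel
        rw [h5]
        refine (norm_add_le _ _).trans (add_le_add ?_ (e2 s hs))
        exact (ContinuousLinearMap.le_opNorm _ _).trans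
          (mul_le_mul_of_nonneg_right (hM _ (b₁ s hs)) (norm_nonneg _))) t htt
    rw [gron_mul, mul_comm] at this
    exact this.trans (mul_le_mul_of_nonneg_right (le_max_right _ _) (by positivity))

lemma two_le_top : (2 : WithTop ℕ∞) ≤ ((⊤ : ℕ∞) : WithTop ℕ∞) :=
  WithTop.coe_le_coe.2 (le_top : (2 : ℕ∞) ≤ ⊤)

/-- the tangent vector field -/
noncomputable def tang (v : E → E) (p : E × E) : E × E := (v p.1, fderiv ℝ v p.1 p.2)

omit [FiniteDimensional ℝ E] in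
lemma tang_smooth {v : E → E} (hv : ContDiff ℝ (⊤ : ℕ∞) v) : ContDiff ℝ (⊤ : ℕ∞) (tang v) := by
  have h1 : ContDiff ℝ (⊤ : ℕ∞) (fderiv ℝ v) := hv.fderiv_right (by exact_mod_cast le_rfl)
  exact (hv.comp contDiff_fst).prodMk ((h1.comp contDiff_fst).clm_apply contDiff_snd)

lemma tang_tame {v : E → E} (hv : ContDiff ℝ 2 v) (ht : Tame v) : Tame (tang v) := by
  have hdv : ContDiff ℝ 1 (fderiv ℝ v) := hv.fderiv_right (by norm_num)
  intro r T
  obtain ⟨R, hR⟩ := ht r T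
  obtain ⟨M, hM0, hM⟩ := bdd_ball hdv.continuous R
  refine ⟨max R (gronwallBound (max r 0) M 0 T), ?_⟩
  intro a γ ha h0 hd t htt
  have hd1 : ∀ t, |t| ≤ T → HasDerivAt (fun t => (γ t).1) (a t • v (γ t).1) t := fun t htt =>
    (hd t htt).fst
  have hd2 : ∀ t, |t| ≤ T → HasDerivAt (fun t => (γ t).2) (a t • fderiv ℝ v (γ t).1 (γ t).2) t :=
    fun t htt => (hd t htt).snd
  have b1 := hR a (fun t => (γ t).1) ha ((norm_fst_le _).trans h0) hd1
  rw [Prod.norm_def]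
  refine max_le_max (b1 t htt) ?_
  refine gron (f := fun t => (γ t).2) (f' := fun t => a t • fderiv ℝ v (γ t).1 (γ t).2) hM0
    (le_max_right _ _) le_rfl hd2 (((norm_snd_le _).trans h0).trans (le_max_left _ _)) ?_ t htt
  intro s hs
  rw [add_zero, norm_smul, Real.norm_of_nonneg (ha s).1]
  calc a s * ‖fderiv ℝ v (γ s).1 (γ s).2‖ ≤ 1 * ‖fderiv ℝ v (γ s).1 (γ s).2‖ := by
        gcongr; exact (ha s).2
    _ ≤ M * ‖(γ s).2‖ := by
        rw [one_mul]
        exact (ContinuousLinearMap.le_opNorm _ _).trans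
          (mul_le_mul_of_nonneg_right (hM _ (b1 s hs)) (norm_nonneg _))

omit [FiniteDimensional ℝ E] in
/-- bounds along the flow of a tame field -/
lemma flow_bdd {v : E → E} (ht : Tame v) {Φ : ℝ → E → E}
    (h0 : ∀ x, Φ 0 x = x) (h1 : ∀ x t, HasDerivAt (fun t => Φ t x) (v (Φ t x)) t) (r T : ℝ) :
    ∃ R, ∀ x, ‖x‖ ≤ r → ∀ t, |t| ≤ T → ‖Φ t x‖ ≤ R := by
  obtain ⟨R, hR⟩ := ht r T
  refine ⟨R, fun x hx t htt => ?_⟩
  exact hR (fun _ => 1) (fun t => Φ t x) (fun _ => ⟨zero_le_one, le_rfl⟩) (by simpa [h0] using hx)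
    (fun s _ => by simpa using h1 x s) t htt

lemma flow_lip {v : E → E} (hv : ContDiff ℝ 1 v) (ht : Tame v) {Φ : ℝ → E → E}
    (h0 : ∀ x, Φ 0 x = x) (h1 : ∀ x t, HasDerivAt (fun t => Φ t x) (v (Φ t x)) t) (r T : ℝ) :
    ∃ L : ℝ, 0 ≤ L ∧ ∀ x y, ‖x‖ ≤ r → ‖y‖ ≤ r → ∀ t, |t| ≤ T → ‖Φ t x - Φ t y‖ ≤ L * ‖x - y‖ := by
  obtain ⟨R, hR⟩ := flow_bdd ht h0 h1 r T
  obtain ⟨K, hK⟩ := lip_ball hv R
  refine ⟨Real.exp (K * T), (Real.exp_pos _).le, fun x y hx hy t htt => ?_⟩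
  have := gron (f := fun t => Φ t x - Φ t y) (f' := fun t => v (Φ t x) - v (Φ t y)) (K := K)
      (T := T) (δ := ‖x - y‖) (ε := 0) K.2 (norm_nonneg _) le_rfl
      (fun s hs => (h1 x s).sub (h1 y s)) (by simp [h0])
      (fun s hs => by
        rw [add_zero]
        have := hK.dist_le_mul _ (by simpa using hR x hx s hs) _ (by simpa using hR y hy s hs)
        simpa [dist_eq_norm] using this) t htt
  rwa [gronwallBound_ε0, mul_comm] at this

lemma flow_cont {v : E → E} (hv : ContDiff ℝ 1 v) (ht : Tame v) {Φ : ℝ → E → E}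
    (h0 : ∀ x, Φ 0 x = x) (h1 : ∀ x t, HasDerivAt (fun t => Φ t x) (v (Φ t x)) t) :
    Continuous fun p : ℝ × E => Φ p.1 p.2 := by
  rw [continuous_iff_continuousAt]
  rintro ⟨t, x⟩
  obtain ⟨L, hL0, hL⟩ := flow_lip hv ht h0 h1 (‖x‖ + 1) (|t| + 1)
  rw [ContinuousAt, tendsto_iff_dist_tendsto_zero]
  have hb : ∀ᶠ p : ℝ × E in 𝓝 (t, x), dist (Φ p.1 p.2) (Φ t x)
      ≤ L * ‖p.2 - x‖ + dist (Φ p.1 x) (Φ t x) := by
    have e1 : ∀ᶠ p : ℝ × E in 𝓝 (t, x), ‖p.2‖ < ‖x‖ + 1 :=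
      (by fun_prop : Continuous fun p : ℝ × E => ‖p.2‖).tendsto (t, x) |>.eventually
        (gt_mem_nhds (by simp))
    have e2 : ∀ᶠ p : ℝ × E in 𝓝 (t, x), |p.1| < |t| + 1 :=
      (by fun_prop : Continuous fun p : ℝ × E => |p.1|).tendsto (t, x) |>.eventually
        (gt_mem_nhds (by simp))
    filter_upwards [e1, e2] with p hp1 hp2
    refine (dist_triangle _ (Φ p.1 x) _).trans (add_le_add ?_ le_rfl)
    rw [dist_eq_norm]
    exact hL _ _ hp1.le (by linarith) _ hp2.le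
  refine squeeze_zero' (Eventually.of_forall fun _ => dist_nonneg) hb ?_
  have c1 : Tendsto (fun p : ℝ × E => L * ‖p.2 - x‖) (𝓝 (t, x)) (𝓝 0) := by
    have := (by fun_prop : Continuous fun p : ℝ × E => L * ‖p.2 - x‖).tendsto (t, x)
    simpa using this
  have c2 : Tendsto (fun p : ℝ × E => dist (Φ p.1 x) (Φ t x)) (𝓝 (t, x)) (𝓝 0) := by
    have h3 : Tendsto (fun p : ℝ × E => Φ p.1 x) (𝓝 (t, x)) (𝓝 (Φ t x)) :=
      (h1 x t).continuousAt.tendsto.comp (continuous_fst.tendsto (t, x))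
    exact tendsto_iff_dist_tendsto_zero.1 h3
  simpa using c1.add c2

/-- first component of the tangent flow -/
lemma tang_fst {v : E → E} (hv : ContDiff ℝ 2 v) {Φ : ℝ → E → E}
    (h0 : ∀ x, Φ 0 x = x) (h1 : ∀ x t, HasDerivAt (fun t => Φ t x) (v (Φ t x)) t)
    {Ψ : ℝ → E × E → E × E} (k0 : ∀ x, Ψ 0 x = x)
    (k1 : ∀ x t, HasDerivAt (fun t => Ψ t x) (tang v (Ψ t x)) t) (x h : E) (t : ℝ) :
    (Ψ t (x, h)).1 = Φ t x := by
  have hv1 : ContDiff ℝ 1 v := hv.of_le (by norm_num)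
  refine sol_unique hv1 (a := -|t|) (b := |t|) (t₀ := 0) (by simp)
    (γ₁ := fun t => (Ψ t (x, h)).1) (γ₂ := fun t => Φ t x)
    (fun s _ => (k1 (x, h) s).fst) (fun s _ => h1 x s) (by simp [h0, k0]) t
    ⟨neg_abs_le t, le_abs_self t⟩

/-- the tangent flow is the derivative of the flow -/
lemma exists_clm {v : E → E} (hv : ContDiff ℝ (⊤ : ℕ∞) v) {Φ : ℝ → E → E}
    (h0 : ∀ x, Φ 0 x = x) (h1 : ∀ x t, HasDerivAt (fun t => Φ t x) (v (Φ t x)) t)
    {Ψ : ℝ → E × E → E × E} (k0 : ∀ x, Ψ 0 x = x)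
    (k1 : ∀ x t, HasDerivAt (fun t => Ψ t x) (tang v (Ψ t x)) t) :
    ∃ D : ℝ → E → E →L[ℝ] E, ∀ t x h, D t x h = (Ψ t (x, h)).2 := by
  have hv2 : ContDiff ℝ 2 v := hv.of_le two_le_top
  have htv : ContDiff ℝ 1 (tang v) := (tang_smooth hv).of_le (by exact_mod_cast le_top)
  have key : ∀ t x (a b : ℝ) (h k : E), (Ψ t (x, a • h + b • k)).2
      = a • (Ψ t (x, h)).2 + b • (Ψ t (x, k)).2 := by
    intro t x a b h k
    have := sol_unique htv (a := -|t|) (b := |t|) (t₀ := 0) (by simp)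
      (γ₁ := fun t => Ψ t (x, a • h + b • k))
      (γ₂ := fun t => (Φ t x, a • (Ψ t (x, h)).2 + b • (Ψ t (x, k)).2))
      (fun s _ => k1 _ s)
      (fun s _ => by
        have e1 : HasDerivAt (fun t => (Ψ t (x, h)).2)
          (fderiv ℝ v (Ψ s (x, h)).1 (Ψ s (x, h)).2) s := (k1 (x, h) s).snd
        have e2 : HasDerivAt (fun t => (Ψ t (x, k)).2)
          (fderiv ℝ v (Ψ s (x, k)).1 (Ψ s (x, k)).2) s := (k1 (x, k) s).snd
        rw [tang_fst hv2 h0 h1 k0 k1] at e1 e2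
        have e3 := (h1 x s).prodMk ((e1.const_smul a).add (e2.const_smul b))
        have e4 : tang v (Φ s x, a • (Ψ s (x, h)).2 + b • (Ψ s (x, k)).2)
            = (v (Φ s x), a • fderiv ℝ v (Φ s x) (Ψ s (x, h)).2
              + b • fderiv ℝ v (Φ s x) (Ψ s (x, k)).2) := by
          simp [tang]
        rw [e4]
        exact e3)
      (by simp [h0, k0]) t ⟨neg_abs_le t, le_abs_self t⟩
    simpa using congrArg Prod.snd this
  refine ⟨fun t x => LinearMap.toContinuousLinearMap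
    { toFun := fun h => (Ψ t (x, h)).2
      map_add' := fun h k => by simpa using key t x 1 1 h k
      map_smul' := fun a h => by simpa using key t x a 0 h 0 }, fun t x h => by simp⟩

lemma flow_hasFDerivAt {v : E → E} (hv : ContDiff ℝ (⊤ : ℕ∞) v) (ht : Tame v) {Φ : ℝ → E → E}
    (h0 : ∀ x, Φ 0 x = x) (h1 : ∀ x t, HasDerivAt (fun t => Φ t x) (v (Φ t x)) t)
    {Ψ : ℝ → E × E → E × E} (k0 : ∀ x, Ψ 0 x = x)
    (k1 : ∀ x t, HasDerivAt (fun t => Ψ t x) (tang v (Ψ t x)) t)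
    (D : ℝ → E → E →L[ℝ] E) (hD : ∀ t x h, D t x h = (Ψ t (x, h)).2) (t : ℝ) (x : E) :
    HasFDerivAt (Φ t) (D t x) x := by
  have hv2 : ContDiff ℝ 2 v := hv.of_le two_le_top
  obtain ⟨R, hR⟩ := flow_bdd ht h0 h1 (‖x‖ + 1) |t|
  obtain ⟨C, hC0, hC⟩ := quad hv2 R |t|
  have key : ∀ y, ‖y‖ ≤ ‖x‖ + 1 → ‖Φ t y - Φ t x - D t x (y - x)‖ ≤ C * ‖y - x‖ ^ 2 := by
    intro y hy
    have := (hC (fun t => Φ t x) (fun t => Φ t y) (fun t => (Ψ t (x, y - x)).2)
      (fun s _ => h1 x s) (fun s _ => h1 y s)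
      (fun s _ => by
        have := (k1 (x, y - x) s).snd
        simp only [tang] at this
        rwa [tang_fst hv2 h0 h1 k0 k1] at this)
      (fun s hs => hR x (by linarith) s hs) (fun s hs => hR y hy s hs) (by simp [h0, k0]) t
      le_rfl).2
    simpa [hD, h0] using this
  rw [hasFDerivAt_iff_isLittleO]
  have hO : (fun y => Φ t y - Φ t x - D t x (y - x)) =O[𝓝 x] fun y => ‖y - x‖ ^ 2 := by
    refine Asymptotics.IsBigO.of_bound C ?_
    have e1 : ∀ᶠ y : E in 𝓝 x, ‖y‖ < ‖x‖ + 1 :=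
      (continuous_norm.tendsto x).eventually (gt_mem_nhds (by simp))
    filter_upwards [e1] with y hy
    simpa using key y hy.le
  refine hO.trans_isLittleO ?_
  have := (Asymptotics.isLittleO_norm_pow_id (E' := E) one_lt_two)
  have h5 : Tendsto (fun y : E => y - x) (𝓝 x) (𝓝 0) := by
    have h6 : Continuous fun y : E => y - x := by fun_prop
    simpa using h6.tendsto x
  exact this.comp_tendsto h5

lemma contDiff_flow_nat (n : ℕ) : ∀ (E : Type) [NormedAddCommGroup E] [NormedSpace ℝ E]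
    [FiniteDimensional ℝ E] (v : E → E) (_ : ContDiff ℝ (⊤ : ℕ∞) v) (_ : Tame v) (Φ : ℝ → E → E)
    (_ : ∀ x, Φ 0 x = x) (_ : ∀ x t, HasDerivAt (fun t => Φ t x) (v (Φ t x)) t),
    ContDiff ℝ n fun p : ℝ × E => Φ p.1 p.2 := by
  induction n with
  | zero =>
    intro E _ _ _ v hv ht Φ h0 h1
    rw [Nat.cast_zero, contDiff_zero]
    exact flow_cont (hv.of_le (by exact_mod_cast le_top)) ht h0 h1
  | succ n ih =>
    intro E _ _ _ v hv ht Φ h0 h1
    have hv2 : ContDiff ℝ 2 v := hv.of_le two_le_top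
    have htv := tang_smooth hv
    have htt := tang_tame hv2 ht
    obtain ⟨Ψ, k0, k1⟩ := exists_flow (htv.of_le (by exact_mod_cast le_top)) htt
    obtain ⟨D, hD⟩ := exists_clm hv h0 h1 k0 k1
    have i1 := ih E v hv ht Φ h0 h1
    have i2 := ih (E × E) (tang v) htv htt Ψ k0 k1
    have hvn : ContDiff ℝ n v := hv.of_le (by exact_mod_cast le_top)
    have cD : ∀ h, Continuous fun p : ℝ × E => D p.1 p.2 h := fun h => by
      have h2 : Continuous fun p : ℝ × E => (Ψ p.1 (p.2, h)).2 :=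
        continuous_snd.comp (i2.continuous.comp
          (by fun_prop : Continuous fun p : ℝ × E => (p.1, (p.2, h))))
      simpa only [hD] using h2
    have cD' : Continuous fun p : ℝ × E => D p.1 p.2 := continuous_clm_apply.2 cD
    rw [Nat.cast_succ, contDiff_succ_iff_hasFDerivAt]
    refine ⟨fun p => (ContinuousLinearMap.toSpanSingleton ℝ (v (Φ p.1 p.2))).coprod (D p.1 p.2),
      ?_, ?_⟩
    · rw [contDiff_clm_apply_iff]
      rintro ⟨τ, h⟩
      have j1 : ContDiff ℝ n fun p : ℝ × E => τ • v (Φ p.1 p.2) := (hvn.comp i1).const_smul τ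
      have j2 : ContDiff ℝ n fun p : ℝ × E => (Ψ p.1 (p.2, h)).2 :=
        contDiff_snd.comp (i2.comp
          (by fun_prop : ContDiff ℝ n fun p : ℝ × E => (p.1, (p.2, h))))
      have j3 := j1.add j2
      simpa [hD] using j3
    · intro p
      have := hasStrictFDerivAt_uncurry_coprod (𝕜 := ℝ) (u := p) (f := Φ)
        (f₁ := fun t x => ContinuousLinearMap.toSpanSingleton ℝ (v (Φ t x))) (f₂ := D)
        (Eventually.of_forall fun q => (h1 q.2 q.1).hasFDerivAt)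
        (Eventually.of_forall fun q => flow_hasFDerivAt hv ht h0 h1 k0 k1 D hD q.1 q.2)
        (by
          refine Continuous.continuousAt (f := fun p : ℝ × E =>
            ContinuousLinearMap.toSpanSingleton ℝ (v (Φ p.1 p.2))) ?_
          refine continuous_clm_apply.2 fun y => ?_
          have h3 : Continuous fun p : ℝ × E => y • v (Φ p.1 p.2) :=
            (hvn.continuous.comp i1.continuous).const_smul y
          simpa using h3)
        cD'.continuousAt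
      exact this.hasFDerivAt


section Type0

variable {E : Type} [NormedAddCommGroup E] [NormedSpace ℝ E] [FiniteDimensional ℝ E]

/-- smooth dependence on time and initial point -/
theorem contDiff_flow {v : E → E} (hv : ContDiff ℝ (⊤ : ℕ∞) v) (ht : Tame v) {Φ : ℝ → E → E}
    (h0 : ∀ x, Φ 0 x = x) (h1 : ∀ x t, HasDerivAt (fun t => Φ t x) (v (Φ t x)) t) :
    ContDiff ℝ (⊤ : ℕ∞) fun p : ℝ × E => Φ p.1 p.2 := by
  rw [contDiff_infty]
  exact fun n => contDiff_flow_nat n E v hv ht Φ h0 h1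

/-- the derivative of the flow solves the variational equation; no tameness needed -/
theorem fderiv_flow {v : E → E} (hv : ContDiff ℝ (⊤ : ℕ∞) v) {Φ : ℝ → E → E}
    (h0 : ∀ x, Φ 0 x = x) (h1 : ∀ x t, HasDerivAt (fun t => Φ t x) (v (Φ t x)) t)
    (hΦ : ContDiff ℝ (⊤ : ℕ∞) fun p : ℝ × E => Φ p.1 p.2) (x : E) (w : ℝ → E)
    (hw : ∀ t, HasDerivAt w (fderiv ℝ v (Φ t x) (w t)) t) (t : ℝ) :
    fderiv ℝ (Φ t) x (w 0) = w t := by
  have hv2 : ContDiff ℝ 2 v := hv.of_le two_le_top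
  have : ProperSpace E := FiniteDimensional.proper_real E
  -- bound on the compact set |s| ≤ |t|, ‖y‖ ≤ ‖x‖ + ‖w 0‖
  obtain ⟨R, hR⟩ := ((isCompact_Icc (a := -|t|) (b := |t|)).prod
    (isCompact_closedBall (0 : E) (‖x‖ + ‖w 0‖))).exists_bound_of_continuousOn
    (f := fun p : ℝ × E => Φ p.1 p.2) hΦ.continuous.continuousOn
  have hR' : ∀ s y, |s| ≤ |t| → ‖y‖ ≤ ‖x‖ + ‖w 0‖ → ‖Φ s y‖ ≤ R := fun s y hs hy =>
    hR (s, y) ⟨abs_le.1 hs, by simpa using hy⟩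
  obtain ⟨C, hC0, hC⟩ := quad hv2 R |t|
  have key : ∀ a : ℝ, |a| ≤ 1 → ‖Φ t (x + a • w 0) - Φ t x - a • w t‖
      ≤ C * (|a| * ‖w 0‖) ^ 2 := by
    intro a ha
    have hy : ‖x + a • w 0‖ ≤ ‖x‖ + ‖w 0‖ := by
      refine (norm_add_le _ _).trans (add_le_add le_rfl ?_)
      rw [norm_smul, Real.norm_eq_abs]
      exact mul_le_of_le_one_left (norm_nonneg _) ha
    have := (hC (fun s => Φ s x) (fun s => Φ s (x + a • w 0)) (fun s => a • w s)
      (fun s _ => h1 x s) (fun s _ => h1 _ s)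
      (fun s _ => by
        rw [map_smul]
        exact (hw s).const_smul a)
      (fun s hs => hR' s x hs (by linarith [norm_nonneg (w 0)])) (fun s hs => hR' s _ hs hy)
      (by simp [h0]) t le_rfl).2
    simpa [h0, norm_smul] using this
  have hd : HasFDerivAt (Φ t) (fderiv ℝ (Φ t) x) x := by
    have h2 : ContDiff ℝ (⊤ : ℕ∞) (Φ t) :=
      hΦ.comp (by fun_prop : ContDiff ℝ (⊤ : ℕ∞) fun y : E => (t, y))
    exact (h2.differentiable (by simp) x).hasFDerivAt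
  have hd1 : HasDerivAt (fun a : ℝ => Φ t (x + a • w 0)) (fderiv ℝ (Φ t) x (w 0)) 0 := by
    have h3 : HasDerivAt (fun a : ℝ => x + a • w 0) (w 0) 0 := by
      simpa using ((hasDerivAt_id (0 : ℝ)).smul_const (w 0)).const_add x
    have h4 : HasFDerivAt (Φ t) (fderiv ℝ (Φ t) x) (x + (0 : ℝ) • w 0) := by simpa using hd
    exact h4.comp_hasDerivAt 0 h3
  have hd2 : HasDerivAt (fun a : ℝ => Φ t (x + a • w 0)) (w t) 0 := by
    rw [hasDerivAt_iff_isLittleO]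
    have hO : (fun a : ℝ => Φ t (x + a • w 0) - Φ t (x + (0 : ℝ) • w 0) - (a - 0) • w t)
        =O[𝓝 0] fun a => ‖a‖ ^ 2 := by
      refine Asymptotics.IsBigO.of_bound (C * ‖w 0‖ ^ 2) ?_
      have e1 : ∀ᶠ a : ℝ in 𝓝 0, |a| < 1 :=
        (continuous_abs.tendsto (0 : ℝ)).eventually (gt_mem_nhds (by simp))
      filter_upwards [e1] with a ha
      have := key a ha.le
      simp only [zero_smul, add_zero, sub_zero, norm_pow, Real.norm_eq_abs, abs_abs]
      refine this.trans (le_of_eq (by ring))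
    refine hO.trans_isLittleO ?_
    simpa using (Asymptotics.isLittleO_norm_pow_id (E' := ℝ) one_lt_two)
  exact hd1.unique hd2

end Type0

end H65.Flat.ODE
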