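import Pool.Agent.H65.Flat.Geo
import Pool.Agent.H88.Flat.WidthDecay

/-! # Tubes: basic facts, the two near-flat estimates, and the decay step -/

namespace H65.Flat

open MeasureTheory Set Filter
open scoped ENNReal Topology

variable (G : Geo)

theorem Geo.Kc_eq (u : T) (t y : ℝ) :
    G.Kc u t y = G.K (G.Φ y (rot (Real.pi / 2) (G.Φ t u))) := by
  unfold Geo.Kc Psi
  rw [G.K_rot]

/-- `Geo` gives the data of the near-flat layer -/
theorem Geo.preGeo : NearFlat.PreGeo G.Φ rot G.K G.Gc G.Gc1 where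
  rot_zero v := by unfold rot; simp
  rot_rot a b v := by unfold rot; simp only [Prod.mk.injEq, true_and]; ring
  flow_zero := G.flow_zero
  K_rot := G.K_rot
  fermi u :=
    { G0 := fun t => G.J_zero _
      G10 := fun t => G.J1_zero _
      dG := fun t y => G.J_deriv _ y
      dG1 := fun t y => by
        have h := G.J1_deriv (rot (Real.pi / 2) (G.Φ t u)) y
        have e : G.K (NearFlat.psi G.Φ rot u t y 0) = G.K (G.Φ y (rot (Real.pi / 2) (G.Φ t u))) :=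
          G.K_rot _ _
        rw [e]
        exact h
      Kneg := fun t y => G.K_nonpos _ }
  chart_sol u t0 y0 φ0 := by
    obtain ⟨t, y, φ, h1, h2, h3, h4, h5⟩ := G.chart_sol u (t0, y0, φ0)
    exact ⟨t, y, φ, ⟨fun s => (h4 s).1, fun s => (h4 s).2.1, fun s => (h4 s).2.2⟩, h1, h2, h3, h5⟩

theorem rot_cont (a : ℝ) : Continuous (rot a) := by unfold rot; fun_prop

theorem Geo.flow_cont' (t : ℝ) : Continuous (G.Φ t) :=
  G.flow_cont.comp (continuous_const.prodMk continuous_id)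

theorem Geo.K_psi_cont :
    Continuous fun p : T × ℝ × ℝ => G.K (NearFlat.psi G.Φ rot p.1 p.2.1 p.2.2 0) := by
  refine G.K_cont.comp ?_
  unfold NearFlat.psi
  refine (rot_cont _).comp ?_
  refine G.flow_cont.comp (continuous_snd.snd.prodMk ?_)
  exact (rot_cont _).comp (G.flow_cont.comp (continuous_snd.fst.prodMk continuous_fst))

/-- the deck maps as a set of functions -/
def Geo.Dk : Set (T → T) := {f | ∃ τ ∈ G.Λ, f = τ}

theorem Geo.hole : ∃ D c : ℝ, 0 < D ∧ 0 < c ∧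
    ∀ u, ∃ t y, |t| ≤ D ∧ |y| ≤ D ∧ c ≤ -G.K (NearFlat.psi G.Φ rot u t y 0) := by
  obtain ⟨C, hC, hcov⟩ := G.Λ_cocompact
  refine NearFlat.exists_hole G.K_psi_cont (Dk := G.Dk) hC (fun u => ?_) ?_ ?_ ?_ (fun u => ?_)
  · obtain ⟨τ, h1, h2⟩ := hcov u
    exact ⟨τ, ⟨τ, h1, rfl⟩, h2⟩
  · rintro _ ⟨τ, h1, rfl⟩ t v; exact G.Λ_flow τ h1 t v
  · rintro _ ⟨τ, h1, rfl⟩ a v; exact G.Λ_rot τ h1 a v
  · rintro _ ⟨τ, h1, rfl⟩ v; exact G.Λ_K τ h1 v
  · obtain ⟨v, hv⟩ := G.K_ne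
    refine ⟨(G.inv u v).1, (G.inv u v).2.1, ?_⟩
    have e : G.K (NearFlat.psi G.Φ rot u (G.inv u v).1 (G.inv u v).2.1 0) = G.K v := by
      rw [G.preGeo.K_psi u _ _ 0 (G.inv u v).2.2]
      exact congrArg G.K (G.inv_right u v)
    rw [e]
    exact lt_of_le_of_ne (G.K_nonpos v) hv

theorem Geo.tube_iff (u : T) (n r : ℝ) : G.Tube u n r ↔ NearFlat.Tube G.Φ rot G.K u n r := Iff.rfl

/-- hole density, all large scales, explicit form -/
theorem Geo.hole_bound : ∃ n0 D c : ℝ, 100 ≤ n0 ∧ 0 < D ∧ D ≤ n0 ∧ 0 < c ∧ c⁻¹ ≤ n0 ∧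
    (∀ u, ∃ t y, |t| ≤ D ∧ |y| ≤ D ∧ c ≤ -G.K (NearFlat.psi G.Φ rot u t y 0)) ∧
    ∀ n ≥ n0, ∀ u r, G.Tube u n r → r ≤ D := by
  obtain ⟨D, c, hD, hc, hole⟩ := G.hole
  refine ⟨max 100 (max D c⁻¹), D, c, le_max_left _ _, hD,
    (le_max_left _ _).trans (le_max_right _ _), hc, (le_max_right _ _).trans (le_max_right _ _),
    hole, fun n hn u r h => ?_⟩
  have h1 : 100 ≤ n := (le_max_left _ _).trans hn
  have h2 : D ≤ n := ((le_max_left _ _).trans (le_max_right _ _)).trans hn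
  have h3 : c⁻¹ ≤ n := ((le_max_right _ _).trans (le_max_right _ _)).trans hn
  exact NearFlat.Tube.le_of_hole hc h2 (by linarith) h3 (hole u) h

/-- hole density: the tube width is bounded at all large scales -/
theorem Geo.tube_bound : ∃ n0 D : ℝ, 1 ≤ n0 ∧ 0 < D ∧
    ∀ n ≥ n0, ∀ u r, 0 ≤ r → G.Tube u n r → r ≤ D := by
  obtain ⟨n0, D, c, h1, h2, -, -, -, -, h3⟩ := G.hole_bound
  exact ⟨n0, D, by linarith, h2, fun n hn u r _ h => h3 n hn u r h⟩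

theorem Geo.w_nonneg (n : ℝ) (u : T) : 0 ≤ G.w n u :=
  Real.sSup_nonneg fun _ h => h.1

theorem Geo.w_deck {τ : Equiv.Perm T} (hτ : τ ∈ G.Λ) (n : ℝ) (u : T) :
    G.w n (τ u) = G.w n u := by
  unfold Geo.w
  congr 1
  ext r
  simp only [mem_ofPred_eq, Geo.tube_iff]
  rw [NearFlat.tube_deck (τ := τ) (G.Λ_flow τ hτ) (G.Λ_rot τ hτ) (G.Λ_K τ hτ)]

section bounded

variable {G} {n D : ℝ}

theorem Geo.le_w (hb : ∀ u r, G.Tube u n r → r ≤ D) {u : T} {r : ℝ} (hr : 0 ≤ r)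
    (h : G.Tube u n r) : r ≤ G.w n u :=
  le_csSup ⟨D, fun _ hx => hb u _ hx.2⟩ ⟨hr, h⟩

theorem Geo.tube_zero (n : ℝ) (u : T) : G.Tube u n 0 := fun _ y _ hy =>
  absurd hy (not_lt.2 (abs_nonneg y))

theorem Geo.tube_w (u : T) : G.Tube u n (G.w n u) := by
  intro t y ht hy
  have hne : {r | 0 ≤ r ∧ G.Tube u n r}.Nonempty := ⟨0, le_rfl, Geo.tube_zero n u⟩
  obtain ⟨r, hr, hyr⟩ := exists_lt_of_lt_csSup hne hy
  exact hr.2 t y ht hyr

theorem Geo.w_le (hD : 0 ≤ D) (hb : ∀ u r, G.Tube u n r → r ≤ D) (u : T) : G.w n u ≤ D :=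
  Real.sSup_le (fun _ h => hb u _ h.2) hD

/-- the real width and the extended width agree at large scales -/
theorem Geo.width_eq (hb : ∀ u r, G.Tube u n r → r ≤ D) (u : T) :
    NearFlat.width G.Φ rot G.K n u = ENNReal.ofReal (G.w n u) := by
  apply le_antisymm
  · refine iSup₂_le fun r hr => ?_
    rcases le_total 0 r with h0 | h0
    · exact ENNReal.ofReal_le_ofReal (Geo.le_w hb h0 hr)
    · rw [ENNReal.ofReal_of_nonpos h0]; exact zero_le
  · exact NearFlat.Tube.le_width (Geo.tube_w u)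

theorem Geo.w_measurable (hb : ∀ u r, G.Tube u n r → r ≤ D) : Measurable (G.w n) := by
  have h : G.w n = fun u => (NearFlat.width G.Φ rot G.K n u).toReal := by
    ext u
    rw [Geo.width_eq hb, ENNReal.toReal_ofReal (G.w_nonneg n u)]
  rw [h]
  exact (NearFlat.width_measurable G.K_psi_cont n).ennreal_toReal

end bounded

/-- all facts used later, for scales `n ≥ n0` -/
theorem Geo.w_facts : ∃ n0 D : ℝ, 1 ≤ n0 ∧ 0 < D ∧
    (∀ n ≥ n0, ∀ u, G.w n u ≤ D) ∧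
    (∀ n ≥ n0, ∀ u, G.Tube u n (G.w n u)) ∧
    (∀ n ≥ n0, ∀ u r, 0 ≤ r → G.Tube u n r → r ≤ G.w n u) ∧
    (∀ m n, n0 ≤ m → m ≤ n → ∀ u, G.w n u ≤ G.w m u) ∧
    (∀ n ≥ n0, Measurable (G.w n)) ∧
    (∀ τ ∈ G.Λ, ∀ n u, G.w n (τ u) = G.w n u) ∧
    (∀ m ≥ n0, ∀ u ω, 0 < ω → ω ≤ G.w (2 * m) u →
      0.98 * ω ≤ G.w m (rot (0.8 * ω / (100 * m)) u)) ∧
    (∀ m ≥ n0, ∀ u ω, 0 < ω → 0.95 * ω ≤ G.w (10 ^ 4 * m) u →
      0.95 * ω ≤ G.w (10 ^ 4 * m) (rot (0.8 * ω / (100 * m)) u) →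
      1.3 * ω ≤ G.w m (shiftS G.Φ (0.4 * ω) (G.Φ (100 * m) u))) := by
  obtain ⟨n0, D, c, h100, hD, hDn, -, -, -, hb⟩ := G.hole_bound
  have hmono : ∀ m n, n0 ≤ m → m ≤ n → ∀ u, G.w n u ≤ G.w m u := fun m n hm hmn u =>
    Geo.le_w (hb m hm) (G.w_nonneg n u)
      (((G.tube_iff _ _ _).1 (Geo.tube_w u)).mono_n (by linarith) hmn)
  refine ⟨2 * n0, D, by linarith, hD, fun n hn u => Geo.w_le hD.le (hb n (by linarith)) u,
    fun n _ u => Geo.tube_w u, fun n hn u r hr h => Geo.le_w (hb n (by linarith)) hr h,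
    fun m n hm hmn u => hmono m n (by linarith) hmn u,
    fun n hn => Geo.w_measurable (hb n (by linarith)), fun τ hτ n u => G.w_deck hτ n u, ?_, ?_⟩
  · intro m hm u ω hω hu
    have hm0 : n0 ≤ m := by linarith
    have hωD : ω ≤ D := hu.trans (Geo.w_le hD.le (hb _ (by linarith)) u)
    have h1 : NearFlat.Tube G.Φ rot G.K u (2 * m) ω := ((G.tube_iff _ _ _).1 (Geo.tube_w u)).mono_r hu
    have h2 := G.preGeo.RC (by linarith) hω (by linarith) h1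
    rw [show (0.98 : ℝ) * ω = 98 / 100 * ω by norm_num,
      show (0.8 : ℝ) * ω / (100 * m) = 8 / 10 * ω / (100 * m) by norm_num]
    exact Geo.le_w (hb m hm0) (by positivity) h2
  · intro m hm u ω hω hu hu'
    have hm0 : n0 ≤ m := by linarith
    rw [show (10 : ℝ) ^ 4 = 10000 by norm_num] at hu hu'
    rw [show (0.8 : ℝ) * ω / (100 * m) = 8 / 10 * ω / (100 * m) by norm_num] at hu'
    have hωD : 0.95 * ω ≤ D := hu.trans (Geo.w_le hD.le (hb _ (by linarith)) u)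
    have hωm : ω ≤ m := by
      norm_num at hωD
      linarith
    have h1 : NearFlat.Tube G.Φ rot G.K u (10000 * m) (95 / 100 * ω) :=
      ((G.tube_iff _ _ _).1 (Geo.tube_w u)).mono_r (by norm_num at hu ⊢; linarith)
    have h1' : NearFlat.Tube G.Φ rot G.K (rot (8 / 10 * ω / (100 * m)) u) (10000 * m)
        (95 / 100 * ω) :=
      ((G.tube_iff _ _ _).1 (Geo.tube_w _)).mono_r (by norm_num at hu' ⊢; linarith)
    have h2 := G.preGeo.GC (by linarith) hω hωm h1 h1'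
    rw [show (1.3 : ℝ) * ω = 13 / 10 * ω by norm_num, show (0.4 : ℝ) * ω = 4 / 10 * ω by norm_num]
    exact Geo.le_w (hb m hm0) (by positivity) h2

/-- Step 3, the decay of `Z(n) = ∫_{T/Λ} w(u;n)^20 dμ` (`Geo.Z_decay` in `NonPer.lean`) -/
theorem Geo.Z_decay_aux : ∃ n0 : ℝ, 1 ≤ n0 ∧
    ∀ m ≥ n0, ∫⁻ v in G.D, ENNReal.ofReal (G.w (10 ^ 4 * m) v ^ 20) ∂G.μ ≤
      ENNReal.ofReal 0.999 * ∫⁻ v in G.D, ENNReal.ofReal (G.w m v ^ 20) ∂G.μ := by
  obtain ⟨n0, D, c, h100, hD, hDn, hc, hcn, hole, hb⟩ := G.hole_bound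
  refine ⟨n0, by linarith, fun m hm => ?_⟩
  have hfin : IsFiniteMeasure (G.μ.restrict G.D) :=
    ⟨by rw [Measure.restrict_apply MeasurableSet.univ, univ_inter]; exact G.D_fin⟩
  have key := NearFlat.width_step G.preGeo G.K_psi_cont G.Dk (G.μ.restrict G.D)
    (by rintro _ ⟨τ, h1, rfl⟩ t v; exact G.Λ_flow τ h1 t v)
    (by rintro _ ⟨τ, h1, rfl⟩ a v; exact G.Λ_rot τ h1 a v)
    (by rintro _ ⟨τ, h1, rfl⟩ v; exact G.Λ_K τ h1 v)
    (fun t => (G.flow_cont' t).measurable) (fun a => (rot_cont a).measurable)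
    (fun t F hF hi => G.M_flow t F hF (fun τ hτ v => hi τ ⟨τ, hτ, rfl⟩ v))
    (fun a F hF hi => G.M_rot a F hF (fun τ hτ v => hi τ ⟨τ, hτ, rfl⟩ v))
    hD hc hole (k := m) (by linarith) (by linarith) (by linarith)
  have e : ∀ x, n0 ≤ x → ∀ u, NearFlat.width G.Φ rot G.K x u ^ 20 =
      ENNReal.ofReal (G.w x u ^ 20) := fun x hx u => by
    rw [Geo.width_eq (hb x hx), ENNReal.ofReal_pow (G.w_nonneg x u)]
  have e4 : (10 : ℝ) ^ 4 * m = 10000 * m := by norm_num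
  rw [e4]
  simp only [e _ hm, e (10000 * m) (by linarith)] at key
  refine key.trans ?_
  gcongr
  norm_num

end H65.Flat
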