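import Mathlib

/-! # Commuting hyperbolic elements have comparable displacement -/

namespace H65.Flat

open scoped UpperHalfPlane MatrixGroups

/-- `g` acts nontrivially on `ℍ` -/
def Nontriv (g : SL(2, ℝ)) : Prop := ∃ z : ℍ, g • z ≠ z

/-- one step of the commutation chain inside `Γ` -/
def Comm1 (Γ : Subgroup SL(2, ℝ)) (a b : SL(2, ℝ)) : Prop :=
  a ∈ Γ ∧ b ∈ Γ ∧ Nontriv a ∧ Nontriv b ∧ ∀ z : ℍ, a • b • z = b • a • z

namespace Axis

/-- the quadratic polynomial vanishing at the fixed points of `g` -/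
noncomputable def axQ (g : SL(2, ℝ)) (z : ℍ) : ℂ :=
  (g 1 0 : ℂ) * (z : ℂ) ^ 2 + ((g 1 1 : ℂ) - (g 0 0 : ℂ)) * (z : ℂ) - (g 0 1 : ℂ)

/-- `sinh` of half the displacement -/
noncomputable def D (g : SL(2, ℝ)) (z : ℍ) : ℝ := Real.sinh (dist z (g • z) / 2)

theorem den_ne (g : SL(2, ℝ)) (z : ℍ) : (g 1 0 : ℂ) * (z : ℂ) + (g 1 1 : ℂ) ≠ 0 := by
  have hdet : g 0 0 * g 1 1 - g 0 1 * g 1 0 = 1 := by
    have := g.det_coe
    rwa [Matrix.det_fin_two] at this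
  intro h
  have h1 := congrArg Complex.re h
  have h2 := congrArg Complex.im h
  simp at h1 h2
  have hz := z.im_pos
  rcases h2 with h2 | h2
  · rw [h2] at h1 hdet
    simp at h1
    rw [h1] at hdet
    simp at hdet
  · exact absurd h2 hz.ne'

theorem coe_smul' (g : SL(2, ℝ)) (z : ℍ) :
    ((g • z : ℍ) : ℂ) = ((g 0 0 : ℂ) * z + (g 0 1 : ℂ)) / ((g 1 0 : ℂ) * z + (g 1 1 : ℂ)) := by
  rw [UpperHalfPlane.coe_specialLinearGroup_apply]
  rfl

theorem im_smul' (g : SL(2, ℝ)) (z : ℍ) :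
    (g • z : ℍ).im = z.im / ‖(g 1 0 : ℂ) * z + (g 1 1 : ℂ)‖ ^ 2 := by
  have hdet : g 0 0 * g 1 1 - g 0 1 * g 1 0 = 1 := by
    have := g.det_coe
    rwa [Matrix.det_fin_two] at this
  have h : (g • z : ℍ).im = ((g • z : ℍ) : ℂ).im := rfl
  rw [h, coe_smul', Complex.div_im, ← Complex.normSq_eq_norm_sq, ← sub_div]
  congr 1
  simp
  linear_combination z.im * hdet

theorem D_eq (g : SL(2, ℝ)) (z : ℍ) : D g z = ‖axQ g z‖ / (2 * z.im) := by
  unfold D
  rw [UpperHalfPlane.sinh_half_dist, im_smul', coe_smul', Complex.dist_eq]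
  have hne := den_ne g z
  have hn : 0 < ‖(g 1 0 : ℂ) * z + (g 1 1 : ℂ)‖ := norm_pos_iff.mpr hne
  have hz := z.im_pos
  have e1 : (z : ℂ) - ((g 0 0 : ℂ) * z + (g 0 1 : ℂ)) / ((g 1 0 : ℂ) * z + (g 1 1 : ℂ))
      = axQ g z / ((g 1 0 : ℂ) * z + (g 1 1 : ℂ)) := by
    unfold axQ
    rw [eq_div_iff hne, sub_mul, div_mul_cancel₀ _ hne]
    ring
  have e2 : √(z.im * (z.im / ‖(g 1 0 : ℂ) * z + (g 1 1 : ℂ)‖ ^ 2))
      = z.im / ‖(g 1 0 : ℂ) * z + (g 1 1 : ℂ)‖ := by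
    have : z.im * (z.im / ‖(g 1 0 : ℂ) * z + (g 1 1 : ℂ)‖ ^ 2)
        = (z.im / ‖(g 1 0 : ℂ) * z + (g 1 1 : ℂ)‖) ^ 2 := by
      field_simp
    rw [this, Real.sqrt_sq (by positivity)]
  rw [e1, e2, norm_div]
  field_simp

theorem D_nonneg (g : SL(2, ℝ)) (z : ℍ) : 0 ≤ D g z := by
  unfold D
  exact Real.sinh_nonneg_iff.mpr (by positivity)

/-- entries of an element acting trivially -/
theorem triv_entries (g : SL(2, ℝ)) (h : ∀ z : ℍ, g • z = z) :
    g 1 0 = 0 ∧ g 0 1 = 0 ∧ g 1 1 = g 0 0 := by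
  have key : ∀ z : ℍ, axQ g z = 0 := by
    intro z
    have h1 : D g z = 0 := by
      unfold D
      rw [h z]
      simp
    rw [D_eq] at h1
    have hz := z.im_pos
    have : ‖axQ g z‖ = 0 := by
      rcases div_eq_zero_iff.mp h1 with h2 | h2
      · exact h2
      · exact absurd h2 (by positivity)
    exact norm_eq_zero.mp this
  have k1 := key ⟨Complex.I, by simp⟩
  have k2 := key ⟨2 * Complex.I, by simp⟩
  unfold axQ at k1 k2
  have a1 := congrArg Complex.re k1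
  have a2 := congrArg Complex.im k1
  have b1 := congrArg Complex.re k2
  simp [pow_two] at a1 a2 b1
  refine ⟨?_, ?_, ?_⟩
  · linarith
  · linarith
  · linarith

/-- two elements acting in the same way differ by a sign -/
theorem same_act (M N : SL(2, ℝ)) (h : ∀ z : ℍ, M • z = N • z) :
    ∃ e : ℝ, (e = 1 ∨ e = -1) ∧ ∀ i j, M i j = e * N i j := by
  have h1 : ∀ z : ℍ, (N⁻¹ * M) • z = z := by
    intro z
    rw [mul_smul, h z, inv_smul_smul]
  obtain ⟨e1, e2, e3⟩ := triv_entries _ h1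
  have hdet : (N⁻¹ * M) 0 0 * (N⁻¹ * M) 1 1 - (N⁻¹ * M) 0 1 * (N⁻¹ * M) 1 0 = 1 := by
    have := (N⁻¹ * M).det_coe
    rwa [Matrix.det_fin_two] at this
  rw [e1, e3] at hdet
  refine ⟨(N⁻¹ * M) 0 0, ?_, ?_⟩
  · have : ((N⁻¹ * M) 0 0 - 1) * ((N⁻¹ * M) 0 0 + 1) = 0 := by linear_combination hdet
    rcases mul_eq_zero.mp this with h2 | h2
    · left; linarith
    · right; linarith
  · have hM : M = N * (N⁻¹ * M) := by group
    set P := N⁻¹ * M with hP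
    intro i j
    have hMij : M i j = N i 0 * P 0 j + N i 1 * P 1 j := by
      conv_lhs => rw [hM]
      simp [Matrix.SpecialLinearGroup.coe_mul, Matrix.mul_apply, Fin.sum_univ_two]
    rw [hMij]
    fin_cases j
    · simp only [Fin.zero_eta]
      rw [e1]; ring
    · simp only [Fin.mk_one]
      rw [e2, e3]; ring

theorem mul_entry (A B : SL(2, ℝ)) (i j : Fin 2) :
    (A * B) i j = A i 0 * B 0 j + A i 1 * B 1 j := by
  simp [Matrix.SpecialLinearGroup.coe_mul, Matrix.mul_apply, Fin.sum_univ_two]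

/-- an element of trace `0` fixes a point -/
theorem fix_of_trace (A : SL(2, ℝ)) (h : A 0 0 + A 1 1 = 0) : ∃ z : ℍ, A • z = z := by
  have hdet : A 0 0 * A 1 1 - A 0 1 * A 1 0 = 1 := by
    have := A.det_coe
    rwa [Matrix.det_fin_two] at this
  have hd : A 1 1 = - A 0 0 := by linarith
  have hc : A 1 0 ≠ 0 := by
    intro hc
    rw [hc, hd] at hdet
    nlinarith [sq_nonneg (A 0 0)]
  have hpos : 0 < |A 1 0| := abs_pos.mpr hc
  refine ⟨⟨⟨A 0 0 / A 1 0, 1 / |A 1 0|⟩, by simpa using hc⟩, ?_⟩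
  set z : ℍ := ⟨⟨A 0 0 / A 1 0, 1 / |A 1 0|⟩, by simpa using hc⟩ with hz
  have hD : D A z = 0 := by
    rw [D_eq]
    have : axQ A z = 0 := by
      unfold axQ
      apply Complex.ext
      · simp [hz, pow_two]
        rw [hd] at hdet ⊢
        have habs : |A 1 0|⁻¹ * |A 1 0|⁻¹ = (A 1 0)⁻¹ * (A 1 0)⁻¹ := by
          rw [← mul_inv, ← mul_inv, abs_mul_abs_self]
        rw [habs]
        field_simp
        linear_combination hdet
      · simp [hz, pow_two]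
        rw [hd]
        field_simp
        ring
    rw [this]
    simp
  unfold D at hD
  have h0 : dist z (A • z) / 2 = 0 := Real.sinh_eq_zero.mp hD
  have h1 : dist z (A • z) = 0 := by linarith
  exact (dist_eq_zero.mp h1).symm

theorem pair (Γ : Subgroup SL(2, ℝ)) {ι : ℝ} (hι : 0 < ι)
    (hΓ : ∀ g ∈ Γ, (∃ z : ℍ, dist z (g • z) < ι) → ∀ z : ℍ, g • z = z)
    {a b : SL(2, ℝ)} (h : Comm1 Γ a b) (z w : ℍ) :
    D a z * D b w = D a w * D b z := by
  obtain ⟨ha, hb, na, nb, hc⟩ := h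
  obtain ⟨e, he, hE⟩ := same_act (a * b) (b * a) (fun z => by rw [mul_smul, mul_smul, hc z])
  have hdet : b 0 0 * b 1 1 - b 0 1 * b 1 0 = 1 := by
    have := b.det_coe
    rwa [Matrix.det_fin_two] at this
  have h00 := hE 0 0
  have h01 := hE 0 1
  have h10 := hE 1 0
  have h11 := hE 1 1
  simp only [mul_entry] at h00 h01 h10 h11
  have he1 : e = 1 := by
    rcases he with he | he
    · exact he
    · exfalso
      rw [he] at h00 h01 h10 h11
      have htr : a 0 0 + a 1 1 = 0 := by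
        have : a 0 0 + a 1 1 = -(a 0 0 + a 1 1) := by
          linear_combination b 1 1 * h00 - b 1 0 * h01 - b 0 1 * h10 + b 0 0 * h11
            - 2 * (a 0 0 + a 1 1) * hdet
        linarith
      obtain ⟨z0, hz0⟩ := fix_of_trace a htr
      obtain ⟨z1, hz1⟩ := na
      exact hz1 (hΓ a ha ⟨z0, by rw [hz0, dist_self]; exact hι⟩ z1)
  rw [he1] at h00 h01 h10 h11
  have k1 : a 0 1 * b 1 0 = b 0 1 * a 1 0 := by linarith
  have k2 : b 0 1 * (a 0 0 - a 1 1) = a 0 1 * (b 0 0 - b 1 1) := by linarith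
  have k3 : a 1 0 * (b 0 0 - b 1 1) = b 1 0 * (a 0 0 - a 1 1) := by linarith
  have K1 : (a 0 1 : ℂ) * (b 1 0 : ℂ) = (b 0 1 : ℂ) * (a 1 0 : ℂ) := by exact_mod_cast k1
  have K2 : (b 0 1 : ℂ) * ((a 0 0 : ℂ) - (a 1 1 : ℂ)) = (a 0 1 : ℂ) * ((b 0 0 : ℂ) - (b 1 1 : ℂ)) := by
    exact_mod_cast k2
  have K3 : (a 1 0 : ℂ) * ((b 0 0 : ℂ) - (b 1 1 : ℂ)) = (b 1 0 : ℂ) * ((a 0 0 : ℂ) - (a 1 1 : ℂ)) := by
    exact_mod_cast k3
  have hq : axQ a z * axQ b w = axQ a w * axQ b z := by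
    unfold axQ
    linear_combination ((z : ℂ) ^ 2 - (w : ℂ) ^ 2) * K1 + ((z : ℂ) - (w : ℂ)) * K2
      - ((z : ℂ) ^ 2 * w - (w : ℂ) ^ 2 * z) * K3
  rw [D_eq, D_eq, D_eq, D_eq]
  have hn : ‖axQ a z‖ * ‖axQ b w‖ = ‖axQ a w‖ * ‖axQ b z‖ := by
    rw [← norm_mul, ← norm_mul, hq]
  have hz := z.im_pos
  have hw := w.im_pos
  field_simp
  linarith

theorem low (Γ : Subgroup SL(2, ℝ)) {ι : ℝ}
    (hΓ : ∀ g ∈ Γ, (∃ z : ℍ, dist z (g • z) < ι) → ∀ z : ℍ, g • z = z)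
    {g : SL(2, ℝ)} (hg : g ∈ Γ) (hn : Nontriv g) (z : ℍ) : Real.sinh (ι / 2) ≤ D g z := by
  unfold D
  apply Real.sinh_le_sinh.mpr
  by_contra hcon
  push Not at hcon
  obtain ⟨z1, hz1⟩ := hn
  exact hz1 (hΓ g hg ⟨z, by linarith⟩ z1)

theorem chain (Γ : Subgroup SL(2, ℝ)) {ι : ℝ} (hι : 0 < ι)
    (hΓ : ∀ g ∈ Γ, (∃ z : ℍ, dist z (g • z) < ι) → ∀ z : ℍ, g • z = z)
    {g : SL(2, ℝ)} (hg : g ∈ Γ) (hgn : Nontriv g) {h : SL(2, ℝ)}
    (hr : Relation.ReflTransGen (Comm1 Γ) g h) :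
    h ∈ Γ ∧ Nontriv h ∧ ∀ z w : ℍ, D g z * D h w = D g w * D h z := by
  have hs : 0 < Real.sinh (ι / 2) := Real.sinh_pos_iff.mpr (by linarith)
  induction hr with
  | refl => exact ⟨hg, hgn, fun z w => mul_comm _ _⟩
  | @tail b c _ hbc ih =>
    obtain ⟨hb, hbn, ih⟩ := ih
    refine ⟨hbc.2.1, hbc.2.2.2.1, fun z w => ?_⟩
    have p := pair Γ hι hΓ hbc z w
    have q := ih z w
    have bz : 0 < D b z := lt_of_lt_of_le hs (low Γ hΓ hb hbn z)
    have bw : 0 < D b w := lt_of_lt_of_le hs (low Γ hΓ hb hbn w)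
    have : (D g z * D c w) * (D b w * D b z) = (D g w * D c z) * (D b w * D b z) := by
      calc (D g z * D c w) * (D b w * D b z) = (D g z * D b w) * (D b z * D c w) := by ring
        _ = (D g w * D b z) * (D b w * D c z) := by rw [p, q]
        _ = _ := by ring
    exact mul_right_cancel₀ (by positivity) this

end Axis

open Axis in
/-- In a group with displacement bounded below, if `h` is connected to `g` by a chain of commuting
nontrivial elements, then where `h` has displacement `≤ L`, `g` has displacement `≤ L'`. -/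
theorem axis_bound (Γ : Subgroup SL(2, ℝ)) {ι : ℝ} (hι : 0 < ι)
    (hΓ : ∀ g ∈ Γ, (∃ z : ℍ, dist z (g • z) < ι) → ∀ z : ℍ, g • z = z)
    (g : SL(2, ℝ)) (hg : g ∈ Γ) (hgn : Nontriv g) (L : ℝ) :
    ∃ L' : ℝ, ∀ h : SL(2, ℝ), Relation.ReflTransGen (Comm1 Γ) g h →
      ∀ z : ℍ, dist z (h • z) ≤ L → dist z (g • z) ≤ L' := by
  have hs : 0 < Real.sinh (ι / 2) := Real.sinh_pos_iff.mpr (by linarith)
  set z0 : ℍ := ⟨Complex.I, by simp⟩
  refine ⟨2 * Real.arsinh (D g z0 * Real.sinh (L / 2) / Real.sinh (ι / 2)), fun h hr z hz => ?_⟩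
  obtain ⟨hh, hhn, hpr⟩ := chain Γ hι hΓ hg hgn hr
  have h1 : D h z ≤ Real.sinh (L / 2) := by
    unfold D
    exact Real.sinh_le_sinh.mpr (by linarith)
  have h2 : Real.sinh (ι / 2) ≤ D h z0 := low Γ hΓ hh hhn z0
  have h3 : D g z * D h z0 = D g z0 * D h z := hpr z z0
  have h4 : D g z ≤ D g z0 * Real.sinh (L / 2) / Real.sinh (ι / 2) := by
    rw [le_div_iff₀ hs]
    calc D g z * Real.sinh (ι / 2) ≤ D g z * D h z0 :=
          mul_le_mul_of_nonneg_left h2 (D_nonneg g z)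
      _ = D g z0 * D h z := h3
      _ ≤ D g z0 * Real.sinh (L / 2) := mul_le_mul_of_nonneg_left h1 (D_nonneg g z0)
  have h5 : dist z (g • z) / 2 ≤ Real.arsinh (D g z0 * Real.sinh (L / 2) / Real.sinh (ι / 2)) := by
    rw [← Real.sinh_le_sinh, Real.sinh_arsinh]
    exact h4
  linarith

end H65.Flat
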