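import Pool.Agent.H88.Flat.Bridge

/-! # Bridge between the basic definitions and the phase space flow

Proved in `Pool.Agent.H66.Flat.BridgeA` and `Pool.Agent.H88.Flat.BridgeB`. -/
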