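import Pool.Agent.H65.Flat.Srf
import Pool.Agent.H14.Flat.DeckA
import Pool.Agent.H66.Flat.CurvNe
import Pool.Agent.H66.Flat.Bounds

/-! # Deck group (helper14, helper66; interface by helper65) -/

namespace H65.Flat

open MeasureTheory Set Filter
open scoped UpperHalfPlane MatrixGroups ENNReal Topology

/-- conformal factor in the coordinates `(x,s)` -/
noncomputable def Srf.U (S : Srf) (p : ℝ × ℝ) : ℝ := S.u (zz p)

/-- bounds needed for the existence of the flow -/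
theorem Srf.bounds (S : Srf) : ∃ C : ℝ, (∀ p, |S.U p| ≤ C) ∧
    (∀ p : ℝ × ℝ, |Real.exp p.2 * Ux S.U p| ≤ C) ∧ (∀ p, |Us S.U p| ≤ C) :=
  S.bounds_aux

/-- the curvature does not vanish identically (Gauss-Bonnet / maximum principle) -/
theorem Srf.curv_ne (S : Srf) : ∃ p, curv S.U p ≠ 0 := by
  obtain ⟨p, hp⟩ := S.curv_ne_aux
  exact ⟨p, hp.ne⟩

/-- minimal displacement -/
theorem Srf.disp (S : Srf) :
    ∃ ι > 0, ∀ g ∈ S.Γ, (∃ z : ℍ, dist z (g • z) < ι) → ∀ z : ℍ, g • z = z :=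
  S.disp_aux

/-- the deck group acting on the phase space -/
theorem Srf.exists_deck (S : Srf) (P : Pre2) (hP : P.U = S.U) :
    ∃ Λ : Subgroup (Equiv.Perm T),
      (∀ τ ∈ Λ, ∀ t v, P.Φ t (τ v) = τ (P.Φ t v)) ∧
      (∀ τ ∈ Λ, ∀ a v, rot a (τ v) = τ (rot a v)) ∧
      (∀ τ ∈ Λ, Continuous τ) ∧
      (∀ τ ∈ Λ, ∀ v, curv P.U (bp (τ v)) = curv P.U (bp v)) ∧
      (∀ τ ∈ Λ, ∀ v y, P.J (τ v) y = P.J v y) ∧
      (∀ τ ∈ Λ, ∀ v y, P.J1 (τ v) y = P.J1 v y) ∧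
      (∀ τ ∈ Λ, ∃ g ∈ S.Γ, ∀ v, base (τ v) = g • base v) ∧
      (∀ g ∈ S.Γ, ∃ τ ∈ Λ, ∀ v, base (τ v) = g • base v) ∧
      (∀ τ ∈ Λ, (∃ v, base (τ v) = base v) → ∃ k : ℤ, ∀ v, τ v = rot (2 * Real.pi * k) v) ∧
      (∀ k : ℤ, ∃ τ ∈ Λ, ∀ v, τ v = rot (2 * Real.pi * k) v) ∧
      (∃ C : Set T, IsCompact C ∧ ∀ v, ∃ τ ∈ Λ, τ v ∈ C) ∧
      Countable Λ ∧
      (∀ τ ∈ Λ, MeasurePreserving τ (liou P.U) (liou P.U)) ∧
      (∀ v, ∃ O : Set T, IsOpen O ∧ v ∈ O ∧ ∀ τ ∈ Λ, τ ≠ 1 → Disjoint (τ '' O) O) := by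
  have hinv : ∀ g ∈ S.Γ, ∀ p, P.U (H14.Flat.mob g p) = P.U p := by
    intro g hg p
    rw [hP]
    show S.u (zz (H14.Flat.mob g p)) = S.u (zz p)
    rw [H14.Flat.zz_mob, S.inv g hg]
  have hflow : ∀ τ ∈ H14.Flat.deck S.Γ, ∀ t v, P.Φ t (τ v) = τ (P.Φ t v) := by
    rintro τ ⟨g, hg, k, hk⟩ t v
    rw [hk, hk, H14.Flat.flow_tau P.toPre (hinv g hg)]
  have hrot : ∀ τ ∈ H14.Flat.deck S.Γ, ∀ a v, rot a (τ v) = τ (rot a v) := by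
    rintro τ ⟨g, hg, k, hk⟩ a v
    rw [hk, hk, H14.Flat.rot_tau]
  have hcurv : ∀ τ ∈ H14.Flat.deck S.Γ, ∀ v, curv P.U (bp (τ v)) = curv P.U (bp v) := by
    rintro τ ⟨g, hg, k, hk⟩ v
    rw [hk, H14.Flat.bp_tau, H14.Flat.curv_inv P.U_smooth (hinv g hg)]
  have hjac : ∀ τ ∈ H14.Flat.deck S.Γ, ∀ v y, curv P.U (bp (P.Φ y (τ v))) =
      curv P.U (bp (P.Φ y v)) := by
    intro τ hτ v y
    rw [hflow τ hτ, hcurv τ hτ]
  refine ⟨H14.Flat.deck S.Γ, hflow, hrot, ?_, hcurv,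
    fun τ hτ v y => (H14.Flat.jac_inv P (hjac τ hτ v) y).1,
    fun τ hτ v y => (H14.Flat.jac_inv P (hjac τ hτ v) y).2, ?_, ?_, ?_, ?_,
    H14.Flat.deck_cocompact S, H14.Flat.deck_countable S.Γ S.discr, ?_, H14.Flat.deck_wander S⟩
  · rintro τ ⟨g, hg, k, hk⟩
    have : (τ : T → T) = H14.Flat.tau g k := funext hk
    rw [this]
    exact (H14.Flat.tau_smooth g k).continuous
  · rintro τ ⟨g, hg, k, hk⟩
    exact ⟨g, hg, fun v => by rw [hk, H14.Flat.base_tau]⟩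
  · intro g hg
    obtain ⟨τ, hτ, h⟩ := H14.Flat.exists_mem_deck hg 0
    exact ⟨τ, hτ, fun v => by rw [h, H14.Flat.base_tau]⟩
  · rintro τ ⟨g, hg, k, hk⟩ ⟨v, hv⟩
    rw [hk, H14.Flat.base_tau] at hv
    exact H14.Flat.deck_triv hk (S.free g hg _ hv)
  · intro k
    obtain ⟨τ, hτ, h⟩ := H14.Flat.exists_mem_deck (one_mem S.Γ) k
    exact ⟨τ, hτ, fun v => by rw [h, H14.Flat.tau_one]⟩
  · intro τ hτ
    obtain ⟨g, hg, k, hk⟩ := hτ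
    have e : (τ : T → T) = H14.Flat.tau g k := funext hk
    refine P.deck_preserving τ.bijective ?_ (hflow τ ⟨g, hg, k, hk⟩) (hrot τ ⟨g, hg, k, hk⟩)
    rw [e]
    exact (H14.Flat.tau_smooth g k).differentiable (by simp)

end H65.Flat
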