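import Pool.Agent.H36.Flat.Pre

/-! # Frame computations (all statements are proved in `Pool/Agent/H36/Flat/`, namespace `H65.Flat`:
`exists_pre2`, `iter_deriv_curv` in `Jac.lean`, `exists_pre` in `Pre.lean`; helper36) -/
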