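import Pool.Agent.H65.Flat.Chart
import Pool.Agent.H65.Flat.Deck
import Pool.Agent.H65.Flat.Meas
import Pool.Agent.H65.Flat.Frame

/-! # Construction of `Geo` from a surface `Srf` -/

namespace H65.Flat

open MeasureTheory Set Filter
open scoped UpperHalfPlane MatrixGroups ENNReal Topology

theorem Srf.U_smooth (S : Srf) : ContDiff ℝ (⊤ : ℕ∞) S.U := S.smooth

/-- the abstract interface holds for every surface -/
theorem Srf.exists_geo (S : Srf) : ∃ (G : Geo) (Q : Pre2), Q.U = S.U ∧ G.Φ = Q.Φ ∧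
    (G.K = fun v => curv S.U (bp v)) ∧ G.Γ = S.Γ ∧ G.J = Q.J ∧ G.J1 = Q.J1 := by
  obtain ⟨C, hC1, hC2, hC3⟩ := S.bounds
  obtain ⟨P, hPU⟩ := exists_pre S.U S.U_smooth C hC1 hC2 hC3
  obtain ⟨Q, hQ⟩ := exists_pre2 P
  have hQU : Q.U = S.U := by
    have : Q.toPre.U = P.U := by rw [hQ]
    rw [this, hPU]
  have hK : ∀ p, curv Q.U p ≤ 0 := by rw [hQU]; exact S.nonpos
  obtain ⟨inv, hinv1, hinv2, hinv3⟩ := Q.exists_inv hK
  obtain ⟨Λ, hΛ1, hΛ2, hΛ3, hΛ4, hΛ5, hΛ6, hΛ7, hΛ8, hΛ9, hΛ10, hΛ11, hΛ12, hΛ13, hΛ14⟩ :=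
    S.exists_deck Q hQU
  have hcurvc : Continuous fun v => curv Q.U (bp v) :=
    ((curv_smooth Q.U_smooth).continuous).comp bp_smooth.continuous
  have hΦc : Continuous fun p : ℝ × T => Q.Φ p.1 p.2 := Q.Φ_smooth.continuous
  have : IsLocallyFiniteMeasure (liou Q.U) := by
    refine IsLocallyFiniteMeasure.withDensity_ofReal ?_
    have h1 : Continuous fun v : T => Q.U (bp v) := Q.U_smooth.continuous.comp bp_smooth.continuous
    unfold dens
    fun_prop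
  obtain ⟨D, hD1, hD2, hD3, hD4⟩ := exists_domain (liou Q.U) Λ hΛ12 hΛ3 hΛ13 hΛ14 hΛ11
  have hne : ∃ v : T, curv Q.U (bp v) ≠ 0 := by
    obtain ⟨p, hp⟩ := S.curv_ne
    refine ⟨(p.1, p.2, 0), ?_⟩
    rw [hQU]
    exact hp
  have hbdd : ∀ N : ℕ, ∃ C : ℝ, ∀ v y,
      |iteratedDeriv N (fun y => curv Q.U (bp (Q.Φ y v))) y| ≤ C := by
    intro N
    obtain ⟨F, hF, hF2⟩ := iter_deriv_curv Q.toPre N
    obtain ⟨Cc, hCc, hcov⟩ := hΛ11
    obtain ⟨B, hB⟩ := hCc.exists_bound_of_continuousOn (f := F) hF.continuous.continuousOn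
    refine ⟨B, fun v y => ?_⟩
    obtain ⟨τ, hτ, hmem⟩ := hcov (Q.Φ y v)
    have hFτ : F (τ (Q.Φ y v)) = F (Q.Φ y v) := by
      have h1 := hF2 (τ (Q.Φ y v)) 0
      have h2 := hF2 (Q.Φ y v) 0
      rw [Q.Φ_zero] at h1 h2
      rw [← h1, ← h2]
      congr 1
      funext z
      rw [hΛ1 τ hτ, hΛ4 τ hτ]
    rw [hF2, ← hFτ]
    exact hB _ hmem
  refine ⟨{
    Φ := Q.Φ
    K := fun v => curv Q.U (bp v)
    J := Q.J
    J1 := Q.J1
    inv := inv
    Γ := S.Γ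
    Λ := Λ
    μ := liou Q.U
    D := D
    flow_zero := Q.Φ_zero
    flow_add := Q.Φ_add
    flow_cont := hΦc
    flow_rev := Q.Φ_rev
    K_cont := hcurvc
    K_nonpos := fun v => hK _
    K_rot := fun a v => rfl
    K_ne := hne
    K_smooth := fun v => by
      have h1 : ContDiff ℝ (⊤ : ℕ∞) fun y : ℝ => Q.Φ y v :=
        Q.Φ_smooth.comp (contDiff_id.prodMk contDiff_const)
      exact ((curv_smooth Q.U_smooth).comp bp_smooth).comp h1
    K_bdd := hbdd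
    J_zero := Q.J_zero
    J1_zero := Q.J1_zero
    J_deriv := Q.J_deriv
    J1_deriv := Q.J1_deriv
    J_cont := Q.J_smooth.continuous
    J1_cont := Q.J1_smooth.continuous
    inv_left := hinv1
    inv_right := hinv2
    inv_cont := hinv3.continuous
    chart_sol := Q.chart_sol hK
    chart_unique := Q.chart_unique hK
    vol_chart := Q.vol_chart hK
    Λ_flow := hΛ1
    Λ_rot := hΛ2
    Λ_cont := hΛ3
    Λ_K := hΛ4
    Λ_J := hΛ5
    Λ_J1 := hΛ6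
    Λ_base := hΛ7
    Λ_lift := hΛ8
    Λ_triv := hΛ9
    Λ_rot2pi := hΛ10
    Λ_cocompact := hΛ11
    Λ_countable := hΛ12
    Γ_disp := S.disp
    D_meas := hD1
    D_fin := hD2
    M_flow := fun t F hF hF2 => hD3 (Q.Φ t) (Q.flow_preserving t)
      ⟨fun a b h => by
        have := congrArg (Q.Φ (-t)) h
        rwa [← Q.Φ_add, ← Q.Φ_add, neg_add_cancel, Q.Φ_zero, Q.Φ_zero] at this,
       fun b => ⟨Q.Φ (-t) b, by rw [← Q.Φ_add, add_neg_cancel, Q.Φ_zero]⟩⟩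
      (fun τ hτ v => hΛ1 τ hτ t v) F hF hF2
    M_rot := fun a F hF hF2 => hD3 (rot a) (rot_preserving Q.U Q.U_smooth.continuous a)
      ⟨fun x y h => by
        simp only [rot, Prod.mk.injEq, add_left_inj] at h
        exact Prod.ext h.1 (Prod.ext h.2.1 h.2.2),
       fun b => ⟨rot (-a) b, by simp [rot]⟩⟩
      (fun τ hτ v => hΛ2 τ hτ a v) F hF hF2
    M_lower := hD4 }, Q, hQU, rfl, ?_, rfl, rfl, rfl⟩
  change (fun v => curv Q.U (bp v)) = _
  rw [hQU]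

end H65.Flat
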