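import Pool.Agent.H16.Flat.ChartD

/-! # Fermi charts (all statements are proved in `Pool/Agent/H16/Flat/ChartA … ChartD.lean`,
namespace `H65.Flat`: `Pre2.one_le_J`, `Pre2.psi_smooth`, `Pre2.psi_hasFDerivAt`, `Pre2.exists_inv`,
`Pre2.chart_sol`, `Pre2.chart_unique`, `Pre2.vol_chart`; helper16, helper66) -/
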