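import Mathlib

/-!
# Closed surfaces of nonpositive curvature: basic definitions of the hand-in (helper65)

By the uniformization theorem every closed oriented surface of genus at least two with a smooth
Riemannian metric is isometric to `Γ \ ℍ` with a metric `e^{2u} |dz|² / (Im z)²`, where
`Γ ≤ SL(2,ℝ)` is discrete, acts freely (modulo `±1`) and cocompactly, and `u : ℍ → ℝ` is smooth and
`Γ`-invariant.
-/

namespace H65.Flat

open Set
open scoped UpperHalfPlane MatrixGroups InnerProductSpace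

/-- A closed oriented surface `Γ \ ℍ` of genus at least two with the smooth Riemannian metric
`e^{2u} |dz|² / (Im z)²`. -/
structure Surface where
  /-- the deck group (a cocompact torsion free Fuchsian group) -/
  Γ : Subgroup SL(2, ℝ)
  discrete : DiscreteTopology Γ
  free : ∀ g ∈ Γ, ∀ z : ℍ, g • z = z → ∀ w : ℍ, g • w = w
  cocompact : CompactSpace (MulAction.orbitRel.Quotient Γ ℍ)
  /-- logarithm of the conformal factor with respect to the hyperbolic metric -/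
  u : ℍ → ℝ
  smooth : ContDiffOn ℝ (⊤ : ℕ∞) (fun z : ℂ => u (UpperHalfPlane.ofComplex z)) {z : ℂ | 0 < z.im}
  inv : ∀ g ∈ Γ, ∀ z : ℍ, u (g • z) = u z

namespace Surface

variable (S : Surface)

/-- The Riemannian metric is `e^{2σ} |dz|²`. -/
noncomputable def σ (z : ℂ) : ℝ := S.u (UpperHalfPlane.ofComplex z) - Real.log z.im

/-- Gaussian curvature `K = -e^{-2σ} Δσ` of the metric `e^{2σ} |dz|²`. -/
noncomputable def K (z : ℍ) : ℝ := -Real.exp (-2 * S.σ z) * Laplacian.laplacian S.σ (z : ℂ)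

/-- Right hand side of the geodesic equation `z'' = -2 dσ(z') z' + |z'|² ∇σ` of the metric
`e^{2σ} |dz|²`. -/
noncomputable def acc (z w : ℂ) : ℂ :=
  -((2 * fderiv ℝ S.σ z w : ℝ) : ℂ) * w +
    ((‖w‖ ^ 2 : ℝ) : ℂ) *
      (((fderiv ℝ S.σ z 1 : ℝ) : ℂ) + ((fderiv ℝ S.σ z Complex.I : ℝ) : ℂ) * Complex.I)

/-- `c` is a unit speed geodesic on the interval `I`. -/
def IsGeodesicOn (I : Set ℝ) (c : ℝ → ℍ) : Prop :=
  ∃ c' c'' : ℝ → ℂ, ∀ s ∈ I, HasDerivWithinAt (fun s => (c s : ℂ)) (c' s) I s ∧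
    HasDerivWithinAt c' (c'' s) I s ∧ Real.exp (S.σ (c s)) * ‖c' s‖ = 1 ∧
    c'' s = S.acc (c s) (c' s)

/-- `F : ℝ × [0,w] → ℍ` is a flat strip of width `w > 0`: a smooth totally geodesic isometric
immersion of the flat strip `ℝ × [0,w]`. A flat strip in `Γ \ ℍ` is described by its lift to the
universal cover `ℍ` (`ℝ × [0,w]` is simply connected), which is unique up to `Γ`, see `Same`.
The values of `F` outside `ℝ × [0,w]` are irrelevant. -/
structure IsFlatStrip (w : ℝ) (F : ℝ × ℝ → ℍ) : Prop where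
  pos : 0 < w
  smooth : ContDiffOn ℝ (⊤ : ℕ∞) (fun p => (F p : ℂ)) (univ ×ˢ Icc 0 w)
  /-- the pull back of the metric is `dt² + dy²` -/
  isometric : ∀ p ∈ (univ ×ˢ Icc 0 w : Set (ℝ × ℝ)), ∀ v : ℝ × ℝ,
    Real.exp (S.σ (F p)) * ‖fderivWithin ℝ (fun p => (F p : ℂ)) (univ ×ˢ Icc 0 w) p v‖
      = Real.sqrt (v.1 ^ 2 + v.2 ^ 2)
  /-- straight lines are mapped to geodesics -/
  geodesic : ∀ p ∈ (univ ×ˢ Icc 0 w : Set (ℝ × ℝ)), ∀ θ : ℝ,
    S.IsGeodesicOn {s | p.2 + s * Real.sin θ ∈ Icc 0 w}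
      (fun s => F (p.1 + s * Real.cos θ, p.2 + s * Real.sin θ))

/-- The isometric embeddings `(t,y) ↦ (±t + a, ±y + b)` of the strip `ℝ × [0,w]` into the strip
`ℝ × [0,w']` (for `w = w'` the isometries of `ℝ × [0,w]`). -/
def StripEmb (w w' : ℝ) (τ : ℝ × ℝ → ℝ × ℝ) : Prop :=
  ∃ ε δ a b : ℝ, (ε = 1 ∨ ε = -1) ∧ (δ = 1 ∨ δ = -1) ∧ (∀ y ∈ Icc 0 w, δ * y + b ∈ Icc 0 w') ∧
    ∀ p, τ p = (ε * p.1 + a, δ * p.2 + b)

/-- A flat strip that is not the restriction of a flat strip of larger width. (Restrictions modulo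
`Γ` are covered, since `g • F'` is again a flat strip for `g ∈ Γ`.) -/
def IsMaximalFlatStrip (w : ℝ) (F : ℝ × ℝ → ℍ) : Prop :=
  S.IsFlatStrip w F ∧ ∀ w' F' τ, S.IsFlatStrip w' F' → w < w' → StripEmb w w' τ →
    ¬ ∀ p ∈ (univ ×ˢ Icc 0 w : Set (ℝ × ℝ)), F p = F' (τ p)

/-- Two flat strips in `Γ \ ℍ` are identified if they differ by an isometry of the domain; in
terms of lifts: `F' = g ∘ F ∘ τ` with `g ∈ Γ` and an isometry `τ` of the strip. -/
def Same (w : ℝ) (F : ℝ × ℝ → ℍ) (w' : ℝ) (F' : ℝ × ℝ → ℍ) : Prop :=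
  w = w' ∧ ∃ g ∈ S.Γ, ∃ τ, StripEmb w' w τ ∧
    ∀ p ∈ (univ ×ˢ Icc 0 w' : Set (ℝ × ℝ)), F' p = g • F (τ p)

end Surface

end H65.Flat
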