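import Pool.Agent.H65.Flat.Geo

/-!
# Flat geodesics: the geodesic vector field in coordinates (helper65)

Metric `e^{2u} (dx² + dy²)/y²`, `y = e^s`, `U (x,s) = u (x + i e^s)`.
-/

namespace H65.Flat

open MeasureTheory Set Filter
open scoped UpperHalfPlane MatrixGroups ENNReal Topology

/-- `∂U/∂x` -/
noncomputable def Ux (U : ℝ × ℝ → ℝ) (p : ℝ × ℝ) : ℝ := fderiv ℝ U p (1, 0)

/-- `∂U/∂s` -/
noncomputable def Us (U : ℝ × ℝ → ℝ) (p : ℝ × ℝ) : ℝ := fderiv ℝ U p (0, 1)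

/-- coordinates `(x,s)` of the base point -/
def bp (v : T) : ℝ × ℝ := (v.1, v.2.1)

/-- Gaussian curvature of `e^{2U} (dx² + dy²)/y²` in the coordinates `(x,s)` -/
noncomputable def curv (U : ℝ × ℝ → ℝ) (p : ℝ × ℝ) : ℝ :=
  -Real.exp (-2 * U p) * (Real.exp (2 * p.2) * Ux (Ux U) p + Us (Us U) p - Us U p + 1)

/-- geodesic vector field `X` -/
noncomputable def fieldX (U : ℝ × ℝ → ℝ) (v : T) : T :=
  (Real.exp (v.2.1 - U (bp v)) * Real.cos v.2.2, Real.exp (-U (bp v)) * Real.sin v.2.2,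
    Real.exp (-U (bp v)) * ((Us U (bp v) - 1) * Real.cos v.2.2
      - Real.exp v.2.1 * Ux U (bp v) * Real.sin v.2.2))

/-- horizontal field `H = ∂X/∂ψ` (horizontal lift of the direction rotated by `+π/2`) -/
noncomputable def fieldH (U : ℝ × ℝ → ℝ) (v : T) : T :=
  (-Real.exp (v.2.1 - U (bp v)) * Real.sin v.2.2, Real.exp (-U (bp v)) * Real.cos v.2.2,
    Real.exp (-U (bp v)) * (-(Us U (bp v) - 1) * Real.sin v.2.2
      - Real.exp v.2.1 * Ux U (bp v) * Real.cos v.2.2))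

/-- vertical field -/
def fieldV : T := (0, 0, 1)

/-- density of the Liouville measure `e^{2U} dx dy dψ / y² = e^{2U - s} dx ds dψ` -/
noncomputable def dens (U : ℝ × ℝ → ℝ) (v : T) : ℝ := Real.exp (2 * U (bp v) - v.2.1)

/-- Liouville measure -/
noncomputable def liou (U : ℝ × ℝ → ℝ) : Measure T :=
  (volume : Measure T).withDensity fun v => ENNReal.ofReal (dens U v)

/-- A smooth conformal factor together with its (complete, smooth) geodesic flow. -/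
structure Pre where
  U : ℝ × ℝ → ℝ
  U_smooth : ContDiff ℝ (⊤ : ℕ∞) U
  Φ : ℝ → T → T
  Φ_zero : ∀ v, Φ 0 v = v
  Φ_deriv : ∀ v t, HasDerivAt (fun t => Φ t v) (fieldX U (Φ t v)) t
  Φ_smooth : ContDiff ℝ (⊤ : ℕ∞) fun p : ℝ × T => Φ p.1 p.2

/-- `Pre` together with the Jacobi fields and the derivative of the flow in the frame `X, H, V`. -/
structure Pre2 extends Pre where
  J : T → ℝ → ℝ
  J1 : T → ℝ → ℝ
  J2 : T → ℝ → ℝ
  J21 : T → ℝ → ℝ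
  J_smooth : ContDiff ℝ (⊤ : ℕ∞) fun p : T × ℝ => J p.1 p.2
  J1_smooth : ContDiff ℝ (⊤ : ℕ∞) fun p : T × ℝ => J1 p.1 p.2
  J_zero : ∀ v, J v 0 = 1
  J1_zero : ∀ v, J1 v 0 = 0
  J2_zero : ∀ v, J2 v 0 = 0
  J21_zero : ∀ v, J21 v 0 = 1
  J_deriv : ∀ v y, HasDerivAt (J v) (J1 v y) y
  J1_deriv : ∀ v y, HasDerivAt (J1 v) (-curv U (bp (Φ y v)) * J v y) y
  J2_deriv : ∀ v y, HasDerivAt (J2 v) (J21 v y) y
  J21_deriv : ∀ v y, HasDerivAt (J21 v) (-curv U (bp (Φ y v)) * J2 v y) y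
  dX : ∀ v y, fderiv ℝ (Φ y) v (fieldX U v) = fieldX U (Φ y v)
  dH : ∀ v y, fderiv ℝ (Φ y) v (fieldH U v) = J v y • fieldH U (Φ y v) + J1 v y • fieldV
  dV : ∀ v y, fderiv ℝ (Φ y) v fieldV = J2 v y • fieldH U (Φ y v) + J21 v y • fieldV
  Φ_add : ∀ s t v, Φ (s + t) v = Φ s (Φ t v)
  Φ_rev : ∀ t v, Φ t (rot Real.pi v) = rot Real.pi (Φ (-t) v)
  Φ_rot2pi : ∀ t v, Φ t (rot (2 * Real.pi) v) = rot (2 * Real.pi) (Φ t v)

end H65.Flat
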