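import Mathlib

/-!
# Flat geodesics: the abstract interface `Geo` (helper65)

Phase space `T = ℝ × ℝ × ℝ ∋ (x, s, ψ)`: base point `z = x + i e^s ∈ ℍ`, direction angle `ψ`
(universal cover of the unit tangent bundle of `ℍ` with the metric `e^{2u} |dz|²/y²`).
`Φ` geodesic flow, `rot` rotation, `Psi Φ u (t,y,φ)` Fermi chart along the line of `u`.
All modules after the construction of the flow only use the structure `Geo`.
-/

namespace H65.Flat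

open MeasureTheory Set Filter
open scoped UpperHalfPlane MatrixGroups ENNReal Topology

/-- phase space: `(x, s, ψ)`, base point `x + i e^s`, angle `ψ` -/
abbrev T := ℝ × ℝ × ℝ

/-- rotation of the direction by the angle `a` -/
def rot (a : ℝ) (v : T) : T := (v.1, v.2.1, v.2.2 + a)

/-- base point in the upper half plane -/
noncomputable def base (v : T) : ℍ := ⟨⟨v.1, Real.exp v.2.1⟩, Real.exp_pos _⟩

/-- Fermi chart along the geodesic of `u`: `p = (t, y, φ)` is mapped to the unit vector with angle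
`φ` (with respect to the `t`-direction) at the point at signed distance `y` from the point of
parameter `t` of the geodesic of `u`. -/
noncomputable def Psi (Φ : ℝ → T → T) (u p : T) : T :=
  rot (p.2.2 - Real.pi / 2) (Φ p.2.1 (rot (Real.pi / 2) (Φ p.1 u)))

/-- sideways shift -/
noncomputable def shiftS (Φ : ℝ → T → T) (y : ℝ) (v : T) : T :=
  rot (-(Real.pi / 2)) (Φ y (rot (Real.pi / 2) v))

/-- A unit speed geodesic in a Fermi chart `dy² + G² dt²`, `G1 = ∂G/∂y`. -/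
def ChartSol (G G1 : ℝ → ℝ → ℝ) (t y φ : ℝ → ℝ) : Prop :=
  ∀ s, HasDerivAt t (Real.cos (φ s) / G (t s) (y s)) s ∧ HasDerivAt y (Real.sin (φ s)) s ∧
    HasDerivAt φ (G1 (t s) (y s) / G (t s) (y s) * Real.cos (φ s)) s

/-- Everything that is used about the geodesic flow of a closed surface `Γ \ ℍ` of nonpositive,
not identically vanishing curvature. -/
structure Geo where
  /-- geodesic flow -/
  Φ : ℝ → T → T
  /-- curvature at the base point -/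
  K : T → ℝ
  /-- `J v y`: Jacobi field along the geodesic of `v` with `J = 1`, `J' = 0` at `y = 0` -/
  J : T → ℝ → ℝ
  /-- its derivative -/
  J1 : T → ℝ → ℝ
  /-- inverse Fermi chart -/
  inv : T → T → T
  /-- Fuchsian group -/
  Γ : Subgroup SL(2, ℝ)
  /-- deck transformations of `T` -/
  Λ : Subgroup (Equiv.Perm T)
  /-- Liouville measure on `T` -/
  μ : Measure T
  /-- fundamental domain of `Λ` -/
  D : Set T
  -- flow
  flow_zero : ∀ v, Φ 0 v = v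
  flow_add : ∀ s t v, Φ (s + t) v = Φ s (Φ t v)
  flow_cont : Continuous fun p : ℝ × T => Φ p.1 p.2
  flow_rev : ∀ t v, Φ t (rot Real.pi v) = rot Real.pi (Φ (-t) v)
  -- curvature
  K_cont : Continuous K
  K_nonpos : ∀ v, K v ≤ 0
  K_rot : ∀ a v, K (rot a v) = K v
  K_ne : ∃ v, K v ≠ 0
  K_smooth : ∀ v, ContDiff ℝ (⊤ : ℕ∞) fun y => K (Φ y v)
  K_bdd : ∀ Q : ℕ, ∃ C : ℝ, ∀ v y, |iteratedDeriv Q (fun y => K (Φ y v)) y| ≤ C
  -- Jacobi fields
  J_zero : ∀ v, J v 0 = 1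
  J1_zero : ∀ v, J1 v 0 = 0
  J_deriv : ∀ v y, HasDerivAt (J v) (J1 v y) y
  J1_deriv : ∀ v y, HasDerivAt (J1 v) (-K (Φ y v) * J v y) y
  J_cont : Continuous fun p : T × ℝ => J p.1 p.2
  J1_cont : Continuous fun p : T × ℝ => J1 p.1 p.2
  -- Fermi charts
  inv_left : ∀ u p, inv u (Psi Φ u p) = p
  inv_right : ∀ u v, Psi Φ u (inv u v) = v
  inv_cont : Continuous fun p : T × T => inv p.1 p.2
  chart_sol : ∀ u p : T, ∃ t y φ : ℝ → ℝ, t 0 = p.1 ∧ y 0 = p.2.1 ∧ φ 0 = p.2.2 ∧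
    ChartSol (fun t y => J (rot (Real.pi / 2) (Φ t u)) y)
      (fun t y => J1 (rot (Real.pi / 2) (Φ t u)) y) t y φ ∧
    ∀ s, Φ s (Psi Φ u p) = Psi Φ u (t s, y s, φ s)
  chart_unique : ∀ (u : T) (t y φ : ℝ → ℝ),
    ChartSol (fun t y => J (rot (Real.pi / 2) (Φ t u)) y)
      (fun t y => J1 (rot (Real.pi / 2) (Φ t u)) y) t y φ →
    ∀ s, Φ s (Psi Φ u (t 0, y 0, φ 0)) = Psi Φ u (t s, y s, φ s)
  vol_chart : ∀ (u : T) (A : Set T), IsOpen A → volume A ≤ μ (Psi Φ u '' A)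
  -- deck group
  Λ_flow : ∀ τ ∈ Λ, ∀ t v, Φ t (τ v) = τ (Φ t v)
  Λ_rot : ∀ τ ∈ Λ, ∀ a v, rot a (τ v) = τ (rot a v)
  Λ_cont : ∀ τ ∈ Λ, Continuous τ
  Λ_K : ∀ τ ∈ Λ, ∀ v, K (τ v) = K v
  Λ_J : ∀ τ ∈ Λ, ∀ v y, J (τ v) y = J v y
  Λ_J1 : ∀ τ ∈ Λ, ∀ v y, J1 (τ v) y = J1 v y
  Λ_base : ∀ τ ∈ Λ, ∃ g ∈ Γ, ∀ v, base (τ v) = g • base v
  Λ_lift : ∀ g ∈ Γ, ∃ τ ∈ Λ, ∀ v, base (τ v) = g • base v
  Λ_triv : ∀ τ ∈ Λ, (∃ v, base (τ v) = base v) → ∃ k : ℤ, ∀ v, τ v = rot (2 * Real.pi * k) v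
  Λ_rot2pi : ∀ k : ℤ, ∃ τ ∈ Λ, ∀ v, τ v = rot (2 * Real.pi * k) v
  Λ_cocompact : ∃ C : Set T, IsCompact C ∧ ∀ v, ∃ τ ∈ Λ, τ v ∈ C
  Λ_countable : Countable Λ
  -- minimal displacement of `Γ` in the hyperbolic metric
  Γ_disp : ∃ ι > 0, ∀ g ∈ Γ, (∃ z : ℍ, dist z (g • z) < ι) → ∀ z : ℍ, g • z = z
  -- Liouville measure on the quotient
  D_meas : MeasurableSet D
  D_fin : μ D < ⊤
  M_flow : ∀ (t : ℝ) (F : T → ℝ≥0∞), Measurable F → (∀ τ ∈ Λ, ∀ v, F (τ v) = F v) →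
    ∫⁻ v in D, F (Φ t v) ∂μ = ∫⁻ v in D, F v ∂μ
  M_rot : ∀ (a : ℝ) (F : T → ℝ≥0∞), Measurable F → (∀ τ ∈ Λ, ∀ v, F (τ v) = F v) →
    ∫⁻ v in D, F (rot a v) ∂μ = ∫⁻ v in D, F v ∂μ
  M_lower : ∀ (Y : Set T) (F : T → ℝ≥0∞) (c : ℝ≥0∞), MeasurableSet Y →
    (∀ τ ∈ Λ, τ ≠ 1 → Disjoint (τ '' Y) Y) → Measurable F → (∀ τ ∈ Λ, ∀ v, F (τ v) = F v) →
    (∀ v ∈ Y, c ≤ F v) → c * μ Y ≤ ∫⁻ v in D, F v ∂μ

namespace Geo

variable (G : Geo)

/-- curvature in the Fermi chart of `u` -/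
noncomputable def Kc (u : T) (t y : ℝ) : ℝ := G.K (Psi G.Φ u (t, y, 0))

/-- the function `G` of the Fermi chart of `u` -/
noncomputable def Gc (u : T) (t y : ℝ) : ℝ := G.J (rot (Real.pi / 2) (G.Φ t u)) y

/-- its `y`-derivative -/
noncomputable def Gc1 (u : T) (t y : ℝ) : ℝ := G.J1 (rot (Real.pi / 2) (G.Φ t u)) y

/-- the almost flat tube condition -/
def Tube (u : T) (n r : ℝ) : Prop := ∀ t y, |t| ≤ n → |y| < r → -G.Kc u t y < (n ^ 3)⁻¹

/-- the width of the almost flat tube at scale `n` -/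
noncomputable def w (n : ℝ) (u : T) : ℝ := sSup {r | 0 ≤ r ∧ G.Tube u n r}

/-- flat vectors: zero curvature along the geodesic -/
def FlatV (u : T) : Prop := ∀ t, G.K (G.Φ t u) = 0

/-- zero curvature between the line of `u` and the curve at distance `b` -/
def Strip (u : T) (b : ℝ) : Prop := ∀ t, ∀ y ∈ uIcc 0 b, G.Kc u t y = 0

/-- the line of `u` is closed in the quotient -/
def Per (u : T) : Prop := ∃ τ ∈ G.Λ, ∃ s : ℝ, s ≠ 0 ∧ τ u = G.Φ s u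

/-- the curvature vanishes to infinite order along the line of `u`, uniformly -/
def InfFlat (u : T) : Prop :=
  ∀ Q : ℕ, ∃ C : ℝ, ∀ t y, |y| ≤ 1 → |G.Kc u t y| ≤ C * |y| ^ Q

end Geo

end H65.Flat
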