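import Pool.Agent.H72.Flat.Isol
import Pool.Agent.H45.Flat.Limit

/-! # Flatness of limits and isolation -/

namespace H65.Flat

open MeasureTheory Set Filter
open scoped ENNReal Topology

/-- Step 4 -/
theorem Geo.infFlat_of_limit (G : Geo) {u : T} (hu : G.FlatV u) {v : ℕ → T}
    (hv : ∀ i, G.FlatV (v i)) (hlim : Tendsto v atTop (𝓝 u)) (hne : ∀ i s, v i ≠ G.Φ s u) :
    G.InfFlat u := H45.Flat.infFlat_of_limit G hu hv hlim hne

end H65.Flat
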