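import Pool.Agent.H65.Flat.NonPer
import Pool.Agent.H65.Flat.Isol
import Pool.Agent.H45.Flat.Limit

/-! # Main theorems in terms of `Geo` -/

namespace H65.Flat

open MeasureTheory Set Filter H45.Flat
open scoped ENNReal Topology

variable (G : Geo)

/-- Step 7 (A): every flat geodesic is closed -/
theorem Geo.per_of_flat {u : T} (hu : G.FlatV u) : G.Per u := by
  by_contra hnp
  obtain ⟨C, hC, hcov⟩ := G.Λ_cocompact
  choose τ hτ hmem using fun n : ℕ => hcov (G.Φ n u)
  set W : ℕ → T := fun n => τ n (G.Φ n u) with hW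
  obtain ⟨v, -, k, hk, hlim⟩ := hC.tendsto_subseq (x := W) hmem
  have hWflat : ∀ n, G.FlatV (W n) := fun n => flat_deck G (flat_flow G hu _) (hτ n)
  have hv : G.FlatV v :=
    (isClosed_flat G).mem_of_tendsto hlim (Eventually.of_forall fun n => hWflat _)
  -- only finitely many terms are on the orbit of `v`
  have hfin : ∀ᶠ n in atTop, ∀ s, W (k n) ≠ G.Φ s v := by
    by_contra hnot
    rw [not_eventually] at hnot
    obtain ⟨j, hj, hjP⟩ := extraction_of_frequently_atTop hnot
    have hjP' : ∀ n, ∃ s, W (k (j n)) = G.Φ s v := by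
      intro n
      have := hjP n
      push Not at this
      exact this
    choose r hr using hjP'
    -- all deck transformations coincide
    have hsame : ∀ n, τ (k (j n)) = τ (k (j 0)) := by
      intro n
      have h1 : τ (k (j n)) (G.Φ (k (j n)) u) = G.Φ (r n) v := hr n
      have h2 : τ (k (j 0)) (G.Φ (k (j 0)) u) = G.Φ (r 0) v := hr 0
      have h3 : τ (k (j n)) (G.Φ (k (j n)) u)
          = τ (k (j 0)) (G.Φ (r n - r 0 + k (j 0)) u) := by
        rw [h1, G.flow_add (r n - r 0), ← G.Λ_flow _ (hτ _), h2, ← G.flow_add,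
          sub_add_cancel]
      set σ : Equiv.Perm T := (τ (k (j 0)))⁻¹ * τ (k (j n)) with hσ
      have hσm : σ ∈ G.Λ := G.Λ.mul_mem (G.Λ.inv_mem (hτ _)) (hτ _)
      have h4 : σ (G.Φ (k (j n)) u) = G.Φ (r n - r 0 + k (j 0)) u := by
        change (τ (k (j 0))).symm (τ (k (j n)) (G.Φ (k (j n)) u)) = _
        rw [h3, Equiv.symm_apply_apply]
      have h5 : σ u = G.Φ (-(k (j n) : ℝ) + (r n - r 0 + k (j 0))) u := by
        rw [← G.Λ_flow σ hσm] at h4
        rw [G.flow_add, ← h4, ← G.flow_add, neg_add_cancel, G.flow_zero]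
      have h6 : -(k (j n) : ℝ) + (r n - r 0 + k (j 0)) = 0 := by
        by_contra hne
        exact hnp ⟨σ, hσm, _, hne, h5⟩
      rw [h6, G.flow_zero] at h5
      obtain ⟨m, hm⟩ := G.Λ_triv σ hσm ⟨u, by rw [h5]⟩
      have h7 : σ = 1 := by
        have h8 := hm u
        rw [h5] at h8
        have h9 : u.2.2 = u.2.2 + 2 * Real.pi * m := by
          conv_lhs => rw [h8]
          rfl
        ext1 w
        rw [hm w]
        have h10 : 2 * Real.pi * (m : ℝ) = 0 := by linarith
        rw [h10, rot_zero]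
        rfl
      rw [hσ, inv_mul_eq_one] at h7
      exact h7.symm
    -- the orbit of `u` converges along a subsequence going to infinity
    set σ := τ (k (j 0)) with hσ
    have h1 : Tendsto (fun n => σ (G.Φ (k (j n)) u)) atTop (𝓝 v) := by
      have := hlim.comp hj.tendsto_atTop
      refine this.congr fun n => ?_
      change τ (k (j n)) (G.Φ (k (j n)) u) = _
      rw [hsame n]
    have h2 : Tendsto (fun n => G.Φ (k (j n)) u) atTop (𝓝 (σ⁻¹ v)) := by
      have h3 := ((G.Λ_cont σ⁻¹ (G.Λ.inv_mem (hτ _))).tendsto v).comp h1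
      refine h3.congr fun n => ?_
      change σ.symm (σ (G.Φ (k (j n)) u)) = _
      rw [Equiv.symm_apply_apply]
    have h3 : Tendsto (fun n => G.inv u (G.Φ (k (j n)) u)) atTop (𝓝 (G.inv u (σ⁻¹ v))) := by
      have h4 : Continuous fun w => G.inv u w :=
        G.inv_cont.comp (continuous_const.prodMk continuous_id)
      exact (h4.tendsto _).comp h2
    have h4 : Tendsto (fun n => (k (j n) : ℝ)) atTop (𝓝 (G.inv u (σ⁻¹ v)).1) := by
      have h5 := (continuous_fst.tendsto _).comp h3
      refine h5.congr fun n => ?_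
      simp [inv_orbit]
    have h5 : Tendsto (fun n => (k (j n) : ℝ)) atTop atTop :=
      tendsto_natCast_atTop_atTop.comp ((hk.comp hj).tendsto_atTop)
    exact not_tendsto_nhds_of_tendsto_atTop h5 _ h4
  obtain ⟨N, hN⟩ := eventually_atTop.1 hfin
  have hlim2 : Tendsto (fun n => W (k (n + N))) atTop (𝓝 v) := by
    have := hlim.comp (tendsto_add_atTop_nat N)
    exact this
  have hinf : G.InfFlat v := G.infFlat_of_limit hv (fun n => hWflat _) hlim2
    (fun n s => hN (n + N) (by omega) s)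
  have hper : G.Per v := G.per_of_infFlat hinf
  obtain ⟨n, hn⟩ := (hlim2.eventually (G.isolated hv hper)).exists
  obtain ⟨t, y, hty, hstrip⟩ := hn (hWflat _)
  have h1 : G.Per (τ (k (n + N)) (G.Φ (k (n + N)) u)) := by
    have := per_of_strip G hper hstrip t
    rw [← hty] at this
    exact this
  exact hnp (per_conj G (hτ _) h1)

/-- Step 7 (B): finitely many parallel classes of flat geodesics -/
theorem Geo.finite_classes : ∃ F : Finset T, (∀ u ∈ F, G.FlatV u) ∧
    ∀ v, G.FlatV v → ∃ τ ∈ G.Λ, ∃ u ∈ F, ∃ t y, τ v = Psi G.Φ u (t, y, 0) ∧ G.Strip u y := by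
  obtain ⟨C, hC, hcov⟩ := G.Λ_cocompact
  have hK : IsCompact (C ∩ {v : T | G.FlatV v}) := hC.inter_right (isClosed_flat G)
  obtain ⟨F, hF, hcover⟩ := hK.elim_nhds_subcover
    (fun u => {v | G.FlatV u → G.FlatV v → ∃ t y, v = Psi G.Φ u (t, y, 0) ∧ G.Strip u y})
    (fun u hu => by
      filter_upwards [G.isolated hu.2 (G.per_of_flat hu.2)] with v hv _
      exact hv)
  refine ⟨F, fun u hu => (hF u hu).2, fun v hv => ?_⟩
  obtain ⟨τ, hτ, hmem⟩ := hcov v
  have hτv := flat_deck G hv hτ
  have h1 := hcover ⟨hmem, hτv⟩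
  simp only [mem_iUnion] at h1
  obtain ⟨u, hu, h2⟩ := h1
  obtain ⟨t, y, h3, h4⟩ := h2 (hF u hu).2 hτv
  exact ⟨τ, hτ, u, hu, t, y, h3, h4⟩

/-- two vectors of a flat strip with the same base point coincide -/
theorem Geo.strip_unique {u : T} {t y t' y' : ℝ}
    (h : base (Psi G.Φ u (t, y, 0)) = base (Psi G.Φ u (t', y', 0))) :
    Psi G.Φ u (t, y, 0) = Psi G.Φ u (t', y', 0) := by
  set v := Psi G.Φ u (t, y, 0) with hv
  set v' := Psi G.Φ u (t', y', 0) with hv'
  have h1 : (base v : ℂ) = (base v' : ℂ) := by rw [h]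
  have hre : v.1 = v'.1 := by
    have := congrArg Complex.re h1
    exact this
  have him : v.2.1 = v'.2.1 := by
    have := congrArg Complex.im h1
    exact Real.exp_injective this
  have h2 : v' = rot (v'.2.2 - v.2.2) v := by
    simp only [rot]
    exact Prod.ext hre.symm (Prod.ext him.symm (by simp))
  have h3 : v' = Psi G.Φ u (t, y, v'.2.2 - v.2.2) := by
    rw [psi_rot, ← hv, ← h2]
  rw [hv'] at h3
  have h4 := psi_inj G h3
  simp only [Prod.mk.injEq] at h4
  rw [hv, hv', h4.1, h4.2.1]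

/-- Step 7 (C): through each base point pass only countably many flat geodesics -/
theorem Geo.countable_flat (x s : ℝ) : {ψ : ℝ | G.FlatV (x, s, ψ)}.Countable := by
  obtain ⟨F, -, hF⟩ := G.finite_classes
  have := G.Λ_countable
  have hsub : {ψ : ℝ | G.FlatV (x, s, ψ)} ⊆ ⋃ (τ : G.Λ) (u : F),
      {ψ : ℝ | ∃ t y, (τ : Equiv.Perm T) (x, s, ψ) = Psi G.Φ (u : T) (t, y, 0)} := by
    intro ψ hψ
    obtain ⟨τ, hτ, u, hu, t, y, h, -⟩ := hF _ hψ
    simp only [mem_iUnion]
    exact ⟨⟨τ, hτ⟩, ⟨u, hu⟩, t, y, h⟩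
  refine Countable.mono hsub (countable_iUnion fun τ => countable_iUnion fun u => ?_)
  refine Set.Subsingleton.countable ?_
  rintro ψ ⟨t, y, h⟩ ψ' ⟨t', y', h'⟩
  obtain ⟨g, -, hg⟩ := G.Λ_base τ τ.2
  have h1 : base (Psi G.Φ (u : T) (t, y, 0)) = base (Psi G.Φ (u : T) (t', y', 0)) := by
    rw [← h, ← h', hg, hg]
    rfl
  have h2 := G.strip_unique h1
  rw [← h, ← h'] at h2
  have h3 := (τ : Equiv.Perm T).injective h2
  simp only [Prod.mk.injEq, true_and] at h3
  exact h3

/-- the set of flat vectors is Lebesgue null -/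
theorem Geo.null_flat : volume {v : T | G.FlatV v} = 0 := by
  have hm : MeasurableSet {v : T | G.FlatV v} := (isClosed_flat G).measurableSet
  have h1 : (volume : Measure T) = (volume : Measure ℝ).prod (volume : Measure (ℝ × ℝ)) := rfl
  rw [h1, Measure.measure_prod_null hm]
  refine Eventually.of_forall fun x => ?_
  have hm2 : MeasurableSet (Prod.mk x ⁻¹' {v : T | G.FlatV v}) := measurable_prodMk_left hm
  have h2 : (volume : Measure (ℝ × ℝ)) = (volume : Measure ℝ).prod (volume : Measure ℝ) := rfl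
  rw [h2, Pi.zero_apply, Measure.measure_prod_null hm2]
  refine Eventually.of_forall fun s => ?_
  exact (G.countable_flat x s).measure_zero _

end H65.Flat
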