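import Pool.Agent.H54.Flat.NonPer

/-! # Decay and the non-periodic lower bound -/

namespace H65.Flat

/-- Step 5: a line along which the curvature vanishes to infinite order is closed -/
theorem Geo.per_of_infFlat (G : Geo) {u : T} (h : G.InfFlat u) : G.Per u :=
  H54.Flat.per_of_infFlat G h

end H65.Flat
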