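import Pool.Agent.H65.Flat.Geo

/-! # Parallel lines in flat strips -/

namespace H65.Flat

open Set Filter
open scoped Topology

theorem prot_rot (a b : ℝ) (v : T) : rot a (rot b v) = rot (b + a) v := by
  simp [rot, add_assoc]

theorem prot_zero (v : T) : rot 0 v = v := by simp [rot]

theorem base_rot (a : ℝ) (v : T) : base (rot a v) = base v := rfl

namespace Geo

variable (G : Geo)

theorem pKc_eq (u : T) (t y : ℝ) :
    G.Kc u t y = G.K (G.Φ y (rot (Real.pi / 2) (G.Φ t u))) := by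
  simp [Kc, Psi, G.K_rot]

theorem pKc_cont : Continuous fun p : T × ℝ × ℝ => G.Kc p.1 p.2.1 p.2.2 := by
  simp_rw [pKc_eq]
  have h1 : Continuous fun p : T × ℝ × ℝ => G.Φ p.2.1 p.1 :=
    G.flow_cont.comp (by fun_prop : Continuous fun p : T × ℝ × ℝ => (p.2.1, p.1))
  have hr : Continuous (rot (Real.pi / 2)) := by unfold rot; fun_prop
  have h2 : Continuous fun p : T × ℝ × ℝ => (p.2.2, rot (Real.pi / 2) (G.Φ p.2.1 p.1)) :=
    (by fun_prop : Continuous fun p : T × ℝ × ℝ => p.2.2).prodMk (hr.comp h1)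
  exact G.K_cont.comp (G.flow_cont.comp h2)

/-- an auxiliary linear ODE fact -/
theorem J_const_of_K_zero (v : T) (b : ℝ) (h : ∀ y ∈ uIcc 0 b, G.K (G.Φ y v) = 0) :
    ∀ y ∈ uIcc 0 b, G.J v y = 1 ∧ G.J1 v y = 0 := by
  have hconv : Convex ℝ (uIcc (0 : ℝ) b) := convex_uIcc 0 b
  have h0 : (0 : ℝ) ∈ uIcc 0 b := left_mem_uIcc
  have h1 : ∀ y ∈ uIcc 0 b, G.J1 v y = 0 := by
    intro y hy
    have := hconv.norm_image_sub_le_of_norm_hasDerivWithin_le (f := G.J1 v)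
      (f' := fun y => -G.K (G.Φ y v) * G.J v y) (C := 0) (x := 0) (y := y)
      (fun z hz => (G.J1_deriv v z).hasDerivWithinAt) (fun z hz => by simp [h z hz]) h0 hy
    rw [G.J1_zero] at this
    simpa using this
  intro y hy
  refine ⟨?_, h1 y hy⟩
  have := hconv.norm_image_sub_le_of_norm_hasDerivWithin_le (f := G.J v)
    (f' := G.J1 v) (C := 0) (x := 0) (y := y)
    (fun z hz => (G.J_deriv v z).hasDerivWithinAt) (fun z hz => by simp [h1 z hz]) h0 hy
  rw [G.J_zero] at this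
  have h2 : ‖G.J v y - 1‖ = 0 := le_antisymm (by simpa using this) (norm_nonneg _)
  have := norm_eq_zero.1 h2
  linarith

theorem Strip.G_eq {G : Geo} {u : T} {b : ℝ} (h : G.Strip u b) (t : ℝ) {y : ℝ}
    (hy : y ∈ uIcc 0 b) : G.Gc u t y = 1 ∧ G.Gc1 u t y = 0 := by
  apply G.J_const_of_K_zero _ b _ y hy
  intro z hz
  rw [← pKc_eq]
  exact h t z hz

theorem strip_zero {u : T} : G.Strip u 0 ↔ G.FlatV u := by
  constructor
  · intro h t
    have := h t 0 (by simp)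
    rw [pKc_eq, G.flow_zero, G.K_rot] at this
    exact this
  · intro h t y hy
    simp only [uIcc_self, mem_singleton_iff] at hy
    subst hy
    rw [pKc_eq, G.flow_zero, G.K_rot]
    exact h t

theorem Strip.mono {G : Geo} {u : T} {b c : ℝ} (h : G.Strip u b) (hc : c ∈ uIcc 0 b) :
    G.Strip u c := by
  intro t y hy
  apply h t y
  rw [mem_uIcc] at hy hc ⊢
  grind

theorem Strip.flat {G : Geo} {u : T} {b : ℝ} (h : G.Strip u b) : G.FlatV u :=
  G.strip_zero.1 (h.mono left_mem_uIcc)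

/-- a parallel line in a flat strip is a geodesic -/
theorem Strip.flow {G : Geo} {u : T} {b : ℝ} (h : G.Strip u b) (t₀ s : ℝ) :
    G.Φ s (Psi G.Φ u (t₀, b, 0)) = Psi G.Φ u (t₀ + s, b, 0) := by
  have hb : b ∈ uIcc 0 b := right_mem_uIcc
  have := G.chart_unique u (fun s => t₀ + s) (fun _ => b) (fun _ => 0) (by
    intro s
    have hG := (h.G_eq (t₀ + s) hb)
    unfold Gc Gc1 at hG
    refine ⟨?_, ?_, ?_⟩
    · simp only [Real.cos_zero, hG.1, div_one]
      simpa using (hasDerivAt_id s).const_add t₀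
    · simp only [Real.sin_zero]
      exact hasDerivAt_const s b
    · simp only [hG.2, zero_div, zero_mul]
      exact hasDerivAt_const s 0) s
  simpa using this

theorem psi_shift (u : T) (t y a φ : ℝ) :
    rot a (Psi G.Φ u (t, y, φ)) = Psi G.Φ u (t, y, φ + a) := by
  simp [Psi, prot_rot]
  congr 1
  ring

/-- Fermi charts of parallel lines of a flat strip -/
theorem Strip.psi_trans {G : Geo} {u : T} {b : ℝ} (h : G.Strip u b) (t₀ t y φ : ℝ) :
    Psi G.Φ (Psi G.Φ u (t₀, b, 0)) (t, y, φ) = Psi G.Φ u (t₀ + t, b + y, φ) := by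
  have h1 : rot (Real.pi / 2) (Psi G.Φ u (t₀ + t, b, 0))
      = G.Φ b (rot (Real.pi / 2) (G.Φ (t₀ + t) u)) := by
    simp [Psi, prot_rot, prot_zero]
  conv_lhs => unfold Psi
  simp only
  change rot (φ - Real.pi / 2) (G.Φ y (rot (Real.pi / 2) (G.Φ t (Psi G.Φ u (t₀, b, 0))))) = _
  rw [h.flow t₀ t, h1, ← G.flow_add, add_comm y b]
  rfl

theorem Strip.Kc_trans {G : Geo} {u : T} {b : ℝ} (h : G.Strip u b) (t₀ t y : ℝ) :
    G.Kc (Psi G.Φ u (t₀, b, 0)) t y = G.Kc u (t₀ + t) (b + y) := by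
  unfold Kc
  rw [h.psi_trans]

/-- equivariance of the charts under deck transformations -/
theorem psi_deck {τ : Equiv.Perm T} (hτ : τ ∈ G.Λ) (u p : T) :
    Psi G.Φ (τ u) p = τ (Psi G.Φ u p) := by
  unfold Psi
  rw [G.Λ_flow τ hτ, G.Λ_rot τ hτ, G.Λ_flow τ hτ, G.Λ_rot τ hτ]

theorem Kc_deck {τ : Equiv.Perm T} (hτ : τ ∈ G.Λ) (u : T) (t y : ℝ) :
    G.Kc (τ u) t y = G.Kc u t y := by
  unfold Kc
  rw [psi_deck G hτ, G.Λ_K τ hτ]

theorem strip_deck {τ : Equiv.Perm T} (hτ : τ ∈ G.Λ) (u : T) (b : ℝ) :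
    G.Strip (τ u) b ↔ G.Strip u b := by
  unfold Strip
  simp_rw [Kc_deck G hτ]

theorem flat_deck {τ : Equiv.Perm T} (hτ : τ ∈ G.Λ) (u : T) :
    G.FlatV (τ u) ↔ G.FlatV u := by
  rw [← strip_zero, ← strip_zero, strip_deck G hτ]

/-- parallel lines in a flat strip are flat -/
theorem Strip.flat_psi {G : Geo} {u : T} {b : ℝ} (h : G.Strip u b) (t : ℝ) :
    G.FlatV (Psi G.Φ u (t, b, 0)) := by
  intro s
  rw [h.flow t s]
  exact h (t + s) b right_mem_uIcc

theorem flat_flow {u : T} (h : G.FlatV u) (t : ℝ) : G.FlatV (G.Φ t u) := by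
  intro s
  rw [← G.flow_add]
  exact h _

/-- periodicity is inherited by parallel lines -/
theorem Strip.per {G : Geo} {u : T} {b : ℝ} (h : G.Strip u b) (hp : G.Per u) (t : ℝ) :
    G.Per (Psi G.Φ u (t, b, 0)) := by
  obtain ⟨τ, hτ, s, hs, hu⟩ := hp
  refine ⟨τ, hτ, s, hs, ?_⟩
  rw [← psi_deck G hτ, hu, h.flow]
  unfold Psi
  simp only
  rw [← G.flow_add]

theorem per_deck {τ : Equiv.Perm T} (hτ : τ ∈ G.Λ) {u : T} (h : G.Per (τ u)) : G.Per u := by
  obtain ⟨σ, hσ, s, hs, hu⟩ := h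
  refine ⟨τ⁻¹ * σ * τ, G.Λ.mul_mem (G.Λ.mul_mem (G.Λ.inv_mem hτ) hσ) hτ, s, hs, ?_⟩
  simp only [Equiv.Perm.coe_mul, Function.comp_apply]
  rw [hu, G.Λ_flow τ hτ]
  simp

theorem per_flow {u : T} {t : ℝ} (h : G.Per (G.Φ t u)) : G.Per u := by
  obtain ⟨σ, hσ, s, hs, hu⟩ := h
  refine ⟨σ, hσ, s, hs, ?_⟩
  have := congrArg (G.Φ (-t)) hu
  rw [G.Λ_flow σ hσ, ← G.flow_add, ← G.flow_add, ← G.flow_add, neg_add_cancel, G.flow_zero] at this
  rw [this]
  congr 1
  ring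

end Geo

end H65.Flat
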