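import Pool.Agent.H65.Flat.Bridge
import Pool.Agent.H65.Flat.Build
import Pool.Agent.H65.Flat.Par

/-! # Flat strips and the phase space: analysis -/

namespace H65.Flat

open Set
open scoped UpperHalfPlane MatrixGroups Topology

/-- derivative of the base point -/
noncomputable def baseL (v : T) : T →L[ℝ] ℂ :=
  ((ContinuousLinearMap.fst ℝ ℝ (ℝ × ℝ)).smulRight (1 : ℂ)) +
    (((ContinuousLinearMap.fst ℝ ℝ ℝ).comp (ContinuousLinearMap.snd ℝ ℝ (ℝ × ℝ))).smulRight
      ((Real.exp v.2.1 : ℝ) * Complex.I : ℂ))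

theorem baseL_apply (v w : T) : baseL v w = (w.1 : ℂ) + (w.2.1 : ℂ) * ((Real.exp v.2.1 : ℝ) * Complex.I) := by
  simp [baseL]

theorem base_coe (v : T) : ((base v : ℍ) : ℂ) = (v.1 : ℂ) + (Real.exp v.2.1 : ℝ) * Complex.I := by
  apply Complex.ext
  · simp [base, -Complex.ofReal_exp]
  · simp [base, -Complex.ofReal_exp]

theorem base_contDiff : ContDiff ℝ (⊤ : ℕ∞) fun v : T => ((base v : ℍ) : ℂ) := by
  simp_rw [base_coe]
  have h : ContDiff ℝ (⊤ : ℕ∞) (fun x : ℝ => (x : ℂ)) := Complex.ofRealCLM.contDiff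
  have h1 : ContDiff ℝ (⊤ : ℕ∞) fun v : T => (v.1 : ℂ) := h.comp (by fun_prop)
  have h2 : ContDiff ℝ (⊤ : ℕ∞) fun v : T => ((Real.exp v.2.1 : ℝ) : ℂ) := h.comp (by fun_prop)
  exact h1.add (h2.mul contDiff_const)

theorem hasFDerivAt_base (v : T) :
    HasFDerivAt (fun v : T => ((base v : ℍ) : ℂ)) (baseL v) v := by
  have h1 : HasFDerivAt (fun v : T => (v.1 : ℂ))
      (Complex.ofRealCLM.comp (ContinuousLinearMap.fst ℝ ℝ (ℝ × ℝ))) v :=
    Complex.ofRealCLM.hasFDerivAt.comp v (hasFDerivAt_fst)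
  have h2 : HasFDerivAt (fun v : T => Real.exp v.2.1)
      (Real.exp v.2.1 • ((ContinuousLinearMap.fst ℝ ℝ ℝ).comp
        (ContinuousLinearMap.snd ℝ ℝ (ℝ × ℝ)))) v := by
    have : HasFDerivAt (fun v : T => v.2.1) ((ContinuousLinearMap.fst ℝ ℝ ℝ).comp
        (ContinuousLinearMap.snd ℝ ℝ (ℝ × ℝ))) v :=
      ((ContinuousLinearMap.fst ℝ ℝ ℝ).comp
        (ContinuousLinearMap.snd ℝ ℝ (ℝ × ℝ))).hasFDerivAt
    exact this.exp
  have h3 : HasFDerivAt (fun v : T => ((Real.exp v.2.1 : ℝ) : ℂ))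
      (Complex.ofRealCLM.comp (Real.exp v.2.1 • ((ContinuousLinearMap.fst ℝ ℝ ℝ).comp
        (ContinuousLinearMap.snd ℝ ℝ (ℝ × ℝ))))) v :=
    Complex.ofRealCLM.hasFDerivAt.comp v h2
  have h4 := h1.add (h3.mul_const Complex.I)
  have h5 : (fun v : T => ((base v : ℍ) : ℂ))
      = ((fun v : T => (v.1 : ℂ)) + fun v : T => ((Real.exp v.2.1 : ℝ) : ℂ) * Complex.I) := by
    funext v
    simpa using base_coe v
  rw [h5]
  refine h4.congr_fderiv ?_
  ext
  all_goals simp [baseL, mul_comm]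

section Main

variable {S : Surface} {Q : Pre2} (hU : Q.U = fun p => S.u (zz p))

include hU in
theorem sigma_base (v : T) : S.σ (base v) = Q.U (bp v) - v.2.1 := by
  rw [hU]
  simp only [Surface.σ, UpperHalfPlane.ofComplex_apply]
  have h1 : ((base v : ℍ) : ℂ).im = Real.exp v.2.1 := by simp [base]
  rw [h1, Real.log_exp]
  rfl

include hU in
theorem baseL_X (v : T) : baseL v (fieldX Q.U v) = S.dir v := by
  rw [baseL_apply, Surface.dir, sigma_base hU, Complex.exp_mul_I, fieldX]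
  simp only
  have h1 : Real.exp (v.2.1 - Q.U (bp v)) = Real.exp (-(Q.U (bp v) - v.2.1)) := by ring_nf
  have h2 : Real.exp (-Q.U (bp v)) * Real.exp v.2.1 = Real.exp (-(Q.U (bp v) - v.2.1)) := by
    rw [← Real.exp_add]; ring_nf
  rw [h1]
  rw [← h2]
  push_cast
  ring

include hU in
theorem baseL_H (v : T) : baseL v (fieldH Q.U v) = Complex.I * S.dir v := by
  rw [baseL_apply, Surface.dir, sigma_base hU, Complex.exp_mul_I, fieldH]
  simp only
  have h1 : Real.exp (v.2.1 - Q.U (bp v)) = Real.exp (-(Q.U (bp v) - v.2.1)) := by ring_nf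
  have h2 : Real.exp (-Q.U (bp v)) * Real.exp v.2.1 = Real.exp (-(Q.U (bp v) - v.2.1)) := by
    rw [← Real.exp_add]; ring_nf
  rw [h1]
  rw [← h2]
  push_cast
  have : Complex.I * Complex.I = -1 := Complex.I_mul_I
  linear_combination (-(Complex.exp (-(Q.U (bp v) : ℂ)) * Complex.exp (v.2.1 : ℂ) *
    Complex.sin (v.2.2 : ℂ))) * this

theorem baseL_V (v : T) : baseL v fieldV = 0 := by
  rw [baseL_apply]
  simp [fieldV]

theorem norm_dir (v : T) : ‖S.dir v‖ = Real.exp (-S.σ (base v)) := by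
  rw [Surface.dir, norm_mul, Complex.norm_exp_ofReal_mul_I, mul_one, Complex.norm_real,
    Real.norm_eq_abs, abs_of_pos (Real.exp_pos _)]

theorem dir_rot (a : ℝ) (v : T) :
    S.dir (rot a v) = Complex.exp ((a : ℂ) * Complex.I) * S.dir v := by
  simp only [Surface.dir, base_rot]
  simp only [rot]
  push_cast
  rw [add_mul, Complex.exp_add]
  ring

include hU in
/-- derivative of the base point of the Fermi chart along a line of angle `0` -/
theorem hasFDerivAt_base_psi (u : T) (t y : ℝ) :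
    ∃ L : ℝ × ℝ →L[ℝ] ℂ, HasFDerivAt (fun p : ℝ × ℝ => ((base (Psi Q.Φ u (p.1, p.2, 0)) : ℍ) : ℂ))
      L (t, y) ∧ ∀ a c : ℝ, L (a, c) = ((a * Q.J (rot (Real.pi / 2) (Q.Φ t u)) y : ℝ) +
        (c : ℂ) * Complex.I) * S.dir (Psi Q.Φ u (t, y, 0)) := by
  obtain ⟨h1, h2, h3, h4⟩ := Q.psi_hasFDerivAt u (t, y, 0)
  have hι : HasFDerivAt (fun p : ℝ × ℝ => ((p.1, p.2, 0) : T))
      ((ContinuousLinearMap.fst ℝ ℝ ℝ).prod ((ContinuousLinearMap.snd ℝ ℝ ℝ).prod 0)) (t, y) :=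
    hasFDerivAt_fst.prodMk (hasFDerivAt_snd.prodMk (hasFDerivAt_const _ _))
  have h5 := (hasFDerivAt_base (Psi Q.Φ u (t, y, 0))).comp (t, y) (h1.comp (t, y) hι)
  refine ⟨_, h5, ?_⟩
  intro a c
  simp only [ContinuousLinearMap.comp_apply, ContinuousLinearMap.prod_apply,
    ContinuousLinearMap.coe_fst', ContinuousLinearMap.coe_snd', _root_.zero_apply]
  have hdec : ((a, c, 0) : T) = a • ((1, 0, 0) : T) + c • ((0, 1, 0) : T) := by
    simp
  rw [hdec, map_add, map_smul, map_smul, h2, h3]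
  simp only [Real.cos_zero, Real.sin_zero, mul_one, mul_zero, zero_smul, sub_zero, zero_add,
    one_smul, map_add, map_sub, map_smul, baseL_V, smul_zero]
  rw [baseL_X hU, baseL_H hU]
  simp only [Complex.real_smul]
  push_cast
  ring

theorem base_psi_contDiff (u : T) : ContDiff ℝ (⊤ : ℕ∞)
    fun p : ℝ × ℝ => ((base (Psi Q.Φ u (p.1, p.2, 0)) : ℍ) : ℂ) := by
  have h1 : ContDiff ℝ (⊤ : ℕ∞) fun p : ℝ × ℝ => Psi Q.Φ u (p.1, p.2, 0) :=
    Q.psi_smooth.comp (contDiff_const.prodMk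
      (contDiff_fst.prodMk (contDiff_snd.prodMk contDiff_const)))
  exact base_contDiff.comp h1

variable {G : Geo} (hΦ : G.Φ = Q.Φ) (hJ : G.J = Q.J) (hJ1 : G.J1 = Q.J1)

include hΦ hJ hJ1 in
/-- straight lines in a flat strip are geodesics -/
theorem straight_line {v : T} {b : ℝ} (hs : G.Strip v b) (t y θ s : ℝ) (hy : y ∈ uIcc 0 b)
    (hy' : y + s * Real.sin θ ∈ uIcc 0 b) :
    Q.Φ s (Psi Q.Φ v (t, y, θ)) = Psi Q.Φ v (t + s * Real.cos θ, y + s * Real.sin θ, θ) := by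
  have hsm : ContDiff ℝ 1 (fieldX Q.U) := (fieldX_smooth Q.U_smooth).of_le (by simp)
  have key : ∀ r : ℝ, y + r * Real.sin θ ∈ uIcc 0 b → HasDerivAt
      (fun r : ℝ => Psi Q.Φ v (t + r * Real.cos θ, y + r * Real.sin θ, θ))
      (fieldX Q.U (Psi Q.Φ v (t + r * Real.cos θ, y + r * Real.sin θ, θ))) r := by
    intro r hr
    obtain ⟨h1, h2, h3, h4⟩ := Q.psi_hasFDerivAt v (t + r * Real.cos θ, y + r * Real.sin θ, θ)
    have hι : HasDerivAt (fun r : ℝ => ((t + r * Real.cos θ, y + r * Real.sin θ, θ) : T))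
        (Real.cos θ, Real.sin θ, 0) r := by
      have e1 : HasDerivAt (fun r : ℝ => t + r * Real.cos θ) (Real.cos θ) r := by
        simpa using ((hasDerivAt_id r).mul_const (Real.cos θ)).const_add t
      have e2 : HasDerivAt (fun r : ℝ => y + r * Real.sin θ) (Real.sin θ) r := by
        simpa using ((hasDerivAt_id r).mul_const (Real.sin θ)).const_add y
      exact e1.prodMk (e2.prodMk (hasDerivAt_const r θ))
    have h5 := h1.comp_hasDerivAt r hι
    have hG := hs.G_eq (t + r * Real.cos θ) hr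
    unfold Geo.Gc Geo.Gc1 at hG
    rw [hJ, hJ1, hΦ] at hG
    have hval : fderiv ℝ (Psi Q.Φ v) (t + r * Real.cos θ, y + r * Real.sin θ, θ)
        (Real.cos θ, Real.sin θ, 0)
        = fieldX Q.U (Psi Q.Φ v (t + r * Real.cos θ, y + r * Real.sin θ, θ)) := by
      have hdec : ((Real.cos θ, Real.sin θ, 0) : T)
          = Real.cos θ • ((1, 0, 0) : T) + Real.sin θ • ((0, 1, 0) : T) := by simp
      rw [hdec, map_add, map_smul, map_smul, h2, h3, hG.1, hG.2]
      have hsc : Real.cos θ * Real.cos θ + Real.sin θ * Real.sin θ = 1 := by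
        have := Real.sin_sq_add_cos_sq θ
        nlinarith
      generalize fieldX Q.U (Psi Q.Φ v (t + r * Real.cos θ, y + r * Real.sin θ, θ)) = X
      generalize fieldH Q.U (Psi Q.Φ v (t + r * Real.cos θ, y + r * Real.sin θ, θ)) = H
      have : Real.cos θ • ((1 * Real.cos θ) • X - (1 * Real.sin θ) • H - (0 : ℝ) • fieldV)
          + Real.sin θ • (Real.sin θ • X + Real.cos θ • H)
          = (Real.cos θ * Real.cos θ + Real.sin θ * Real.sin θ) • X := by module
      rw [this, hsc, one_smul]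
    rw [hval] at h5
    exact h5
  -- uniqueness on the interval between `0` and `s`
  have hmem : ∀ r ∈ Icc (min 0 s) (max 0 s), y + r * Real.sin θ ∈ uIcc 0 b := by
    intro r hr
    have hc : Convex ℝ (uIcc 0 b) := convex_uIcc 0 b
    rcases eq_or_ne s 0 with h0 | h0
    · subst h0
      simp only [min_self, max_self, Icc_self, mem_singleton_iff] at hr
      subst hr
      simpa using hy
    · have hr' : 0 ≤ r / s ∧ r / s ≤ 1 := by
        rcases lt_or_gt_of_ne h0 with h | h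
        · rw [min_eq_right h.le, max_eq_left h.le] at hr
          exact ⟨div_nonneg_of_nonpos hr.2 h.le, (div_le_one_of_neg h).2 hr.1⟩
        · rw [min_eq_left h.le, max_eq_right h.le] at hr
          exact ⟨div_nonneg hr.1 h.le, (div_le_one h).2 hr.2⟩
      have := hc hy hy' (sub_nonneg.2 hr'.2) hr'.1 (by ring)
      convert this using 1
      simp only [smul_eq_mul]
      field_simp
      ring
  have := ODE.sol_unique hsm (γ₁ := fun r => Q.Φ r (Psi Q.Φ v (t, y, θ)))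
    (γ₂ := fun r : ℝ => Psi Q.Φ v (t + r * Real.cos θ, y + r * Real.sin θ, θ))
    (a := min 0 s) (b := max 0 s) (t₀ := 0) ⟨min_le_left _ _, le_max_left _ _⟩
    (fun r _ => Q.Φ_deriv _ r) (fun r hr => key r (hmem r hr)) (by simp [Q.Φ_zero])
    s ⟨min_le_right _ _, le_max_right _ _⟩
  exact this

include hU hΦ hJ hJ1 in
/-- a strip of zero curvature next to the line of `v` is a flat strip -/
theorem isFlatStrip_of_strip {v : T} {b : ℝ} (hb : 0 < b) (hs : G.Strip v b) :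
    S.IsFlatStrip b (fun p => base (Psi G.Φ v (p.1, p.2, 0))) := by
  rw [hΦ]
  have hD : UniqueDiffOn ℝ (univ ×ˢ Icc 0 b : Set (ℝ × ℝ)) :=
    uniqueDiffOn_univ.prod (uniqueDiffOn_Icc hb)
  have hG : ∀ t, ∀ y ∈ Icc 0 b, Q.J (rot (Real.pi / 2) (Q.Φ t v)) y = 1 := by
    intro t y hy
    have := (hs.G_eq t (y := y) (by rwa [uIcc_of_le hb.le])).1
    unfold Geo.Gc at this
    rwa [hJ, hΦ] at this
  refine ⟨hb, (base_psi_contDiff v).contDiffOn, ?_, ?_⟩
  · rintro ⟨t, y⟩ hp w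
    obtain ⟨L, hL1, hL2⟩ := hasFDerivAt_base_psi hU v t y
    have h1 : fderivWithin ℝ (fun p : ℝ × ℝ => ((base (Psi Q.Φ v (p.1, p.2, 0)) : ℍ) : ℂ))
        (univ ×ˢ Icc 0 b) (t, y) = L := hL1.hasFDerivWithinAt.fderivWithin (hD _ hp)
    rw [h1]
    have h2 : L w = L (w.1, w.2) := rfl
    rw [h2, hL2, hG t y hp.2, norm_mul, norm_dir, mul_one]
    have h3 : ‖((w.1 : ℝ) : ℂ) + (w.2 : ℂ) * Complex.I‖ = Real.sqrt (w.1 ^ 2 + w.2 ^ 2) := by
      rw [Complex.norm_add_mul_I]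
    rw [h3]
    have h4 : Real.exp (S.σ (base (Psi Q.Φ v (t, y, 0))))
        * Real.exp (-S.σ (base (Psi Q.Φ v (t, y, 0)))) = 1 := by
      rw [← Real.exp_add]; simp
    calc _ = (Real.exp (S.σ (base (Psi Q.Φ v (t, y, 0))))
        * Real.exp (-S.σ (base (Psi Q.Φ v (t, y, 0))))) * Real.sqrt (w.1 ^ 2 + w.2 ^ 2) := by ring
      _ = _ := by rw [h4, one_mul]
  · rintro ⟨t, y⟩ hp θ
    set v₀ := Psi Q.Φ v (t, y, θ) with hv₀
    refine ⟨fun s => S.dir (Q.Φ s v₀), fun s => S.acc (base (Q.Φ s v₀)) (S.dir (Q.Φ s v₀)), ?_⟩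
    intro s hsI
    have hbase : ∀ r ∈ {s : ℝ | y + s * Real.sin θ ∈ Icc 0 b},
        base (Psi Q.Φ v (t + r * Real.cos θ, y + r * Real.sin θ, 0)) = base (Q.Φ r v₀) := by
      intro r hr
      rw [straight_line hΦ hJ hJ1 hs t y θ r (by rw [uIcc_of_le hb.le]; exact hp.2)
        (by rw [uIcc_of_le hb.le]; exact hr)]
      rfl
    have hb1 := S.hasDerivAt_base Q.toPre hU v₀ s
    have hb2 := S.hasDerivAt_dir Q.toPre hU v₀ s
    have hs' := hbase s hsI
    refine ⟨?_, hb2.hasDerivWithinAt, ?_, ?_⟩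
    · refine hb1.hasDerivWithinAt.congr (fun r hr => ?_) ?_
      · simp only
        rw [hbase r hr]
      · simp only
        rw [hs']
    · simp only
      rw [hs', norm_dir, ← Real.exp_add]
      simp
    · simp only
      rw [hs']

end Main

end H65.Flat
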