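import Pool.Agent.H65.Flat.StripA

/-! # From flat strips (basic definition) to strips in the phase space -/

namespace H65.Flat

open Set
open scoped UpperHalfPlane MatrixGroups Topology

/-- two complex numbers spanning a conformal frame -/
theorem conformal_pair {κ : ℝ} {A B : ℂ}
    (h : ∀ a b : ℝ, κ * ‖(a : ℂ) * A + (b : ℂ) * B‖ = Real.sqrt (a ^ 2 + b ^ 2)) :
    A ≠ 0 ∧ (B = Complex.I * A ∨ B = -(Complex.I * A)) := by
  have hA := h 1 0
  have hB := h 0 1
  have hAB := h 1 1
  simp only [Complex.ofReal_one, Complex.ofReal_zero, one_mul, zero_mul, add_zero, zero_add,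
    one_pow, ne_eq, OfNat.ofNat_ne_zero, not_false_eq_true, zero_pow, Real.sqrt_one] at hA hB hAB
  have hA0 : A ≠ 0 := by
    rintro rfl
    simp at hA
  have hκ : κ ≠ 0 := by
    rintro rfl
    simp at hA
  refine ⟨hA0, ?_⟩
  have e1 : κ ^ 2 * Complex.normSq A = 1 := by
    rw [← Complex.sq_norm, ← mul_pow, hA, one_pow]
  have e2 : κ ^ 2 * Complex.normSq B = 1 := by
    rw [← Complex.sq_norm, ← mul_pow, hB, one_pow]
  have e3 : κ ^ 2 * Complex.normSq (A + B) = 2 := by
    rw [← Complex.sq_norm, ← mul_pow, hAB, Real.sq_sqrt (by norm_num)]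
    norm_num
  rw [Complex.normSq_apply] at e1 e2 e3
  simp only [Complex.add_re, Complex.add_im] at e3
  have hκ2 : κ ^ 2 ≠ 0 := pow_ne_zero _ hκ
  have e4 : A.re * B.re + A.im * B.im = 0 := by
    have : κ ^ 2 * (A.re * B.re + A.im * B.im) = 0 := by nlinarith
    exact (mul_eq_zero.1 this).resolve_left hκ2
  have e5 : A.re * A.re + A.im * A.im = B.re * B.re + B.im * B.im := by
    have : κ ^ 2 * ((A.re * A.re + A.im * A.im) - (B.re * B.re + B.im * B.im)) = 0 := by
      rw [mul_sub, e1, e2, sub_self]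
    have := (mul_eq_zero.1 this).resolve_left hκ2
    linarith
  have hN : 0 < A.re * A.re + A.im * A.im := by
    have := Complex.normSq_pos.2 hA0
    rwa [Complex.normSq_apply] at this
  -- (A.re B.im - A.im B.re)^2 = |A|^2|B|^2
  have e6 : (A.re * B.im - A.im * B.re) ^ 2 = (A.re * A.re + A.im * A.im) ^ 2 := by
    have : (A.re * B.im - A.im * B.re) ^ 2 + (A.re * B.re + A.im * B.im) ^ 2
        = (A.re * A.re + A.im * A.im) * (B.re * B.re + B.im * B.im) := by ring
    rw [e4, ← e5] at this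
    nlinarith
  rcases sq_eq_sq_iff_eq_or_eq_neg.1 e6 with h6 | h6
  · left
    apply Complex.ext
    · simp only [Complex.mul_re, Complex.I_re, zero_mul, Complex.I_im, one_mul, zero_sub]
      have : (A.re * A.re + A.im * A.im) * (B.re + A.im) = 0 := by
        linear_combination A.re * e4 + (-A.im) * h6
      have := (mul_eq_zero.1 this).resolve_left hN.ne'
      linarith
    · simp only [Complex.mul_im, Complex.I_re, zero_mul, Complex.I_im, one_mul, zero_add]
      have : (A.re * A.re + A.im * A.im) * (B.im - A.re) = 0 := by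
        linear_combination A.im * e4 + A.re * h6
      have := (mul_eq_zero.1 this).resolve_left hN.ne'
      linarith
  · right
    apply Complex.ext
    · simp only [Complex.neg_re, Complex.mul_re, Complex.I_re, zero_mul, Complex.I_im, one_mul,
        zero_sub, neg_neg]
      have : (A.re * A.re + A.im * A.im) * (B.re - A.im) = 0 := by
        linear_combination A.re * e4 + (-A.im) * h6
      have := (mul_eq_zero.1 this).resolve_left hN.ne'
      linarith
    · simp only [Complex.neg_im, Complex.mul_im, Complex.I_re, zero_mul, Complex.I_im, one_mul,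
        zero_add]
      have : (A.re * A.re + A.im * A.im) * (B.im + A.re) = 0 := by
        linear_combination A.im * e4 + A.re * h6
      have := (mul_eq_zero.1 this).resolve_left hN.ne'
      linarith

/-- a unit vector with prescribed base point and direction -/
theorem exists_vec (S : Surface) (z : ℍ) (c : ℂ) (hc : Real.exp (S.σ z) * ‖c‖ = 1) :
    ∃ v : T, base v = z ∧ S.dir v = c := by
  refine ⟨(z.re, Real.log z.im, c.arg), ?_, ?_⟩
  · apply UpperHalfPlane.ext
    apply Complex.ext
    · simp [base]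
    · simp only [base]
      rw [Real.exp_log z.im_pos]
      rfl
  · have hb : base (z.re, Real.log z.im, c.arg) = z := by
      apply UpperHalfPlane.ext
      apply Complex.ext
      · simp [base]
      · simp only [base]
        rw [Real.exp_log z.im_pos]
        rfl
    rw [Surface.dir, hb]
    simp only
    have h1 : Real.exp (-S.σ z) = ‖c‖ := by
      rw [Real.exp_neg]
      field_simp
      linarith
    rw [h1]
    exact Complex.norm_mul_exp_arg_mul_I c

section Main

variable {S : Surface} {Q : Pre2} (hU : Q.U = fun p => S.u (zz p))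
variable {G : Geo} (hΦ : G.Φ = Q.Φ) (hJ : G.J = Q.J) (hJ1 : G.J1 = Q.J1)

include hU hΦ hJ hJ1 in
/-- every flat strip is a strip of zero curvature next to the line of a unit vector -/
theorem strip_of_isFlatStrip {w : ℝ} {F : ℝ × ℝ → ℍ} (hF : S.IsFlatStrip w F) :
    ∃ (v : T) (δ : ℝ), (δ = 1 ∨ δ = -1) ∧ G.Strip v (δ * w) ∧
      ∀ t, ∀ y ∈ Icc 0 w, F (t, y) = base (Psi G.Φ v (t, δ * y, 0)) := by
  obtain ⟨hw, hsm, hiso, hgeo⟩ := hF
  have hD : UniqueDiffOn ℝ (univ ×ˢ Icc 0 w : Set (ℝ × ℝ)) :=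
    uniqueDiffOn_univ.prod (uniqueDiffOn_Icc hw)
  set Sg : Set (ℝ × ℝ) := univ ×ˢ Icc 0 w with hSg
  set f : ℝ × ℝ → ℂ := fun p => (F p : ℂ) with hf
  have hdiff : ∀ p ∈ Sg, HasFDerivWithinAt f (fderivWithin ℝ f Sg p) Sg p := fun p hp =>
    ((hsm p hp).differentiableWithinAt (by simp)).hasFDerivWithinAt
  have hcont : ContinuousOn (fderivWithin ℝ f Sg) Sg :=
    hsm.continuousOn_fderivWithin hD (by simp)
  have h0w : (0 : ℝ) ∈ Icc 0 w := ⟨le_rfl, hw.le⟩
  -- horizontal and vertical derivatives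
  have hhor : ∀ y ∈ Icc 0 w, ∀ t, HasDerivAt (fun t => f (t, y)) (fderivWithin ℝ f Sg (t, y) (1, 0)) t := by
    intro y hy t
    have h1 : HasDerivWithinAt (fun t : ℝ => ((t, y) : ℝ × ℝ)) (1, 0) univ t :=
      ((hasDerivAt_id t).prodMk (hasDerivAt_const t y)).hasDerivWithinAt
    have hm : MapsTo (fun t : ℝ => ((t, y) : ℝ × ℝ)) univ Sg := fun s _ => ⟨mem_univ _, hy⟩
    have h2 := (hdiff (t, y) ⟨mem_univ _, hy⟩).comp_hasDerivWithinAt t h1 hm
    exact hasDerivWithinAt_univ.1 h2
  have hver : ∀ t, ∀ y ∈ Icc 0 w, HasDerivWithinAt (fun y => f (t, y))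
      (fderivWithin ℝ f Sg (t, y) (0, 1)) (Icc 0 w) y := by
    intro t y hy
    have h1 : HasDerivWithinAt (fun y : ℝ => ((t, y) : ℝ × ℝ)) (0, 1) (Icc 0 w) y :=
      ((hasDerivAt_const y t).prodMk (hasDerivAt_id y)).hasDerivWithinAt
    have hm : MapsTo (fun y : ℝ => ((t, y) : ℝ × ℝ)) (Icc 0 w) Sg := fun s hs => ⟨mem_univ _, hs⟩
    exact (hdiff (t, y) ⟨mem_univ _, hy⟩).comp_hasDerivWithinAt y h1 hm
  set A : ℝ → ℂ := fun t => fderivWithin ℝ f Sg (t, 0) (1, 0) with hAdef
  set B : ℝ → ℂ := fun t => fderivWithin ℝ f Sg (t, 0) (0, 1) with hBdef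
  have hpair : ∀ t, A t ≠ 0 ∧ (B t = Complex.I * A t ∨ B t = -(Complex.I * A t)) := by
    intro t
    apply conformal_pair (κ := Real.exp (S.σ (F (t, 0))))
    intro a b
    rw [← hiso (t, 0) ⟨mem_univ _, h0w⟩ (a, b)]
    congr 2
    have : ((a, b) : ℝ × ℝ) = a • ((1, 0) : ℝ × ℝ) + b • ((0, 1) : ℝ × ℝ) := by simp
    rw [this, map_add, map_smul, map_smul, Complex.real_smul, Complex.real_smul]
  -- the sign is constant
  have hcA : Continuous A := by
    have h1 : ContinuousOn (fun t : ℝ => fderivWithin ℝ f Sg (t, 0)) univ :=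
      hcont.comp (by fun_prop) (fun t _ => ⟨mem_univ _, h0w⟩)
    exact (continuousOn_univ.1 h1).clm_apply continuous_const
  have hcB : Continuous B := by
    have h1 : ContinuousOn (fun t : ℝ => fderivWithin ℝ f Sg (t, 0)) univ :=
      hcont.comp (by fun_prop) (fun t _ => ⟨mem_univ _, h0w⟩)
    exact (continuousOn_univ.1 h1).clm_apply continuous_const
  obtain ⟨δ, hδ, hBA⟩ : ∃ δ : ℝ, (δ = 1 ∨ δ = -1) ∧ ∀ t, B t = (δ : ℂ) * Complex.I * A t := by
    set q : ℝ → ℝ := fun t => (B t / A t).im with hq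
    have hqc : Continuous q := Complex.continuous_im.comp (hcB.div hcA fun t => (hpair t).1)
    have hq1 : ∀ t, B t = ((q t : ℝ) : ℂ) * Complex.I * A t ∧ (q t = 1 ∨ q t = -1) := by
      intro t
      obtain ⟨h1, h2 | h2⟩ := hpair t
      · have : q t = 1 := by simp only [hq]; rw [h2, mul_div_assoc, div_self h1]; simp
        exact ⟨by rw [this, h2]; simp, Or.inl this⟩
      · have : q t = -1 := by
          simp only [hq]; rw [h2, neg_div, mul_div_assoc, div_self h1]; simp
        exact ⟨by rw [this, h2]; simp, Or.inr this⟩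
    have hqconst : ∀ t, q t = q 0 := by
      intro t
      by_contra hne
      have h1 : q t = -q 0 := by
        rcases (hq1 t).2 with h | h <;> rcases (hq1 0).2 with h' | h' <;> rw [h, h'] at hne ⊢ <;>
          first | exact absurd rfl hne | norm_num
      have : ∃ r, q r = 0 := by
        have hic := mem_range_of_exists_le_of_exists_ge hqc (c := (0 : ℝ))
        apply hic
        · rcases (hq1 0).2 with h | h
          · exact ⟨t, by rw [h1, h]; norm_num⟩
          · exact ⟨0, by rw [h]; norm_num⟩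
        · rcases (hq1 0).2 with h | h
          · exact ⟨0, by rw [h]; norm_num⟩
          · exact ⟨t, by rw [h1, h]; norm_num⟩
      obtain ⟨r, hr⟩ := this
      rcases (hq1 r).2 with h | h <;> rw [hr] at h <;> norm_num at h
    exact ⟨q 0, (hq1 0).2, fun t => by rw [← hqconst t]; exact (hq1 t).1⟩
  -- the bottom line
  obtain ⟨c', c'', hc⟩ := hgeo (0, 0) ⟨mem_univ _, h0w⟩ 0
  simp only [Real.sin_zero, mul_zero, add_zero, Real.cos_zero, mul_one, zero_add] at hc
  have hIuniv : {s : ℝ | (0 : ℝ) ∈ Icc 0 w} = univ := by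
    ext s; exact ⟨fun _ => trivial, fun _ => h0w⟩
  rw [hIuniv] at hc
  have hcA' : ∀ s, c' s = A s := by
    intro s
    have h1 := hasDerivWithinAt_univ.1 (hc s (mem_univ _)).1
    exact h1.unique (hhor 0 h0w s)
  obtain ⟨v, hv1, hv2⟩ := exists_vec S (F (0, 0)) (c' 0) (hc 0 (mem_univ _)).2.2.1
  have hline := S.geodesic_eq_flow Q.toPre hU (I := univ) ordConnected_univ
    (c := fun s => F (s, 0)) (c' := c') (c'' := c'') hc (s₀ := 0) (mem_univ _) (v := v) hv1 hv2
  simp only [sub_zero] at hline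
  -- the vertical lines
  have hvert : ∀ t, ∀ y ∈ Icc 0 w, F (t, y)
      = base (Q.Φ y (rot (δ * (Real.pi / 2)) (Q.Φ t v))) := by
    intro t y hy
    obtain ⟨d', d'', hd⟩ := hgeo (t, 0) ⟨mem_univ _, h0w⟩ (Real.pi / 2)
    simp only [Real.sin_pi_div_two, mul_one, zero_add, Real.cos_pi_div_two, mul_zero,
      add_zero] at hd
    have hI : {s : ℝ | s ∈ Icc 0 w} = Icc 0 w := rfl
    rw [hI] at hd
    have hd0 : d' 0 = B t := by
      have h1 := (hd 0 h0w).1
      exact (uniqueDiffOn_Icc hw 0 h0w).eq_deriv _ h1 (hver t 0 h0w)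
    have := S.geodesic_eq_flow Q.toPre hU (I := Icc 0 w) ordConnected_Icc
      (c := fun s => F (t, s)) (c' := d') (c'' := d'') hd (s₀ := 0) h0w
      (v := rot (δ * (Real.pi / 2)) (Q.Φ t v))
      (by rw [base_rot]; exact ((hline t (mem_univ _)).1).symm)
      (by
        rw [dir_rot, ← (hline t (mem_univ _)).2, hcA', hd0, hBA]
        congr 1
        rcases hδ with h | h <;> rw [h]
        · push_cast
          rw [one_mul, Complex.exp_pi_div_two_mul_I]
          simp
        · push_cast
          have : (-1 * ((Real.pi : ℂ) / 2)) * Complex.I = -((Real.pi : ℂ) / 2 * Complex.I) := by ring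
          rw [this, Complex.exp_neg, Complex.exp_pi_div_two_mul_I, Complex.inv_I]
          simp) y hy
    simpa using this.1
  have hFbase : ∀ t, ∀ y ∈ Icc 0 w, F (t, y) = base (Psi Q.Φ v (t, δ * y, 0)) := by
    intro t y hy
    rw [hvert t y hy]
    rcases hδ with h | h
    · rw [h]; simp [Psi, base_rot]
    · rw [h]
      have h1 := Q.Φ_rev (-y) (rot (-(Real.pi / 2)) (Q.Φ t v))
      rw [prot_rot, neg_neg] at h1
      have h2 : -(Real.pi / 2) + Real.pi = Real.pi / 2 := by ring
      rw [h2] at h1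
      simp only [Psi, base_rot]
      have h3 : (-1 : ℝ) * y = -y := by ring
      have h4 : (-1 : ℝ) * (Real.pi / 2) = -(Real.pi / 2) := by ring
      rw [h3, h4, h1, base_rot]
  refine ⟨v, δ, hδ, ?_, ?_⟩
  · -- the curvature vanishes
    have hJ1' : ∀ t, ∀ y ∈ uIcc 0 (δ * w), |Q.J (rot (Real.pi / 2) (Q.Φ t v)) y| = 1 := by
      intro t y hy
      obtain ⟨r, hr, rfl⟩ : ∃ r ∈ Icc 0 w, y = δ * r := by
        rcases hδ with h | h
        · rw [h, one_mul, uIcc_of_le hw.le] at hy
          exact ⟨y, hy, by rw [h]; ring⟩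
        · rw [h, uIcc_of_ge (by linarith)] at hy
          exact ⟨-y, ⟨by linarith [hy.2], by linarith [hy.1]⟩, by rw [h]; ring⟩
      obtain ⟨L, hL1, hL2⟩ := hasFDerivAt_base_psi hU v t (δ * r)
      have h1 : HasDerivAt (fun t => f (t, r)) (L (1, 0)) t := by
        have e1 : HasDerivAt (fun t : ℝ => ((t, δ * r) : ℝ × ℝ)) (1, 0) t :=
          (hasDerivAt_id t).prodMk (hasDerivAt_const t _)
        have e2 := hL1.comp_hasDerivAt t e1
        refine e2.congr_of_eventuallyEq (Filter.Eventually.of_forall fun s => ?_)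
        simp only [hf, Function.comp]
        rw [hFbase s r hr]
      have h2 : L (1, 0) = fderivWithin ℝ f Sg (t, r) (1, 0) := h1.unique (hhor r hr t)
      have h3 := hiso (t, r) ⟨mem_univ _, hr⟩ (1, 0)
      rw [← h2, hL2, hFbase t r hr] at h3
      simp only [one_mul, Complex.ofReal_zero, zero_mul, add_zero, norm_mul, norm_dir,
        Complex.norm_real, Real.norm_eq_abs] at h3
      have h4 : Real.exp (S.σ (base (Psi Q.Φ v (t, δ * r, 0))))
        * Real.exp (-S.σ (base (Psi Q.Φ v (t, δ * r, 0)))) = 1 := by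
        rw [← Real.exp_add]; simp
      have h5 : Real.exp (S.σ (base (Psi Q.Φ v (t, δ * r, 0))))
          * (|Q.J (rot (Real.pi / 2) (Q.Φ t v)) (δ * r)|
            * Real.exp (-S.σ (base (Psi Q.Φ v (t, δ * r, 0)))))
          = |Q.J (rot (Real.pi / 2) (Q.Φ t v)) (δ * r)| := by
        calc _ = |Q.J (rot (Real.pi / 2) (Q.Φ t v)) (δ * r)| * (Real.exp (S.σ (base (Psi Q.Φ v (t, δ * r, 0))))
            * Real.exp (-S.σ (base (Psi Q.Φ v (t, δ * r, 0))))) := by ring
          _ = _ := by rw [h4, mul_one]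
      rw [h5] at h3
      rw [h3]
      norm_num
    have hne : (0 : ℝ) ≠ δ * w := by
      rcases hδ with h | h <;> rw [h] <;> linarith
    have hUD : UniqueDiffOn ℝ (uIcc 0 (δ * w)) := by
      rw [uIcc]
      exact uniqueDiffOn_Icc (by rcases hδ with h | h <;> rw [h] <;> simp [hw])
    intro t y hy
    set n := rot (Real.pi / 2) (Q.Φ t v) with hn
    have hJone : ∀ y ∈ uIcc 0 (δ * w), Q.J n y = 1 := by
      intro y hy
      have h1 := hJ1' t y hy
      -- continuity of the sign: use the square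
      have hcont : Continuous (Q.J n) := continuous_iff_continuousAt.2
        fun z => (Q.J_deriv n z).continuousAt
      by_contra hne1
      have hneg : Q.J n y = -1 := by
        rcases abs_eq (by norm_num : (0 : ℝ) ≤ 1) |>.1 h1 with h | h
        · exact absurd h hne1
        · exact h
      have h0 : Q.J n 0 = 1 := Q.J_zero n
      have := intermediate_value_uIcc (a := 0) (b := y) hcont.continuousOn
      have hz : (0 : ℝ) ∈ uIcc (Q.J n 0) (Q.J n y) := by
        rw [h0, hneg, mem_uIcc]; right; constructor <;> norm_num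
      obtain ⟨z, hz1, hz2⟩ := this hz
      have hz3 : z ∈ uIcc 0 (δ * w) := by
        rw [mem_uIcc] at hz1 hy ⊢
        grind
      have := hJ1' t z hz3
      rw [← hn, hz2] at this
      norm_num at this
    have hJ1zero : ∀ y ∈ uIcc 0 (δ * w), Q.J1 n y = 0 := by
      intro y hy
      have e1 : HasDerivWithinAt (Q.J n) (Q.J1 n y) (uIcc 0 (δ * w)) y :=
        (Q.J_deriv n y).hasDerivWithinAt
      have e2 : HasDerivWithinAt (Q.J n) 0 (uIcc 0 (δ * w)) y :=
        (hasDerivWithinAt_const y _ (1 : ℝ)).congr hJone (hJone y hy)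
      exact (hUD y hy).eq_deriv _ e1 e2
    have e1 : HasDerivWithinAt (Q.J1 n) (-curv Q.U (bp (Q.Φ y n)) * Q.J n y) (uIcc 0 (δ * w)) y :=
      (Q.J1_deriv n y).hasDerivWithinAt
    have e2 : HasDerivWithinAt (Q.J1 n) 0 (uIcc 0 (δ * w)) y :=
      (hasDerivWithinAt_const y _ (0 : ℝ)).congr hJ1zero (hJ1zero y hy)
    have e3 := (hUD y hy).eq_deriv _ e1 e2
    rw [hJone y hy, mul_one, neg_eq_zero] at e3
    have e4 := G.J1_deriv n y
    rw [hJ1, hJ, hΦ] at e4
    have e5 := e4.unique (Q.J1_deriv n y)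
    rw [hJone y hy, mul_one, mul_one, e3] at e5
    rw [Geo.pKc_eq, hΦ]
    simpa using e5
  · intro t y hy
    rw [hΦ]
    exact hFbase t y hy

end Main

end H65.Flat
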