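import Pool.Agent.H65.Flat.StripB
import Pool.Agent.H65.Flat.Main

/-! # Finiteness of maximal flat strips -/

namespace H65.Flat

open Set
open scoped UpperHalfPlane MatrixGroups Topology

namespace Surface

theorem StripEmb.inv {w : ℝ} {τ : ℝ × ℝ → ℝ × ℝ} (h : StripEmb w w τ) (hw : 0 ≤ w) :
    ∃ τ', StripEmb w w τ' ∧ ∀ p, τ (τ' p) = p := by
  obtain ⟨ε, δ, a, b, hε, hδ, hmap, hτ⟩ := h
  refine ⟨fun p => (ε * p.1 + -(ε * a), δ * p.2 + -(δ * b)),
    ⟨ε, δ, -(ε * a), -(δ * b), hε, hδ, ?_, fun p => rfl⟩, ?_⟩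
  · have h0 := hmap 0 ⟨le_rfl, hw⟩
    have h1 := hmap w ⟨hw, le_rfl⟩
    intro y hy
    rcases hδ with h | h
    · rw [h] at h0 h1 ⊢
      simp only [mul_zero, zero_add, one_mul] at h0 h1 ⊢
      have : b = 0 := le_antisymm (by linarith [h1.2]) h0.1
      rw [this]; simpa using hy
    · rw [h] at h0 h1 ⊢
      simp only [mul_zero, zero_add] at h0 h1 ⊢
      have : b = w := le_antisymm h0.2 (by linarith [h1.1])
      rw [this]
      exact ⟨by linarith [hy.2], by linarith [hy.1]⟩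
  · intro p
    rw [hτ]
    have e1 : ε * ε = 1 := by rcases hε with h | h <;> rw [h] <;> norm_num
    have e2 : δ * δ = 1 := by rcases hδ with h | h <;> rw [h] <;> norm_num
    ext
    · simp only
      linear_combination (p.1 - a) * e1
    · simp only
      linear_combination (p.2 - b) * e2

theorem StripEmb.comp {w₁ w₂ w₃ : ℝ} {τ σ : ℝ × ℝ → ℝ × ℝ} (h : StripEmb w₁ w₂ τ)
    (h' : StripEmb w₂ w₃ σ) : StripEmb w₁ w₃ (σ ∘ τ) := by
  obtain ⟨ε, δ, a, b, hε, hδ, hmap, hτ⟩ := h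
  obtain ⟨ε', δ', a', b', hε', hδ', hmap', hσ⟩ := h'
  refine ⟨ε' * ε, δ' * δ, ε' * a + a', δ' * b + b', ?_, ?_, ?_, ?_⟩
  · rcases hε with h | h <;> rcases hε' with h' | h' <;> rw [h, h'] <;> norm_num
  · rcases hδ with h | h <;> rcases hδ' with h' | h' <;> rw [h, h'] <;> norm_num
  · intro y hy
    have := hmap' _ (hmap y hy)
    have e : δ' * δ * y + (δ' * b + b') = δ' * (δ * y + b) + b' := by ring
    rwa [e]
  · intro p
    simp only [Function.comp, hτ, hσ]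
    ext
    · simp only; ring
    · simp only; ring

theorem StripEmb.mapsTo {w w' : ℝ} {τ : ℝ × ℝ → ℝ × ℝ} (h : StripEmb w w' τ) :
    ∀ p ∈ (univ ×ˢ Icc 0 w : Set (ℝ × ℝ)), τ p ∈ (univ ×ˢ Icc 0 w' : Set (ℝ × ℝ)) := by
  obtain ⟨ε, δ, a, b, hε, hδ, hmap, hτ⟩ := h
  intro p hp
  rw [hτ]
  exact ⟨mem_univ _, hmap _ hp.2⟩

theorem Same.trans' {S : Surface} {w₁ w₂ w₃ : ℝ} {F₁ F₂ F₃ : ℝ × ℝ → ℍ} (hw : 0 ≤ w₁)
    (h : S.Same w₁ F₁ w₂ F₂) (h' : S.Same w₁ F₁ w₃ F₃) : S.Same w₂ F₂ w₃ F₃ := by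
  obtain ⟨rfl, g, hg, τ, hτ, hF⟩ := h
  obtain ⟨rfl, g', hg', τ', hτ', hF'⟩ := h'
  obtain ⟨σ, hσ, hσ'⟩ := hτ.inv hw
  refine ⟨rfl, g' * g⁻¹, S.Γ.mul_mem hg' (S.Γ.inv_mem hg), σ ∘ τ', hτ'.comp hσ, ?_⟩
  intro p hp
  have h1 := hF' p hp
  have h2 := hF (σ (τ' p)) (hσ.mapsTo _ (hτ'.mapsTo _ hp))
  rw [hσ'] at h2
  rw [h1, Function.comp, h2, mul_smul, inv_smul_smul]

/-- the internal surface -/
noncomputable def toSrf (S : Surface) (hK : ∀ z : ℍ, S.K z ≤ 0) : Srf where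
  Γ := S.Γ
  discr := S.discrete
  free := S.free
  cocompact := S.exists_compact
  u := S.u
  smooth := S.smooth_zz
  inv := S.inv
  nonpos := fun p => by rw [S.curv_eq]; exact hK _

end Surface

namespace Geo

variable {G : Geo}

theorem exists_upper {u : T} (hu : G.FlatV u) :
    ∃ B : ℝ, 0 ≤ B ∧ ∀ b, 0 ≤ b → (G.Strip u b ↔ b ≤ B) := by
  have hbdd : BddAbove {b : ℝ | 0 ≤ b ∧ G.Strip u b} := by
    refine (G.iso_strip_bdd u).mono ?_
    rintro b ⟨hb, hs⟩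
    refine ⟨hb, fun t y hy => hs t y ?_⟩
    rwa [uIcc_of_le hb]
  have h0 : (0 : ℝ) ∈ {b : ℝ | 0 ≤ b ∧ G.Strip u b} := ⟨le_rfl, G.strip_zero.2 hu⟩
  refine ⟨sSup {b : ℝ | 0 ≤ b ∧ G.Strip u b}, le_csSup hbdd h0, fun b hb => ⟨fun h =>
    le_csSup hbdd ⟨hb, h⟩, fun h => ?_⟩⟩
  have key : ∀ y, 0 ≤ y → y < sSup {b : ℝ | 0 ≤ b ∧ G.Strip u b} → ∀ t, G.Kc u t y = 0 := by
    intro y hy hlt t
    obtain ⟨c, ⟨hc0, hc⟩, hyc⟩ := exists_lt_of_lt_csSup ⟨0, h0⟩ hlt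
    exact hc t y (by rw [uIcc_of_le hc0]; exact ⟨hy, hyc.le⟩)
  rcases hb.eq_or_lt with hb0 | hb0
  · rw [← hb0]; exact G.strip_zero.2 hu
  · intro t y hy
    rw [uIcc_of_le hb] at hy
    rcases hy.1.eq_or_lt with hy0 | hy0
    · rw [← hy0]
      exact G.strip_zero.2 hu t 0 (by simp)
    · have hcl : IsClosed {z : ℝ | G.Kc u t z = 0} := by
        have : Continuous fun z : ℝ => G.Kc u t z :=
          G.pKc_cont.comp (by fun_prop : Continuous fun z : ℝ => ((u, t, z) : T × ℝ × ℝ))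
        exact isClosed_eq this continuous_const
      have hsub : Ico 0 y ⊆ {z : ℝ | G.Kc u t z = 0} := fun z hz =>
        key z hz.1 (hz.2.trans_le (hy.2.trans h)) t
      have := hcl.closure_subset_iff.2 hsub
      rw [closure_Ico hy0.ne] at this
      exact this ⟨hy0.le, le_rfl⟩

theorem exists_lower {u : T} (hu : G.FlatV u) :
    ∃ B : ℝ, 0 ≤ B ∧ ∀ b, 0 ≤ b → (G.Strip u (-b) ↔ b ≤ B) := by
  have hrev : ∀ b, G.Strip (rot Real.pi u) b ↔ G.Strip u (-b) := by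
    intro b
    constructor
    · intro h t y hy
      have := h (-t) (-y) (by rw [mem_uIcc] at hy ⊢; grind)
      rw [G.iso_kc_rev] at this
      simpa using this
    · intro h t y hy
      rw [G.iso_kc_rev]
      apply h (-t) (-y)
      rw [mem_uIcc] at hy ⊢; grind
  have hu' : G.FlatV (rot Real.pi u) := by
    rw [← G.strip_zero, hrev, neg_zero, G.strip_zero]
    exact hu
  obtain ⟨B, hB0, hB⟩ := exists_upper hu'
  exact ⟨B, hB0, fun b hb => by rw [← hrev]; exact hB b hb⟩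

theorem Strip.add {u : T} {b c t₀ : ℝ} (h : G.Strip u b) (h' : G.Strip (Psi G.Φ u (t₀, b, 0)) c) :
    G.Strip u (b + c) := by
  intro t y hy
  by_cases hyb : y ∈ uIcc 0 b
  · exact h t y hyb
  · have hy2 : y - b ∈ uIcc 0 c := by
      rw [mem_uIcc] at hy hyb ⊢
      grind
    have := h' (t - t₀) (y - b) hy2
    rw [h.Kc_trans] at this
    simpa using this

end Geo

/-- Finiteness of the number of maximal flat strips. -/
theorem Surface.finite_strips (S : Surface) (hK : ∀ z : ℍ, S.K z ≤ 0) :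
    ∃ A : Set (ℝ × (ℝ × ℝ → ℍ)), A.Finite ∧ (∀ a ∈ A, S.IsMaximalFlatStrip a.1 a.2) ∧
      ∀ w F, S.IsMaximalFlatStrip w F → ∃ a ∈ A, S.Same a.1 a.2 w F := by
  classical
  obtain ⟨G, Q, hU', hΦ, hKG, hΓ, hJ, hJ1⟩ := (S.toSrf hK).exists_geo
  have hU : Q.U = fun p => S.u (zz p) := hU'
  have hΓ' : G.Γ = S.Γ := hΓ
  obtain ⟨Fs, hFs1, hFs2⟩ := G.finite_classes
  -- maximal widths
  have hex : ∀ u : T, ∃ bm bp : ℝ, G.FlatV u → 0 ≤ bm ∧ 0 ≤ bp ∧
      (∀ b, 0 ≤ b → (G.Strip u b ↔ b ≤ bp)) ∧ (∀ b, 0 ≤ b → (G.Strip u (-b) ↔ b ≤ bm)) := by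
    intro u
    by_cases hu : G.FlatV u
    · obtain ⟨bp, h1, h2⟩ := Geo.exists_upper hu
      obtain ⟨bm, h3, h4⟩ := Geo.exists_lower hu
      exact ⟨bm, bp, fun _ => ⟨h3, h1, h2, h4⟩⟩
    · exact ⟨0, 0, fun h => absurd h hu⟩
  choose bm bp hb using hex
  set W : T → ℝ := fun u => bm u + bp u with hW
  set Fu : T → ℝ × ℝ → ℍ := fun u p => base (Psi G.Φ u (p.1, p.2 - bm u, 0)) with hFu
  -- every line of a flat vector `u'` with the widths of `u` gives a flat strip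
  have hflat : ∀ u u' : T, G.FlatV u → (∀ b, G.Strip u' b ↔ G.Strip u b) → 0 < W u →
      S.IsFlatStrip (W u) (fun p => base (Psi G.Φ u' (p.1, p.2 - bm u, 0))) := by
    intro u u' hu huu' hWpos
    obtain ⟨hbm, hbp, hup, hlow⟩ := hb u hu
    have hsm : G.Strip u' (-bm u) := (huu' _).2 ((hlow _ hbm).2 le_rfl)
    have hsp : G.Strip u' (bp u) := (huu' _).2 ((hup _ hbp).2 le_rfl)
    have hs : G.Strip (Psi G.Φ u' (0, -bm u, 0)) (W u) := by
      intro t y hy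
      rw [hsm.Kc_trans, zero_add]
      rw [uIcc_of_le hWpos.le] at hy
      rcases le_total y (bm u) with h | h
      · apply hsm t
        rw [mem_uIcc]
        right
        exact ⟨by linarith [hy.1], by linarith⟩
      · apply hsp t
        rw [mem_uIcc]
        left
        exact ⟨by linarith, by linarith [hy.2]⟩
    have := isFlatStrip_of_strip hU hΦ hJ hJ1 hWpos hs
    have e : (fun p : ℝ × ℝ => base (Psi G.Φ (Psi G.Φ u' (0, -bm u, 0)) (p.1, p.2, 0)))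
        = fun p : ℝ × ℝ => base (Psi G.Φ u' (p.1, p.2 - bm u, 0)) := by
      funext p
      rw [hsm.psi_trans]
      congr 3
      · ring
      · ring_nf
    rwa [e] at this
  -- every maximal strip is one of the finitely many
  have key : ∀ w F, S.IsMaximalFlatStrip w F → ∃ u ∈ Fs, S.Same (W u) (Fu u) w F := by
    rintro w F ⟨hF, hmax⟩
    have hw := hF.pos
    obtain ⟨v, δ, hδ, hs, hFv⟩ := strip_of_isFlatStrip hU hΦ hJ hJ1 hF
    obtain ⟨τ, hτ, u, hu, t₀, y₀, hτv, hsu⟩ := hFs2 v hs.flat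
    have huflat := hFs1 u hu
    obtain ⟨hbm, hbp, hup, hlow⟩ := hb u huflat
    obtain ⟨g, hg, hbase⟩ := G.Λ_base τ hτ
    rw [hΓ'] at hg
    have hs' : G.Strip (Psi G.Φ u (t₀, y₀, 0)) (δ * w) := by
      rw [← hτv, G.strip_deck hτ]; exact hs
    have hsw : G.Strip u (y₀ + δ * w) := hsu.add hs'
    have hrange : ∀ b, G.Strip u b → b ∈ Icc (-bm u) (bp u) := by
      intro b hb'
      rcases le_total 0 b with h | h
      · exact ⟨by linarith, (hup b h).1 hb'⟩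
      · have := (hlow (-b) (by linarith)).1 (by rwa [neg_neg])
        exact ⟨by linarith, by linarith⟩
    have hr0 := hrange _ hsu
    have hrw := hrange _ hsw
    have hemb : StripEmb w (W u) (fun p => (p.1 + t₀, δ * p.2 + (y₀ + bm u))) := by
      refine ⟨1, δ, t₀, y₀ + bm u, Or.inl rfl, hδ, ?_, fun p => by simp⟩
      intro y hy
      simp only [hW]
      rcases hδ with h | h
      · rw [h] at hrw ⊢
        exact ⟨by linarith [hr0.1, hy.1], by linarith [hrw.2, hy.2]⟩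
      · rw [h] at hrw ⊢
        exact ⟨by linarith [hrw.1, hy.2], by linarith [hr0.2, hy.1]⟩
    have hFg : ∀ p ∈ (univ ×ˢ Icc 0 w : Set (ℝ × ℝ)),
        F p = g⁻¹ • Fu u (p.1 + t₀, δ * p.2 + (y₀ + bm u)) := by
      rintro ⟨t, y⟩ hp
      have h1 := hFv t y hp.2
      have h2 : base (τ (Psi G.Φ v (t, δ * y, 0))) = g • base (Psi G.Φ v (t, δ * y, 0)) :=
        hbase _
      rw [← G.psi_deck hτ, hτv, hsu.psi_trans] at h2
      rw [h1]
      simp only [hFu]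
      have e : ((t + t₀, δ * y + (y₀ + bm u) - bm u, 0) : T) = (t₀ + t, y₀ + δ * y, 0) := by
        ext
        · simp only; ring
        · simp only; ring
        · rfl
      rw [e, h2, inv_smul_smul]
    have hwW : w ≤ W u := by
      simp only [hW]
      rcases hδ with h | h
      · rw [h] at hrw; linarith [hr0.1, hrw.2]
      · rw [h] at hrw; linarith [hr0.2, hrw.1]
    have hWpos : 0 < W u := hw.trans_le hwW
    have hinv : ∀ p, base (Psi G.Φ (τ⁻¹ u) (p : T)) = g⁻¹ • base (Psi G.Φ u p) := by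
      intro p
      have h1 : Psi G.Φ (τ⁻¹ u) p = τ⁻¹ (Psi G.Φ u p) := G.psi_deck (G.Λ.inv_mem hτ) u p
      rw [h1]
      have h2 := hbase (τ⁻¹ (Psi G.Φ u p))
      have h3 : τ (τ⁻¹ (Psi G.Φ u p)) = Psi G.Φ u p := Equiv.apply_symm_apply τ _
      rw [h3] at h2
      rw [h2, inv_smul_smul]
    have hweq : w = W u := by
      by_contra hne
      have hlt : w < W u := lt_of_le_of_ne hwW hne
      have hfl := hflat u (τ⁻¹ u) huflat (fun b => G.strip_deck (G.Λ.inv_mem hτ) u b) hWpos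
      refine hmax (W u) _ _ hfl hlt hemb ?_
      intro p hp
      rw [hFg p hp]
      simp only [hFu]
      rw [hinv]
    refine ⟨u, hu, hweq.symm, g⁻¹, S.Γ.inv_mem hg, _, hemb, hFg⟩
  -- choose maximal representatives
  have hrep : ∀ u : T, ∃ a : ℝ × (ℝ × ℝ → ℍ),
      (∃ w F, S.IsMaximalFlatStrip w F ∧ S.Same (W u) (Fu u) w F) →
      S.IsMaximalFlatStrip a.1 a.2 ∧ S.Same (W u) (Fu u) a.1 a.2 := by
    intro u
    by_cases h : ∃ w F, S.IsMaximalFlatStrip w F ∧ S.Same (W u) (Fu u) w F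
    · obtain ⟨w, F, h1, h2⟩ := h
      exact ⟨(w, F), fun _ => ⟨h1, h2⟩⟩
    · exact ⟨(0, fun _ => UpperHalfPlane.I), fun h' => absurd h' h⟩
  choose r hr using hrep
  refine ⟨r '' {u | u ∈ Fs ∧ ∃ w F, S.IsMaximalFlatStrip w F ∧ S.Same (W u) (Fu u) w F},
    ?_, ?_, ?_⟩
  · exact ((Fs.finite_toSet).subset fun u hu => hu.1).image _
  · rintro _ ⟨u, ⟨hu, h⟩, rfl⟩
    exact (hr u h).1
  · intro w F hF
    obtain ⟨u, hu, hsame⟩ := key w F hF
    have h : ∃ w F, S.IsMaximalFlatStrip w F ∧ S.Same (W u) (Fu u) w F := ⟨w, F, hF, hsame⟩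
    refine ⟨r u, ⟨u, ⟨hu, h⟩, rfl⟩, ?_⟩
    have hW0 : 0 ≤ W u := by
      obtain ⟨hbm, hbp, -, -⟩ := hb u (hFs1 u hu)
      exact add_nonneg hbm hbp
    exact Surface.Same.trans' hW0 (hr u h).2 hsame

end H65.Flat
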